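import Pool.Agent.H482.WT.Stm

set_option autoImplicit false

/-!
# Task TOT of project WT (helper974)
-/

namespace Pool.Agent.H482.WT

open Finset

namespace TOT

/-- the product of the primes dividing `n` and not `q` -/
def kk (q n : ℕ) : ℕ := ∏ p ∈ n.primeFactors \ q.primeFactors, p

lemma kk_dvd (q n : ℕ) : kk q n ∣ n :=
  dvd_trans (Finset.prod_dvd_prod_of_subset _ _ _ Finset.sdiff_subset) (Nat.prod_primeFactors_dvd n)

lemma kk_sq (q n : ℕ) : Squarefree (kk q n) := by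
  refine Finset.squarefree_prod_of_pairwise_isCoprime (fun a ha b hb hab ↦ ?_) fun p hp => ?_
  · have ha' := Nat.prime_of_mem_primeFactors (Finset.mem_sdiff.mp (Finset.mem_coe.mp ha)).1
    have hb' := Nat.prime_of_mem_primeFactors (Finset.mem_sdiff.mp (Finset.mem_coe.mp hb)).1
    exact Nat.coprime_iff_isRelPrime.mp ((Nat.coprime_primes ha' hb').mpr hab)
  · exact (Nat.prime_of_mem_primeFactors (Finset.mem_sdiff.mp hp).1).squarefree

lemma kk_cop (q n : ℕ) (hq : 1 ≤ q) : Nat.Coprime q (kk q n) := by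
  refine Nat.Coprime.prod_right fun p hp => ?_
  rw [Finset.mem_sdiff] at hp
  have hpp := Nat.prime_of_mem_primeFactors hp.1
  refine ((Nat.Prime.coprime_iff_not_dvd hpp).mpr fun h => hp.2 ?_).symm
  exact Nat.mem_primeFactors.mpr ⟨hpp, h, by omega⟩

/-- the completely multiplicative function `1 / n` -/
noncomputable def inv' : ℕ →* ℝ where
  toFun n := ((n : ℝ))⁻¹
  map_one' := by simp
  map_mul' a b := by push_cast; rw [mul_inv]

lemma sum_factored (m : ℕ) (hm : m ≠ 0) (T : Finset ℕ)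
    (hT : ∀ l ∈ T, l ∈ Nat.factoredNumbers m.primeFactors) :
    ∑ l ∈ T, ((l : ℝ))⁻¹ ≤ (m : ℝ) / (m.totient : ℝ) := by
  classical
  have h1 := (EulerProduct.summable_and_hasSum_factoredNumbers_prod_filter_prime_geometric
    (f := inv') (fun {p} hp => by
      have : (1 : ℝ) < p := by exact_mod_cast hp.one_lt
      change ‖((p : ℝ))⁻¹‖ < 1
      rw [norm_inv, Real.norm_of_nonneg (by positivity)]
      exact inv_lt_one_of_one_lt₀ this) m.primeFactors).2
  have h2 : ∏ p ∈ m.primeFactors with p.Prime, (1 - inv' p)⁻¹ = (m : ℝ) / (m.totient : ℝ) := by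
    have h3 : (m.totient : ℝ) = m * ∏ p ∈ m.primeFactors, (1 - ((p : ℝ))⁻¹) := by
      have h4 := Nat.totient_eq_mul_prod_factors m
      have h5 : (((m.totient : ℚ)) : ℝ) = ((m * ∏ p ∈ m.primeFactors, (1 - ((p : ℚ))⁻¹) : ℚ) : ℝ) := by
        rw [h4]
      push_cast at h5
      exact h5
    have h6 : (m : ℝ) ≠ 0 := by exact_mod_cast hm
    rw [h3, Finset.filter_true_of_mem (fun p hp => Nat.prime_of_mem_primeFactors hp),
      Finset.prod_inv_distrib, div_mul_eq_div_div, div_self h6, one_div]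
    rfl
  rw [h2] at h1
  have h3 := sum_le_hasSum (T.subtype (· ∈ Nat.factoredNumbers m.primeFactors)) (fun i _ => by
    change 0 ≤ ((i : ℕ) : ℝ)⁻¹
    positivity) h1
  refine le_trans (le_of_eq ?_) h3
  exact (Finset.sum_subtype_of_mem (fun l : ℕ => ((l : ℝ))⁻¹) hT).symm

lemma fibre (q R k : ℕ) (hq : 1 ≤ q) (hk : 1 ≤ k) :
    ∑ n ∈ (Icc 1 R).filter (fun n => kk q n = k), ((n : ℝ))⁻¹ ≤
      (q : ℝ) / (Nat.totient (q * k) : ℝ) := by
  classical
  have hqk : q * k ≠ 0 := by positivity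
  set A := (Icc 1 R).filter (fun n => kk q n = k) with hA
  have hdvd : ∀ n ∈ A, k ∣ n := by
    intro n hn
    rw [hA, mem_filter] at hn
    rw [← hn.2]
    exact kk_dvd q n
  have hinj : Set.InjOn (fun n => n / k) (A : Set ℕ) := by
    intro a ha b hb hab
    have h1 := Nat.div_mul_cancel (hdvd a ha)
    have h2 := Nat.div_mul_cancel (hdvd b hb)
    change a / k = b / k at hab
    rw [← h1, ← h2, hab]
  have hmem : ∀ l ∈ A.image (fun n => n / k), l ∈ Nat.factoredNumbers (q * k).primeFactors := by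
    intro l hl
    rw [mem_image] at hl
    obtain ⟨n, hn, rfl⟩ := hl
    have hkn := hdvd n hn
    rw [hA, mem_filter, mem_Icc] at hn
    rw [Nat.mem_factoredNumbers']
    intro p hp hpl
    have hpn : p ∣ n := dvd_trans hpl (Nat.div_dvd_of_dvd hkn)
    rw [Nat.mem_primeFactors]
    refine ⟨hp, ?_, hqk⟩
    by_cases hpq : p ∣ q
    · exact Dvd.dvd.mul_right hpq k
    · refine Dvd.dvd.mul_left ?_ q
      rw [← hn.2]
      refine Finset.dvd_prod_of_mem _ ?_
      rw [mem_sdiff, Nat.mem_primeFactors, Nat.mem_primeFactors]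
      exact ⟨⟨hp, hpn, by omega⟩, fun h => hpq h.2.1⟩
  have h1 := sum_factored (q * k) hqk _ hmem
  rw [Finset.sum_image hinj] at h1
  have hk0 : (0 : ℝ) < k := by exact_mod_cast hk
  have h2 : ∑ n ∈ A, ((n : ℝ))⁻¹ = (k : ℝ)⁻¹ * ∑ n ∈ A, (((n / k : ℕ) : ℝ))⁻¹ := by
    rw [mul_sum]
    refine sum_congr rfl fun n hn => ?_
    rw [← mul_inv, ← Nat.cast_mul, Nat.mul_div_cancel' (hdvd n hn)]
  rw [h2]
  calc (k : ℝ)⁻¹ * ∑ n ∈ A, (((n / k : ℕ) : ℝ))⁻¹
      ≤ (k : ℝ)⁻¹ * (((q * k : ℕ) : ℝ) / ((q * k).totient : ℝ)) :=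
        mul_le_mul_of_nonneg_left h1 (by positivity)
    _ = (q : ℝ) / ((q * k).totient : ℝ) := by
        push_cast
        field_simp

end TOT

open TOT in
theorem tot : S_TOT := by
  classical
  intro q R hq hR
  have h1 : Real.log R ≤ ∑ n ∈ Icc 1 R, ((n : ℝ))⁻¹ := by
    have h2 := log_add_one_le_harmonic R
    rw [harmonic_eq_sum_Icc] at h2
    push_cast at h2
    have h3 : Real.log R ≤ Real.log ((R : ℝ) + 1) := by
      apply Real.log_le_log
      · exact_mod_cast hR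
      · linarith
    exact le_trans h3 h2
  refine le_trans h1 ?_
  have hmaps : ∀ n ∈ Icc 1 R, kk q n ∈
      (Icc 1 R).filter (fun k => Squarefree k ∧ Nat.Coprime q k) := by
    intro n hn
    rw [mem_Icc] at hn
    rw [mem_filter, mem_Icc]
    have h4 := kk_dvd q n
    have h5 : kk q n ≠ 0 := (kk_sq q n).ne_zero
    exact ⟨⟨by omega, le_trans (Nat.le_of_dvd (by omega) h4) hn.2⟩, kk_sq q n, kk_cop q n hq⟩
  rw [← Finset.sum_fiberwise_of_maps_to hmaps]
  refine Finset.sum_le_sum fun k hk => ?_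
  rw [mem_filter, mem_Icc] at hk
  exact fibre q R k hq hk.1.1

end Pool.Agent.H482.WT
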