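import Mathlib
import Pool.Graph.R_seed8.Helper112.MultLS
import Pool.Graph.R_seed8.H379R2.W.Strong

/-!
Project WT (helper482, `MP_0b15c0_nt`): all but a bounded number of the composite `n ≤ x` have many
strong witnesses in any prescribed dense set of primes up to `x ^ δ`.  Statements of the tasks.
-/

set_option autoImplicit false

namespace Pool.Agent.H482.WT

open Finset

open Pool.Agent.H379R2.W (Passes v2)

/-- the primes `z < p ≤ y` -/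
def PR (z y : ℕ) : Finset ℕ := (Ioc z y).filter Nat.Prime

open Classical in
/-- the primitive characters modulo `f` -/
noncomputable def Pm (f : ℕ) : Finset (DirichletCharacter ℂ f) :=
  (univ : Finset (DirichletCharacter ℂ f)).filter (fun χ => χ.IsPrimitive)

/-- task PSI: a character of two-power order modulo `p` whose value at a base `b` is determined by the
level at which the test is passed (see the sketch in the task). -/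
def S_PSI : Prop := ∀ p v : ℕ, p.Prime → p ≠ 2 → 1 ≤ v → v ≤ v2 p →
  ∃ ψ : DirichletCharacter ℂ p, ψ ≠ 1 ∧
    (∀ b d : ℕ, Odd d → (b : ZMod p) ^ d = 1 → ψ (b : ZMod p) = 1) ∧
    ∀ b i d : ℕ, Odd d → (b : ZMod p) ^ (2 ^ i * d) = -1 →
      (i + 1 < v → ψ (b : ZMod p) = 1) ∧ (i + 1 = v → ψ (b : ZMod p) = -1)

/-- task PROD: a product of nonprincipal characters to different prime moduli is primitive. -/
def S_PROD : Prop := ∀ (A : Finset ℕ) (ψ : (p : ℕ) → DirichletCharacter ℂ p),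
  (∀ p ∈ A, p.Prime) → (∀ p ∈ A, ψ p ≠ 1) →
  ∃ χ : DirichletCharacter ℂ (∏ p ∈ A, p), χ.IsPrimitive ∧
    ∀ b : ℕ, χ (b : ZMod (∏ p ∈ A, p)) = ∏ p ∈ A, ψ p (b : ZMod p)

/-- task SYL: the characters modulo `p ^ a` whose order is a power of `p`. -/
def S_SYL : Prop := ∀ p a : ℕ, p.Prime → 1 ≤ a →
  ∃ X : Finset (DirichletCharacter ℂ (p ^ a)), X.card = p ^ (a - 1) ∧ 1 ∈ X ∧
    (∀ b : ℕ, 0 ≤ (∑ χ ∈ X, χ (b : ZMod (p ^ a))).re) ∧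
    ∀ b e : ℕ, (b : ZMod (p ^ a)) ^ e = 1 → ¬ p ∣ e → ∀ χ ∈ X, χ (b : ZMod (p ^ a)) = 1

open Classical in
/-- task TOT -/
def S_TOT : Prop := ∀ q R : ℕ, 1 ≤ q → 1 ≤ R →
  Real.log R ≤ ∑ k ∈ (Icc 1 R).filter (fun k => Squarefree k ∧ Nat.Coprime q k),
    (q : ℝ) / (Nat.totient (q * k) : ℝ)

/-- task GAU -/
def S_GAU : Prop := ∀ (q k : ℕ) [NeZero q] [NeZero (q * k)], Squarefree k → Nat.Coprime q k →
  ∀ ψ : DirichletCharacter ℂ q, ψ.IsPrimitive → ∀ (N : ℕ) (b : ℕ → ℂ),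
    (∀ n, ¬ Nat.Coprime n k → b n = 0) →
    ‖∑ a : ZMod (q * k), (DirichletCharacter.changeLevel (Dvd.intro k rfl) ψ)⁻¹ a *
      Pool.Agent.Helper112.MLS.T (q * k) N b a‖ ^ 2 =
        q * ‖∑ n ∈ Icc 1 N, b n * ψ (n : ZMod q)‖ ^ 2

/-- task LSR: the large sieve for coefficients supported on integers without small prime factors -/
def S_LSR : Prop := ∀ (N Q R : ℕ), 1 ≤ R → ∀ b : ℕ → ℂ,
  (∀ n p : ℕ, p.Prime → p ≤ R → p ∣ n → b n = 0) →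
  Real.log R * ∑ f ∈ Icc 1 Q, ∑ χ ∈ Pm f, ‖∑ n ∈ Icc 1 N, b n * χ (n : ZMod f)‖ ^ 2 ≤
    6 * (N + ((Q : ℝ) * R) ^ 2) * ∑ n ∈ Icc 1 N, ‖b n‖ ^ 2

open Classical in
/-- task TUP: the products of `k` primes from `(z, y]` in a dyadic interval -/
def S_TUP : Prop := ∃ C : ℝ, 0 < C ∧ ∀ z y k j : ℕ, 2 ≤ z →
  ∑ w ∈ (Fintype.piFinset (fun _ : Fin (k + 1) => PR z y)).filter
      (fun w => 2 ^ j ≤ ∏ i, w i ∧ ∏ i, w i < 2 ^ (j + 1)), ∏ i, (1 / (w i : ℝ)) ≤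
    C * (∑ p ∈ PR z y, 1 / (p : ℝ)) ^ k / Real.log z

open Classical in
/-- task REP: the number of representations as a product of `k` primes -/
def S_REP : Prop := ∀ z y k n : ℕ,
  ((Fintype.piFinset (fun _ : Fin k => PR z y)).filter (fun w => ∏ i, w i = n)).card ≤ k ^ k

/-- task MOM: the moment of prime sums over all primitive characters -/
def S_MOM : Prop := ∃ C : ℝ, 0 < C ∧ ∀ z y k Q : ℕ, 2 ≤ z → z ≤ y → (Q * z) ^ 2 ≤ z ^ (k + 1) →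
  ∀ c : ℕ → ℂ, (∀ n, ‖c n‖ ≤ 1) →
    ∑ f ∈ Icc 1 Q, ∑ χ ∈ Pm f, ‖∑ p ∈ PR z y, c p * χ (p : ZMod f) / p‖ ^ (2 * (k + 1)) ≤
      C * ((k + 1 : ℕ) : ℝ) ^ (k + 3) * (∑ p ∈ PR z y, 1 / (p : ℝ)) ^ k *
        (1 + Real.log y / Real.log z) ^ 2

/-- task FEW: few bad characters -/
def S_FEW : Prop := ∀ θ δ η : ℝ, 0 < θ → 0 < η → ∃ C : ℕ, ∀ x : ℕ, 2 ≤ x →
  ∀ c : ℕ → ℂ, (∀ n, ‖c n‖ ≤ 1) → ∀ E : Finset (Σ f : ℕ, DirichletCharacter ℂ f),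
    (∀ e ∈ E, 1 ≤ e.1 ∧ e.1 ≤ x ∧ e.2.IsPrimitive ∧
      η ≤ ‖∑ p ∈ PR ⌊(x : ℝ) ^ θ⌋₊ ⌊(x : ℝ) ^ δ⌋₊, c p * e.2 (p : ZMod e.1) / p‖) → E.card ≤ C

end Pool.Agent.H482.WT
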