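import Mathlib
import Pool.Agent.H482.WT.Stm

/-! The local characters attached to an integer, and their common value at a base for which the
test is passed. -/

set_option autoImplicit false

namespace Pool.Agent.H482.WT

open Finset

open Pool.Agent.H379R2.W (Passes v2 v2_pos legendre_level)

theorem fam (hP : S_PSI) (n : ℕ) (hn : 2 ≤ n) : ∃ ψ : (p : ℕ) → DirichletCharacter ℂ p,
    (∀ p ∈ n.primeFactors, p ≠ 2 → ψ p ≠ 1) ∧
    ∀ b : ℕ, Passes n b → ∃ s : ℂ, (s = 1 ∨ s = -1) ∧ (Even n → s = 1) ∧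
      ∀ p ∈ n.primeFactors, p ≠ 2 → ψ p (b : ZMod p) = s := by
  classical
  -- the minimum of the exponents
  obtain ⟨v, hv1, hv⟩ : ∃ v : ℕ, 1 ≤ v ∧ (∀ p ∈ n.primeFactors, p ≠ 2 → v ≤ v2 p) ∧
      (∀ w : ℕ, (∀ p ∈ n.primeFactors, p ≠ 2 → w ≤ v2 p) → w ≤ v ∨ ∀ p ∈ n.primeFactors, p = 2) := by
    by_cases h : (n.primeFactors.filter (fun p => p ≠ 2)).Nonempty
    · obtain ⟨p0, hp0, hmin⟩ := Finset.exists_min_image _ v2 h
      rw [mem_filter] at hp0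
      refine ⟨v2 p0, v2_pos (Nat.prime_of_mem_primeFactors hp0.1) hp0.2, ?_, ?_⟩
      · intro p hp hp2
        exact hmin p (mem_filter.2 ⟨hp, hp2⟩)
      · intro w hw
        exact Or.inl (hw p0 hp0.1 hp0.2)
    · refine ⟨1, le_rfl, ?_, ?_⟩
      · intro p hp hp2
        exact absurd ⟨p, mem_filter.2 ⟨hp, hp2⟩⟩ h
      · intro w _
        right
        intro p hp
        by_contra hp2
        exact h ⟨p, mem_filter.2 ⟨hp, hp2⟩⟩
  obtain ⟨hv2, hv3⟩ := hv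
  have hex : ∀ p : ℕ, ∃ ψ : DirichletCharacter ℂ p, (p ∈ n.primeFactors → p ≠ 2 → ψ ≠ 1 ∧
      (∀ b d : ℕ, Odd d → (b : ZMod p) ^ d = 1 → ψ (b : ZMod p) = 1) ∧
      ∀ b i d : ℕ, Odd d → (b : ZMod p) ^ (2 ^ i * d) = -1 →
        (i + 1 < v → ψ (b : ZMod p) = 1) ∧ (i + 1 = v → ψ (b : ZMod p) = -1)) := by
    intro p
    by_cases hp : p ∈ n.primeFactors ∧ p ≠ 2
    · obtain ⟨ψ, h⟩ := hP p v (Nat.prime_of_mem_primeFactors hp.1) hp.2 hv1 (hv2 p hp.1 hp.2)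
      exact ⟨ψ, fun _ _ => h⟩
    · exact ⟨1, fun h1 h2 => absurd ⟨h1, h2⟩ hp⟩
  choose ψ hψ using hex
  refine ⟨ψ, fun p hp hp2 => (hψ p hp hp2).1, ?_⟩
  intro b hb
  obtain ⟨j, d, h1, h2, h3⟩ := hb
  by_cases h4 : (b : ZMod n) ^ d = 1
  · refine ⟨1, Or.inl rfl, fun _ => rfl, fun p hp hp2 => ?_⟩
    have e1 := congrArg (ZMod.castHom (Nat.dvd_of_mem_primeFactors hp) (ZMod p)) h4
    rw [map_pow, map_natCast, map_one] at e1
    exact (hψ p hp hp2).2.1 b d h2 e1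
  · obtain ⟨i, hi, h5⟩ := h3.resolve_left h4
    have e1 : ∀ p ∈ n.primeFactors, (b : ZMod p) ^ (2 ^ i * d) = -1 := by
      intro p hp
      have e1 := congrArg (ZMod.castHom (Nat.dvd_of_mem_primeFactors hp) (ZMod p)) h5
      rwa [map_pow, map_natCast, map_neg, map_one] at e1
    have hnodd : ¬ Even n := by
      intro he
      have hj : j ≠ 0 := by omega
      have h6 : Even (n - 1) := by
        rw [h1]
        exact (Nat.even_pow.2 ⟨even_two, hj⟩).mul_right d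
      obtain ⟨a, ha⟩ := he
      obtain ⟨c, hc⟩ := h6
      omega
    have hle : ∀ p ∈ n.primeFactors, p ≠ 2 → i + 1 ≤ v2 p := by
      intro p hp hp2
      exact (legendre_level (Nat.prime_of_mem_primeFactors hp) hp2 h2 (e1 p hp)).1
    rcases hv3 (i + 1) hle with h6 | h6
    · rcases lt_or_eq_of_le h6 with h7 | h7
      · exact ⟨1, Or.inl rfl, fun _ => rfl, fun p hp hp2 =>
          ((hψ p hp hp2).2.2 b i d h2 (e1 p hp)).1 h7⟩
      · exact ⟨-1, Or.inr rfl, fun he => absurd he hnodd, fun p hp hp2 =>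
          ((hψ p hp hp2).2.2 b i d h2 (e1 p hp)).2 h7⟩
    · refine ⟨1, Or.inl rfl, fun _ => rfl, fun p hp hp2 => absurd (h6 p hp) hp2⟩

end Pool.Agent.H482.WT
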