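import Mathlib
import Pool.Agent.H482.WT.Stm

/-! The large sieve for coefficients supported on integers without small prime factors. -/

set_option autoImplicit false

namespace Pool.Agent.H482.WT

open Finset

open Pool.Agent.Helper112 (additive_large_sieve)
open Pool.Agent.Helper112.MLS (T sum_all sum_units)

/-- the inner sum -/
noncomputable def PSm (N : ℕ) (b : ℕ → ℂ) (q : ℕ) : ℝ :=
  ∑ χ ∈ Pm q, ‖∑ n ∈ Icc 1 N, b n * χ (n : ZMod q)‖ ^ 2

theorem PSm_nonneg (N : ℕ) (b : ℕ → ℂ) (q : ℕ) : 0 ≤ PSm N b q :=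
  sum_nonneg fun _ _ => by positivity

theorem mem_Pm {f : ℕ} {χ : DirichletCharacter ℂ f} : χ ∈ Pm f ↔ χ.IsPrimitive := by
  classical
  unfold Pm
  rw [mem_filter]
  exact ⟨fun h => h.2, fun h => ⟨mem_univ _, h⟩⟩

/-- the condition -/
def Cd (R m q : ℕ) : Prop := q ∣ m ∧ m / q ≤ R ∧ Squarefree (m / q) ∧ Nat.Coprime q (m / q)

theorem gau_gen (hG : S_GAU) (m q : ℕ) [NeZero m] [NeZero q] (hqm : q ∣ m)
    (hs : Squarefree (m / q)) (hc : Nat.Coprime q (m / q)) (ψ : DirichletCharacter ℂ q)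
    (hψ : ψ.IsPrimitive) (N : ℕ) (b : ℕ → ℂ) (hb : ∀ n, ¬ Nat.Coprime n (m / q) → b n = 0) :
    ‖∑ a : ZMod m, (DirichletCharacter.changeLevel hqm ψ)⁻¹ a * T m N b a‖ ^ 2 =
      q * ‖∑ n ∈ Icc 1 N, b n * ψ (n : ZMod q)‖ ^ 2 := by
  have hq0 : 0 < q := NeZero.pos q
  obtain ⟨k, hk⟩ := id hqm
  subst hk
  rw [Nat.mul_div_cancel_left k hq0] at hs hc hb
  exact hG q k hs hc ψ hψ N b hb

theorem cond_level {m q : ℕ} [NeZero m] (hqm : q ∣ m) (ψ : DirichletCharacter ℂ q)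
    (hψ : ψ.IsPrimitive) : (DirichletCharacter.changeLevel hqm ψ).conductor = q := by
  rw [DirichletCharacter.conductor_changeLevel]
  exact hψ

open Classical in
theorem one_modulus (hG : S_GAU) (m Q R N : ℕ) [NeZero m] (b : ℕ → ℂ)
    (hb : ∀ n p : ℕ, p.Prime → p ≤ R → p ∣ n → b n = 0) :
    ∑ q ∈ (Icc 1 Q).filter (fun q => Cd R m q), (q : ℝ) * PSm N b q ≤
      (Nat.totient m : ℝ) * ∑ a : (ZMod m)ˣ, ‖T m N b a‖ ^ 2 := by
  rw [← sum_all]
  set s := (Icc 1 Q).filter (fun q => Cd R m q) with hsdef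
  set g : DirichletCharacter ℂ m → ℝ := fun χ => ‖∑ a : ZMod m, χ⁻¹ a * T m N b a‖ ^ 2 with hg
  set e : (Σ q : ℕ, DirichletCharacter ℂ q) → DirichletCharacter ℂ m := fun w =>
    if h : w.1 ∣ m then DirichletCharacter.changeLevel h w.2 else 1 with he
  have hmem : ∀ w ∈ s.sigma (fun q => Pm q), w.1 ∣ m ∧ Cd R m w.1 ∧ 1 ≤ w.1 ∧ w.2.IsPrimitive := by
    intro w hw
    rw [mem_sigma, hsdef, mem_filter, mem_Icc, mem_Pm] at hw
    exact ⟨hw.1.2.1, hw.1.2, hw.1.1.1, hw.2⟩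
  have hinj : Set.InjOn e (s.sigma (fun q => Pm q)) := by
    rintro ⟨q, ψ⟩ hw ⟨q', ψ'⟩ hw' heq
    obtain ⟨h1, -, h3, h4⟩ := hmem _ hw
    obtain ⟨h1', -, h3', h4'⟩ := hmem _ hw'
    simp only [he] at heq
    simp only at h1 h1' h3 h3' h4 h4'
    rw [dif_pos h1, dif_pos h1'] at heq
    have h5 : q = q' := by
      rw [← cond_level h1 ψ h4, heq, cond_level h1' ψ' h4']
    subst h5
    have : NeZero q := ⟨by omega⟩
    have h6 := DirichletCharacter.changeLevel_injective h1 heq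
    rw [h6]
  have h1 : ∑ q ∈ s, (q : ℝ) * PSm N b q = ∑ w ∈ s.sigma (fun q => Pm q), g (e w) := by
    rw [sum_sigma]
    refine sum_congr rfl fun q hq => ?_
    unfold PSm
    rw [mul_sum]
    refine sum_congr rfl fun ψ hψ => ?_
    have hw : (⟨q, ψ⟩ : Σ q : ℕ, DirichletCharacter ℂ q) ∈ s.sigma (fun q => Pm q) := by
      rw [mem_sigma]; exact ⟨hq, hψ⟩
    obtain ⟨a1, a2, a3, a4⟩ := hmem _ hw
    simp only at a1 a2 a3 a4
    have : NeZero q := ⟨by omega⟩
    simp only [hg, he]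
    rw [dif_pos a1]
    refine (gau_gen hG m q a1 a2.2.2.1 a2.2.2.2 ψ a4 N b ?_).symm
    intro n hn
    obtain ⟨p, hp, hp1, hp2⟩ := Nat.Prime.not_coprime_iff_dvd.1 hn
    refine hb n p hp ?_ hp1
    have h0 : 0 < m / q := Nat.div_pos (Nat.le_of_dvd (NeZero.pos m) a1) (by omega)
    exact (Nat.le_of_dvd h0 hp2).trans a2.2.1
  rw [h1, ← sum_image hinj]
  exact sum_le_sum_of_subset_of_nonneg (subset_univ _) fun _ _ _ => by positivity

theorem lsr (hT : S_TOT) (hG : S_GAU) : S_LSR := by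
  classical
  intro N Q R hR b hb
  rcases Nat.eq_zero_or_pos Q with hQ0 | hQ0
  · subst hQ0
    simp
    positivity
  have hadd := additive_large_sieve N (Q * R) b
  have hcast : (((Q * R : ℕ) : ℝ)) ^ 2 = ((Q : ℝ) * R) ^ 2 := by push_cast; ring
  rw [hcast] at hadd
  refine le_trans ?_ hadd
  have h1 : ∀ q ∈ Icc 1 Q, Real.log R * PSm N b q ≤
      ∑ m ∈ Icc 1 (Q * R), if Cd R m q then ((q : ℝ) / Nat.totient m) * PSm N b q else 0 := by
    intro q hq
    rw [mem_Icc] at hq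
    have h2 := mul_le_mul_of_nonneg_right (hT q R hq.1 hR) (PSm_nonneg N b q)
    refine h2.trans ?_
    rw [sum_mul, ← sum_filter]
    have hinj : Set.InjOn (fun k => q * k)
        (((Icc 1 R).filter (fun k => Squarefree k ∧ Nat.Coprime q k) : Finset ℕ) : Set ℕ) := by
      intro k _ k' _ h
      exact Nat.eq_of_mul_eq_mul_left (by omega) h
    calc ∑ k ∈ (Icc 1 R).filter (fun k => Squarefree k ∧ Nat.Coprime q k),
          (q : ℝ) / (Nat.totient (q * k) : ℝ) * PSm N b q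
        = ∑ m ∈ ((Icc 1 R).filter (fun k => Squarefree k ∧ Nat.Coprime q k)).image (fun k => q * k),
          (q : ℝ) / (Nat.totient m : ℝ) * PSm N b q := by rw [sum_image hinj]
      _ ≤ _ := by
          apply sum_le_sum_of_subset_of_nonneg
          · intro m hm
            rw [mem_image] at hm
            obtain ⟨k, hk, rfl⟩ := hm
            rw [mem_filter, mem_Icc] at hk
            rw [mem_filter, mem_Icc]
            have hdiv : q * k / q = k := Nat.mul_div_cancel_left k (by omega)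
            refine ⟨⟨Nat.mul_pos (by omega) hk.1.1, Nat.mul_le_mul hq.2 hk.1.2⟩, Dvd.intro k rfl, ?_, ?_, ?_⟩
            · rw [hdiv]; exact hk.1.2
            · rw [hdiv]; exact hk.2.1
            · rw [hdiv]; exact hk.2.2
          · intro m _ _
            have := PSm_nonneg N b q
            positivity
  have h2 : Real.log R * ∑ f ∈ Icc 1 Q, ∑ χ ∈ Pm f, ‖∑ n ∈ Icc 1 N, b n * χ (n : ZMod f)‖ ^ 2 ≤
      ∑ m ∈ Icc 1 (Q * R), ∑ q ∈ Icc 1 Q,
        if Cd R m q then ((q : ℝ) / Nat.totient m) * PSm N b q else 0 := by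
    rw [mul_sum, sum_comm]
    exact sum_le_sum h1
  refine h2.trans (sum_le_sum fun m hm => ?_)
  rw [mem_Icc] at hm
  have hm0 : NeZero m := ⟨by omega⟩
  rw [← sum_units, ← sum_filter]
  have h3 := one_modulus hG m Q R N b hb
  have htp : (0 : ℝ) < Nat.totient m := by
    have := Nat.totient_pos.mpr (NeZero.pos m)
    exact_mod_cast this
  rw [← div_le_iff₀' htp] at h3
  refine le_trans (le_of_eq ?_) h3
  rw [sum_div]
  exact sum_congr rfl fun q _ => by ring

end Pool.Agent.H482.WT
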