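import Mathlib
import Pool.Agent.H482.WT.Ls

/-! The high moment of the prime sums over all primitive characters. -/

set_option autoImplicit false

namespace Pool.Agent.H482.WT

open Finset

open Classical in
/-- the tuples with product in a dyadic interval -/
noncomputable def Wj (z y k j : ℕ) : Finset (Fin (k + 1) → ℕ) :=
  (Fintype.piFinset (fun _ : Fin (k + 1) => PR z y)).filter
      (fun w => 2 ^ j ≤ ∏ i, w i ∧ ∏ i, w i < 2 ^ (j + 1))

/-- the weight of a tuple -/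
noncomputable def Fc (c : ℕ → ℂ) {k : ℕ} (w : Fin (k + 1) → ℕ) : ℂ := ∏ i, (c (w i) / (w i : ℂ))

open Classical in
/-- the coefficients of a block -/
noncomputable def bj (c : ℕ → ℂ) (z y k j n : ℕ) : ℂ :=
  ∑ w ∈ (Wj z y k j).filter (fun w => ∏ i, w i = n), Fc c w

theorem mem_Wj {z y k j : ℕ} {w : Fin (k + 1) → ℕ} : w ∈ Wj z y k j ↔
    (∀ i, z < w i ∧ w i ≤ y ∧ (w i).Prime) ∧ 2 ^ j ≤ ∏ i, w i ∧ ∏ i, w i < 2 ^ (j + 1) := by
  classical
  unfold Wj PR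
  rw [mem_filter, Fintype.mem_piFinset]
  simp only [mem_filter, mem_Ioc, and_assoc]

theorem Fc_norm (c : ℕ → ℂ) (hc : ∀ n, ‖c n‖ ≤ 1) {k : ℕ} (w : Fin (k + 1) → ℕ) :
    ‖Fc c w‖ ≤ ∏ i, (1 / (w i : ℝ)) := by
  unfold Fc
  rw [norm_prod]
  apply prod_le_prod
  · intro i _; positivity
  · intro i _
    rw [norm_div, Complex.norm_natCast]
    exact div_le_div_of_nonneg_right (hc _) (Nat.cast_nonneg _)

theorem prod_inv {k : ℕ} (w : Fin (k + 1) → ℕ) :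
    ∏ i, (1 / (w i : ℝ)) = 1 / ((∏ i, w i : ℕ) : ℝ) := by
  push_cast
  rw [prod_div_distrib, prod_const_one]

theorem bj_zero (c : ℕ → ℂ) (z y k j n p : ℕ) (hp : p.Prime) (hpz : p ≤ z) (hpn : p ∣ n) :
    bj c z y k j n = 0 := by
  classical
  unfold bj
  apply sum_eq_zero
  intro w hw
  exfalso
  rw [mem_filter, mem_Wj] at hw
  obtain ⟨⟨h1, -, -⟩, h2⟩ := hw
  rw [← h2] at hpn
  obtain ⟨i, -, hi⟩ := (Prime.dvd_finsetProd_iff hp.prime _).1 hpn
  have h3 := (Nat.prime_dvd_prime_iff_eq hp (h1 i).2.2).1 hi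
  have := (h1 i).1
  omega

theorem bj_out (c : ℕ → ℂ) (z y k j n : ℕ) (hn : n < 2 ^ j) : bj c z y k j n = 0 := by
  classical
  unfold bj
  apply sum_eq_zero
  intro w hw
  exfalso
  rw [mem_filter, mem_Wj] at hw
  omega

theorem bj_le (hR : S_REP) (c : ℕ → ℂ) (hc : ∀ n, ‖c n‖ ≤ 1) (z y k j n : ℕ) :
    ‖bj c z y k j n‖ ≤ ((k + 1 : ℕ) : ℝ) ^ (k + 1) / 2 ^ j := by
  classical
  rcases lt_or_ge n (2 ^ j) with hn | hn
  · rw [bj_out c z y k j n hn, norm_zero]; positivity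
  unfold bj
  refine (norm_sum_le _ _).trans ?_
  have h1 : ∀ w ∈ (Wj z y k j).filter (fun w => ∏ i, w i = n), ‖Fc c w‖ ≤ 1 / (2 : ℝ) ^ j := by
    intro w hw
    rw [mem_filter] at hw
    refine (Fc_norm c hc w).trans ?_
    rw [prod_inv, hw.2]
    apply one_div_le_one_div_of_le (by positivity)
    exact_mod_cast hn
  refine (sum_le_sum h1).trans ?_
  rw [sum_const, nsmul_eq_mul, div_eq_mul_one_div (((k + 1 : ℕ) : ℝ) ^ (k + 1))]
  apply mul_le_mul_of_nonneg_right _ (by positivity)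
  have h2 : ((Wj z y k j).filter (fun w => ∏ i, w i = n)).card ≤ (k + 1) ^ (k + 1) := by
    refine (card_le_card ?_).trans (hR z y (k + 1) n)
    intro w hw
    rw [mem_filter] at hw ⊢
    refine ⟨?_, hw.2⟩
    unfold Wj at hw
    rw [mem_filter] at hw
    exact hw.1.1
  exact_mod_cast h2

theorem bj_l1 (c : ℕ → ℂ) (hc : ∀ n, ‖c n‖ ≤ 1) (z y k j : ℕ) :
    ∑ n ∈ Icc 1 (2 ^ (j + 1)), ‖bj c z y k j n‖ ≤ ∑ w ∈ Wj z y k j, ∏ i, (1 / (w i : ℝ)) := by
  classical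
  have hmaps : ∀ w ∈ Wj z y k j, ∏ i, w i ∈ Icc 1 (2 ^ (j + 1)) := by
    intro w hw
    rw [mem_Wj] at hw
    rw [mem_Icc]
    have : 0 < 2 ^ j := by positivity
    omega
  rw [← sum_fiberwise_of_maps_to hmaps]
  apply sum_le_sum
  intro n _
  unfold bj
  refine (norm_sum_le _ _).trans (sum_le_sum fun w _ => Fc_norm c hc w)

theorem block_id (c : ℕ → ℂ) (z y k j f : ℕ) (χ : DirichletCharacter ℂ f) :
    ∑ n ∈ Icc 1 (2 ^ (j + 1)), bj c z y k j n * χ (n : ZMod f) =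
      ∑ w ∈ Wj z y k j, ∏ i, (c (w i) * χ (w i : ZMod f) / (w i : ℂ)) := by
  classical
  have hmaps : ∀ w ∈ Wj z y k j, ∏ i, w i ∈ Icc 1 (2 ^ (j + 1)) := by
    intro w hw
    rw [mem_Wj] at hw
    rw [mem_Icc]
    have : 0 < 2 ^ j := by positivity
    omega
  rw [← sum_fiberwise_of_maps_to hmaps]
  apply sum_congr rfl
  intro n _
  unfold bj
  rw [sum_mul]
  apply sum_congr rfl
  intro w hw
  rw [mem_filter] at hw
  have h1 : χ (n : ZMod f) = ∏ i, χ (w i : ZMod f) := by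
    rw [← hw.2]
    push_cast
    rw [map_prod]
  rw [h1]
  unfold Fc
  rw [← prod_mul_distrib]
  exact prod_congr rfl fun i _ => by ring

theorem pow_id (c : ℕ → ℂ) (z y k f : ℕ) (hy : 1 ≤ y) (χ : DirichletCharacter ℂ f) :
    (∑ p ∈ PR z y, c p * χ (p : ZMod f) / p) ^ (k + 1) =
      ∑ j ∈ range (Nat.log 2 (y ^ (k + 1)) + 1),
        ∑ n ∈ Icc 1 (2 ^ (j + 1)), bj c z y k j n * χ (n : ZMod f) := by
  classical
  simp_rw [block_id]
  have h1 : (∑ p ∈ PR z y, c p * χ (p : ZMod f) / p) ^ (k + 1) =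
      ∑ w ∈ Fintype.piFinset (fun _ : Fin (k + 1) => PR z y),
        ∏ i, (c (w i) * χ (w i : ZMod f) / (w i : ℂ)) := by
    have h0 := Finset.prod_univ_sum (fun _ : Fin (k + 1) => PR z y)
      (fun _ p => c p * χ (p : ZMod f) / (p : ℂ))
    rw [← h0, prod_const, card_univ, Fintype.card_fin]
  rw [h1]
  have hmaps : ∀ w ∈ Fintype.piFinset (fun _ : Fin (k + 1) => PR z y),
      Nat.log 2 (∏ i, w i) ∈ range (Nat.log 2 (y ^ (k + 1)) + 1) := by
    intro w hw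
    rw [Fintype.mem_piFinset] at hw
    rw [mem_range, Nat.lt_succ_iff]
    apply Nat.log_mono_right
    calc ∏ i, w i ≤ ∏ _i : Fin (k + 1), y := by
          apply prod_le_prod
          · intro i _; exact Nat.zero_le _
          · intro i _
            have := hw i
            unfold PR at this
            rw [mem_filter, mem_Ioc] at this
            exact this.1.2
      _ = y ^ (k + 1) := by rw [prod_const, card_univ, Fintype.card_fin]
  rw [← sum_fiberwise_of_maps_to hmaps]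
  apply sum_congr rfl
  intro j _
  apply sum_congr _ fun _ _ => rfl
  unfold Wj
  apply filter_congr
  intro w hw
  rw [Fintype.mem_piFinset] at hw
  have hpos : ∏ i, w i ≠ 0 := by
    rw [prod_ne_zero_iff]
    intro i _
    have := hw i
    unfold PR at this
    rw [mem_filter, mem_Ioc] at this
    exact this.2.ne_zero
  rw [Nat.log_eq_iff (Or.inr ⟨by norm_num, hpos⟩)]

theorem block_bound (hL : S_LSR) (hR : S_REP) {C : ℝ} (hC : 0 < C)
    (hT : ∀ z y k j : ℕ, 2 ≤ z → ∑ w ∈ Wj z y k j, ∏ i, (1 / (w i : ℝ)) ≤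
      C * (∑ p ∈ PR z y, 1 / (p : ℝ)) ^ k / Real.log z)
    (z y k Q j : ℕ) (hz : 2 ≤ z) (hQ : (Q * z) ^ 2 ≤ z ^ (k + 1)) (c : ℕ → ℂ)
    (hc : ∀ n, ‖c n‖ ≤ 1) :
    ∑ f ∈ Icc 1 Q, ∑ χ ∈ Pm f,
      ‖∑ n ∈ Icc 1 (2 ^ (j + 1)), bj c z y k j n * χ (n : ZMod f)‖ ^ 2 ≤
      24 * C * ((k + 1 : ℕ) : ℝ) ^ (k + 1) * (∑ p ∈ PR z y, 1 / (p : ℝ)) ^ k / (Real.log z) ^ 2 := by
  classical
  have hz0 : (1 : ℝ) < z := by exact_mod_cast (by omega : 1 < z)
  have hlz : 0 < Real.log z := Real.log_pos hz0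
  set L := ∑ p ∈ PR z y, 1 / (p : ℝ) with hLdef
  have hL0 : 0 ≤ L := sum_nonneg fun _ _ => by positivity
  rcases (Wj z y k j).eq_empty_or_nonempty with he | hne
  · have h0 : ∀ n, bj c z y k j n = 0 := by
      intro n; unfold bj; rw [he]; simp
    simp only [h0, zero_mul, sum_const_zero, norm_zero]
    simp
    positivity
  obtain ⟨w0, hw0⟩ := hne
  rw [mem_Wj] at hw0
  have hlow : (Q * z) ^ 2 ≤ 2 ^ (j + 1) := by
    refine hQ.trans (le_trans ?_ hw0.2.2.le)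
    calc z ^ (k + 1) = ∏ _i : Fin (k + 1), z := by rw [prod_const, card_univ, Fintype.card_fin]
      _ ≤ ∏ i, w0 i := by
          apply prod_le_prod
          · intro i _; exact Nat.zero_le _
          · intro i _; exact (hw0.1 i).1.le
  have hlow' : ((Q : ℝ) * z) ^ 2 ≤ 2 ^ (j + 1) := by exact_mod_cast hlow
  have h1 := hL (2 ^ (j + 1)) Q z (by omega) (bj c z y k j)
    (fun n p hp hpz hpn => bj_zero c z y k j n p hp hpz hpn)
  have h2 : ∑ n ∈ Icc 1 (2 ^ (j + 1)), ‖bj c z y k j n‖ ^ 2 ≤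
      ((k + 1 : ℕ) : ℝ) ^ (k + 1) / 2 ^ j * (C * L ^ k / Real.log z) := by
    calc ∑ n ∈ Icc 1 (2 ^ (j + 1)), ‖bj c z y k j n‖ ^ 2
        ≤ ∑ n ∈ Icc 1 (2 ^ (j + 1)), ((k + 1 : ℕ) : ℝ) ^ (k + 1) / 2 ^ j * ‖bj c z y k j n‖ := by
          apply sum_le_sum
          intro n _
          rw [sq]
          exact mul_le_mul_of_nonneg_right (bj_le hR c hc z y k j n) (norm_nonneg _)
      _ = ((k + 1 : ℕ) : ℝ) ^ (k + 1) / 2 ^ j * ∑ n ∈ Icc 1 (2 ^ (j + 1)), ‖bj c z y k j n‖ := by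
          rw [mul_sum]
      _ ≤ _ := by
          apply mul_le_mul_of_nonneg_left _ (by positivity)
          exact (bj_l1 c hc z y k j).trans (hT z y k j hz)
  rw [le_div_iff₀ (by positivity)]
  set S := ∑ f ∈ Icc 1 Q, ∑ χ ∈ Pm f,
      ‖∑ n ∈ Icc 1 (2 ^ (j + 1)), bj c z y k j n * χ (n : ZMod f)‖ ^ 2 with hS
  have h3 : Real.log z * S ≤ 6 * (2 ^ (j + 1) + 2 ^ (j + 1)) *
      (((k + 1 : ℕ) : ℝ) ^ (k + 1) / 2 ^ j * (C * L ^ k / Real.log z)) := by
    refine h1.trans ?_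
    push_cast
    push_cast at h2
    apply mul_le_mul _ h2 (sum_nonneg fun _ _ => by positivity) (by positivity)
    linarith
  have h4 : (6 * ((2:ℝ) ^ (j + 1) + 2 ^ (j + 1)) *
      (((k + 1 : ℕ) : ℝ) ^ (k + 1) / 2 ^ j * (C * L ^ k / Real.log z))) * Real.log z =
      24 * C * ((k + 1 : ℕ) : ℝ) ^ (k + 1) * L ^ k := by
    field_simp
    ring
  calc S * Real.log z ^ 2 = (Real.log z * S) * Real.log z := by ring
    _ ≤ (6 * ((2:ℝ) ^ (j + 1) + 2 ^ (j + 1)) *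
      (((k + 1 : ℕ) : ℝ) ^ (k + 1) / 2 ^ j * (C * L ^ k / Real.log z))) * Real.log z :=
        mul_le_mul_of_nonneg_right h3 hlz.le
    _ = _ := h4

theorem mom (hL : S_LSR) (hT : S_TUP) (hR : S_REP) : S_MOM := by
  classical
  obtain ⟨C, hC, hC1⟩ := hT
  refine ⟨100 * C, by positivity, fun z y k Q hz hzy hQ c hc => ?_⟩
  have hz0 : (1 : ℝ) < z := by exact_mod_cast (by omega : 1 < z)
  have hlz : 0 < Real.log z := Real.log_pos hz0
  have hly : Real.log z ≤ Real.log y := Real.log_le_log (by linarith) (by exact_mod_cast hzy)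
  set L := ∑ p ∈ PR z y, 1 / (p : ℝ) with hLdef
  have hL0 : 0 ≤ L := sum_nonneg fun _ _ => by positivity
  set J := Nat.log 2 (y ^ (k + 1)) + 1 with hJ
  have hT' : ∀ z y k j : ℕ, 2 ≤ z → ∑ w ∈ Wj z y k j, ∏ i, (1 / (w i : ℝ)) ≤
      C * (∑ p ∈ PR z y, 1 / (p : ℝ)) ^ k / Real.log z := by
    intro z y k j hz
    have := hC1 z y k j hz
    unfold Wj
    exact this
  set B := 24 * C * ((k + 1 : ℕ) : ℝ) ^ (k + 1) * L ^ k / (Real.log z) ^ 2 with hB
  have h1 : ∀ j ∈ range J, ∑ f ∈ Icc 1 Q, ∑ χ ∈ Pm f,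
      ‖∑ n ∈ Icc 1 (2 ^ (j + 1)), bj c z y k j n * χ (n : ZMod f)‖ ^ 2 ≤ B := fun j _ =>
    block_bound hL hR hC hT' z y k Q j hz hQ c hc
  have h2 : ∑ f ∈ Icc 1 Q, ∑ χ ∈ Pm f, ‖∑ p ∈ PR z y, c p * χ (p : ZMod f) / p‖ ^ (2 * (k + 1)) ≤
      J * ∑ j ∈ range J, ∑ f ∈ Icc 1 Q, ∑ χ ∈ Pm f,
      ‖∑ n ∈ Icc 1 (2 ^ (j + 1)), bj c z y k j n * χ (n : ZMod f)‖ ^ 2 := by
    rw [sum_comm, mul_sum]
    apply sum_le_sum
    intro f _
    rw [sum_comm, mul_sum]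
    apply sum_le_sum
    intro χ _
    rw [mul_comm 2, pow_mul, ← norm_pow, pow_id c z y k f (by omega) χ, ← hJ]
    calc ‖∑ j ∈ range J, ∑ n ∈ Icc 1 (2 ^ (j + 1)), bj c z y k j n * χ (n : ZMod f)‖ ^ 2
        ≤ (∑ j ∈ range J, ‖∑ n ∈ Icc 1 (2 ^ (j + 1)), bj c z y k j n * χ (n : ZMod f)‖) ^ 2 :=
          pow_le_pow_left₀ (norm_nonneg _) (norm_sum_le _ _) 2
      _ ≤ _ := by
          have := sq_sum_le_card_mul_sum_sq (s := range J)
            (f := fun j => ‖∑ n ∈ Icc 1 (2 ^ (j + 1)), bj c z y k j n * χ (n : ZMod f)‖)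
          rw [card_range] at this
          exact this
  have h3 : (J : ℝ) ≤ 2 * ((k + 1 : ℕ) : ℝ) * (Real.log z * (1 + Real.log y / Real.log z)) := by
    have hy0 : 0 < y ^ (k + 1) := by have : 0 < y := by omega
                                     positivity
    have h4 : 2 ^ (J - 1) ≤ y ^ (k + 1) := by
      rw [hJ, Nat.add_sub_cancel]
      exact Nat.pow_log_le_self 2 hy0.ne'
    have h5 : ((2 : ℝ)) ^ (J - 1) ≤ (y : ℝ) ^ (k + 1) := by exact_mod_cast h4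
    have h6 := Real.log_le_log (by positivity) h5
    rw [Real.log_pow, Real.log_pow] at h6
    have hJ1 : ((J - 1 : ℕ) : ℝ) = (J : ℝ) - 1 := by
      rw [Nat.cast_sub (by omega)]; simp
    rw [hJ1] at h6
    have hl2 : (0.69 : ℝ) < Real.log 2 := by have := Real.log_two_gt_d9; linarith
    have hz2 : Real.log 2 ≤ Real.log z := Real.log_le_log (by norm_num) (by exact_mod_cast hz)
    have hk1 : (1 : ℝ) ≤ ((k + 1 : ℕ) : ℝ) := by exact_mod_cast (by omega : 1 ≤ k + 1)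
    have h7 : Real.log z * (1 + Real.log y / Real.log z) = Real.log z + Real.log y := by
      field_simp
    rw [h7]
    have h8 : ((J : ℝ) - 1) * 0.69 ≤ ((k + 1 : ℕ) : ℝ) * Real.log y := by
      have hJ0 : (0 : ℝ) ≤ (J : ℝ) - 1 := by
        have : 1 ≤ J := by omega
        have : (1 : ℝ) ≤ J := by exact_mod_cast this
        linarith
      refine le_trans ?_ h6
      exact mul_le_mul_of_nonneg_left hl2.le hJ0
    have h9 : (0.69 : ℝ) ≤ ((k + 1 : ℕ) : ℝ) * Real.log z := by nlinarith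
    have h10 : (0 : ℝ) ≤ ((k + 1 : ℕ) : ℝ) * Real.log y := by
      have : 0 ≤ Real.log y := by linarith
      positivity
    nlinarith
  have hJ0 : (0 : ℝ) ≤ J := Nat.cast_nonneg _
  have hB0 : 0 ≤ B := by positivity
  calc _ ≤ (J : ℝ) * ∑ j ∈ range J, ∑ f ∈ Icc 1 Q, ∑ χ ∈ Pm f,
      ‖∑ n ∈ Icc 1 (2 ^ (j + 1)), bj c z y k j n * χ (n : ZMod f)‖ ^ 2 := h2
    _ ≤ (J : ℝ) * ∑ _j ∈ range J, B := mul_le_mul_of_nonneg_left (sum_le_sum h1) hJ0
    _ = (J : ℝ) ^ 2 * B := by rw [sum_const, card_range, nsmul_eq_mul]; ring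
    _ ≤ (2 * ((k + 1 : ℕ) : ℝ) * (Real.log z * (1 + Real.log y / Real.log z))) ^ 2 * B :=
        mul_le_mul_of_nonneg_right (pow_le_pow_left₀ hJ0 h3 2) hB0
    _ = 96 * C * ((k + 1 : ℕ) : ℝ) ^ (k + 3) * L ^ k * (1 + Real.log y / Real.log z) ^ 2 := by
        rw [hB, show k + 3 = (k + 1) + 2 by ring, pow_add _ (k + 1) 2]
        have hne : Real.log z ≠ 0 := hlz.ne'
        have e : (2 * ((k + 1 : ℕ) : ℝ) * (Real.log z * (1 + Real.log y / Real.log z))) ^ 2 *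
            (24 * C * ((k + 1 : ℕ) : ℝ) ^ (k + 1) * L ^ k / (Real.log z) ^ 2) =
            4 * ((k + 1 : ℕ) : ℝ) ^ 2 * (1 + Real.log y / Real.log z) ^ 2 *
              (24 * C * ((k + 1 : ℕ) : ℝ) ^ (k + 1) * L ^ k) *
              ((Real.log z) ^ 2 / (Real.log z) ^ 2) := by ring
        rw [e, div_self (by positivity)]
        ring
    _ ≤ _ := by
        apply mul_le_mul_of_nonneg_right _ (by positivity)
        apply mul_le_mul_of_nonneg_right _ (by positivity)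
        apply mul_le_mul_of_nonneg_right _ (by positivity)
        linarith

end Pool.Agent.H482.WT
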