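import Mathlib
import Pool.Agent.H482.WT.Mom
import Pool.Graph.R_seed8.Helper923.HMertens

/-! Only a bounded number of characters have a large prime sum. -/

set_option autoImplicit false

namespace Pool.Agent.H482.WT

open Finset

/-- the range of the parameters -/
theorem scale (θ : ℝ) (hθ : 0 < θ) : ∃ x0 : ℕ, ∀ x : ℕ, x0 ≤ x →
    2 ≤ ⌊(x : ℝ) ^ θ⌋₊ ∧ (x : ℝ) ^ (θ / 2) ≤ ⌊(x : ℝ) ^ θ⌋₊ ∧ 2 ≤ x := by
  refine ⟨⌈(2 : ℝ) ^ (2 / θ)⌉₊ + 2, fun x hx => ?_⟩
  have h1 : (2 : ℝ) ^ (2 / θ) ≤ x := by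
    refine (Nat.le_ceil _).trans ?_
    exact_mod_cast (by omega : ⌈(2 : ℝ) ^ (2 / θ)⌉₊ ≤ x)
  have h2 : (2 : ℝ) ≤ (x : ℝ) ^ (θ / 2) := by
    have h3 := Real.rpow_le_rpow (by positivity) h1 (by positivity : 0 ≤ θ / 2)
    rw [← Real.rpow_mul (by norm_num), show 2 / θ * (θ / 2) = 1 by field_simp, Real.rpow_one] at h3
    exact h3
  have h4 : (x : ℝ) ^ θ = (x : ℝ) ^ (θ / 2) * (x : ℝ) ^ (θ / 2) := by
    rw [← Real.rpow_add (by exact_mod_cast (by omega : 0 < x))]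
    congr 1
    ring
  have h5 := Nat.lt_floor_add_one ((x : ℝ) ^ θ)
  refine ⟨?_, ?_, by omega⟩
  · rw [Nat.le_floor_iff (by positivity)]
    push_cast
    nlinarith
  · nlinarith

theorem card_bound (x0 : ℕ) : ∃ C : ℕ, ∀ x : ℕ, x < x0 →
    ∀ E : Finset (Σ f : ℕ, DirichletCharacter ℂ f), (∀ e ∈ E, 1 ≤ e.1 ∧ e.1 ≤ x) → E.card ≤ C := by
  classical
  refine ⟨((Icc 1 x0).sigma (fun f => (univ : Finset (DirichletCharacter ℂ f)))).card,
    fun x hx E hE => card_le_card fun e he => ?_⟩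
  rw [mem_sigma, mem_Icc]
  obtain ⟨h1, h2⟩ := hE e he
  exact ⟨⟨h1, by omega⟩, mem_univ _⟩

theorem few (hM : S_MOM) : S_FEW := by
  classical
  intro θ δ η hθ hη
  obtain ⟨C, hC, hC1⟩ := hM
  obtain ⟨C1, hC10, hC1'⟩ := Pool.Agent.Helper923.HMertens.mertens_ratio
  obtain ⟨x0, hx0⟩ := scale θ hθ
  obtain ⟨C2, hC2⟩ := card_bound x0
  set m := ⌈2 / θ⌉₊ with hm
  set k := 2 * m + 1 with hk
  set D := |2 * δ / θ| with hD
  set B := C * ((k + 1 : ℕ) : ℝ) ^ (k + 3) * (D + C1 / Real.log 2) ^ k * (1 + D) ^ 2 with hB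
  refine ⟨max C2 ⌈B / η ^ (2 * (k + 1))⌉₊, fun x _ c hc E hE => ?_⟩
  rcases lt_or_ge x x0 with hxx | hxx
  · exact (hC2 x hxx E fun e he => ⟨(hE e he).1, (hE e he).2.1⟩).trans (le_max_left _ _)
  refine le_trans ?_ (le_max_right _ _)
  obtain ⟨hz2, hzx, hx2⟩ := hx0 x hxx
  set z := ⌊(x : ℝ) ^ θ⌋₊ with hz
  set y := ⌊(x : ℝ) ^ δ⌋₊ with hy
  rcases lt_or_ge y z with hyz | hyz
  · have hE0 : E = ∅ := by
      rw [eq_empty_iff_forall_notMem]
      intro e he
      have h1 := (hE e he).2.2.2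
      have h2 : PR z y = ∅ := by
        unfold PR
        rw [Ioc_eq_empty (by omega), filter_empty]
      rw [h2, sum_empty, norm_zero] at h1
      linarith
    rw [hE0, card_empty]
    exact Nat.zero_le _
  have hx1 : (1 : ℝ) < x := by exact_mod_cast (by omega : 1 < x)
  have hlx : 0 < Real.log x := Real.log_pos hx1
  have hz0 : (1 : ℝ) < z := by exact_mod_cast (by omega : 1 < z)
  have hlz : 0 < Real.log z := Real.log_pos hz0
  have hlz2 : Real.log 2 ≤ Real.log z := Real.log_le_log (by norm_num) (by exact_mod_cast hz2)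
  have hl2 : 0 < Real.log 2 := Real.log_pos (by norm_num)
  have hlzx : θ / 2 * Real.log x ≤ Real.log z := by
    have h1 := Real.log_le_log (by positivity) hzx
    rwa [Real.log_rpow (by linarith)] at h1
  have hly : Real.log y ≤ δ * Real.log x := by
    have hy0 : (0 : ℝ) < y := by exact_mod_cast (by omega : 0 < y)
    have h1 : (y : ℝ) ≤ (x : ℝ) ^ δ := Nat.floor_le (by positivity)
    have h2 := Real.log_le_log hy0 h1
    rwa [Real.log_rpow (by linarith)] at h2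
  have hlyz : Real.log z ≤ Real.log y := Real.log_le_log (by linarith) (by exact_mod_cast hyz)
  have hratio : Real.log y / Real.log z ≤ D := by
    have hδ : 0 < δ := by
      by_contra hcon
      push Not at hcon
      have : δ * Real.log x ≤ 0 := mul_nonpos_of_nonpos_of_nonneg hcon hlx.le
      linarith
    rw [hD, abs_of_pos (by positivity), div_le_iff₀ hlz]
    calc Real.log y ≤ δ * Real.log x := hly
      _ = 2 * δ / θ * (θ / 2 * Real.log x) := by field_simp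
      _ ≤ 2 * δ / θ * Real.log z := mul_le_mul_of_nonneg_left hlzx (by positivity)
  have hratio1 : 1 ≤ Real.log y / Real.log z := by
    rw [le_div_iff₀ hlz]; linarith
  set L := ∑ p ∈ PR z y, 1 / (p : ℝ) with hL
  have hL0 : 0 ≤ L := sum_nonneg fun _ _ => by positivity
  have hLle : L ≤ D + C1 / Real.log 2 := by
    have h1 := hC1' z y hz2 hyz
    have h2 := (abs_le.1 h1).2
    have h3 : ∑ p ∈ (Ioc z y).filter Nat.Prime, (1 : ℝ) / p = L := by rw [hL]; rfl
    rw [h3] at h2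
    have h4 : Real.log (Real.log y / Real.log z) ≤ D :=
      ((Real.log_le_sub_one_of_pos (by linarith)).trans (by linarith)).trans hratio
    have h5 : C1 / Real.log z ≤ C1 / Real.log 2 := div_le_div_of_nonneg_left hC10 hl2 hlz2
    linarith
  have hxz : x ≤ z ^ m := by
    have h1 : ((x : ℝ)) ≤ (z : ℝ) ^ (m : ℝ) := by
      calc (x : ℝ) = ((x : ℝ) ^ (θ / 2)) ^ (2 / θ) := by
            rw [← Real.rpow_mul (by linarith), show θ / 2 * (2 / θ) = 1 by field_simp, Real.rpow_one]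
        _ ≤ (z : ℝ) ^ (2 / θ) := Real.rpow_le_rpow (by positivity) hzx (by positivity)
        _ ≤ (z : ℝ) ^ (m : ℝ) := Real.rpow_le_rpow_of_exponent_le hz0.le (Nat.le_ceil _)
    rw [Real.rpow_natCast] at h1
    exact_mod_cast h1
  have hQ : (x * z) ^ 2 ≤ z ^ (k + 1) := by
    calc (x * z) ^ 2 ≤ (z ^ m * z) ^ 2 := Nat.pow_le_pow_left (Nat.mul_le_mul_right z hxz) 2
      _ = z ^ (k + 1) := by rw [hk]; ring
  have h1 := hC1 z y k x hz2 hyz hQ c hc
  have h2 : (E.card : ℝ) * η ^ (2 * (k + 1)) ≤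
      ∑ f ∈ Icc 1 x, ∑ χ ∈ Pm f, ‖∑ p ∈ PR z y, c p * χ (p : ZMod f) / p‖ ^ (2 * (k + 1)) := by
    rw [← sum_sigma (Icc 1 x) (fun f => Pm f)
      (fun e => ‖∑ p ∈ PR z y, c p * e.2 (p : ZMod e.1) / p‖ ^ (2 * (k + 1)))]
    calc (E.card : ℝ) * η ^ (2 * (k + 1)) = ∑ _e ∈ E, η ^ (2 * (k + 1)) := by
          rw [sum_const, nsmul_eq_mul]
      _ ≤ ∑ e ∈ E, ‖∑ p ∈ PR z y, c p * e.2 (p : ZMod e.1) / p‖ ^ (2 * (k + 1)) := by
          apply sum_le_sum
          intro e he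
          exact pow_le_pow_left₀ hη.le (hE e he).2.2.2 _
      _ ≤ _ := by
          apply sum_le_sum_of_subset_of_nonneg
          · intro e he
            obtain ⟨a1, a2, a3, -⟩ := hE e he
            rw [mem_sigma, mem_Icc, mem_Pm]
            exact ⟨⟨a1, a2⟩, a3⟩
          · intro _ _ _; positivity
  have h3 : (E.card : ℝ) * η ^ (2 * (k + 1)) ≤ B := by
    refine h2.trans (h1.trans ?_)
    rw [hB]
    have hD0 : 0 ≤ D := abs_nonneg _
    have hk0 : (0 : ℝ) ≤ ((k + 1 : ℕ) : ℝ) := Nat.cast_nonneg _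
    apply mul_le_mul _ _ (by positivity) (by positivity)
    · apply mul_le_mul_of_nonneg_left _ (by positivity)
      exact pow_le_pow_left₀ hL0 hLle k
    · exact pow_le_pow_left₀ (by positivity) (by linarith) 2
  have h4 : (E.card : ℝ) ≤ B / η ^ (2 * (k + 1)) := by
    rw [le_div_iff₀ (by positivity)]
    exact h3
  exact_mod_cast h4.trans (Nat.le_ceil _)

end Pool.Agent.H482.WT
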