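import Mathlib
import Pool.Agent.H482.WT.Few
import Pool.Agent.H482.WT.Fam

/-! Prescribed sets of primes are equidistributed in the classes `b ^ m = c` modulo all integers
`n ≤ x` without an exceptional prime factor. -/

set_option autoImplicit false

namespace Pool.Agent.H482.WT

open Finset

open Pool.Agent.H379R2.W (Passes v2 not_dvd_of_passes)

/-- the weight of a set of primes -/
noncomputable def wt (P : Finset ℕ) : ℝ := ∑ b ∈ P, 1 / (b : ℝ)

theorem wt_nonneg (P : Finset ℕ) : 0 ≤ wt P := sum_nonneg fun _ _ => by positivity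

theorem wt_mono {P Q : Finset ℕ} (h : P ⊆ Q) : wt P ≤ wt Q :=
  sum_le_sum_of_subset_of_nonneg h fun _ _ _ => by positivity

/-- the bad characters are a bounded set -/
theorem few_bad (hF : S_FEW) (θ δ η : ℝ) (hθ : 0 < θ) (hη : 0 < η) : ∃ C : ℕ, ∀ x : ℕ, 2 ≤ x →
    ∀ P : Finset ℕ, P ⊆ PR ⌊(x : ℝ) ^ θ⌋₊ ⌊(x : ℝ) ^ δ⌋₊ →
    ∃ E : Finset (Σ f : ℕ, DirichletCharacter ℂ f), E.card ≤ C ∧
      ∀ (f : ℕ) (χ : DirichletCharacter ℂ f), 1 ≤ f → f ≤ x → χ.IsPrimitive →
        (⟨f, χ⟩ : Σ f : ℕ, DirichletCharacter ℂ f) ∉ E →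
          ‖∑ b ∈ P, χ (b : ZMod f) / b‖ ≤ η := by
  classical
  obtain ⟨C, hC⟩ := hF θ δ η hθ hη
  refine ⟨C, fun x hx P hP => ?_⟩
  set c : ℕ → ℂ := fun b => if b ∈ P then 1 else 0 with hc
  have hc1 : ∀ n, ‖c n‖ ≤ 1 := by
    intro n
    simp only [hc]
    split_ifs <;> simp
  have hsum : ∀ (f : ℕ) (χ : DirichletCharacter ℂ f),
      ∑ p ∈ PR ⌊(x : ℝ) ^ θ⌋₊ ⌊(x : ℝ) ^ δ⌋₊, c p * χ (p : ZMod f) / p =
        ∑ b ∈ P, χ (b : ZMod f) / b := by
    intro f χ
    rw [← sum_subset hP]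
    · apply sum_congr rfl
      intro b hb
      simp only [hc]
      rw [if_pos hb, one_mul]
    · intro b _ hb
      simp only [hc]
      rw [if_neg hb, zero_mul, zero_div]
  refine ⟨((Icc 1 x).sigma (fun f => Pm f)).filter
    (fun e => η ≤ ‖∑ b ∈ P, e.2 (b : ZMod e.1) / b‖), ?_, ?_⟩
  · apply hC x hx c hc1
    intro e he
    rw [mem_filter, mem_sigma, mem_Icc, mem_Pm] at he
    refine ⟨he.1.1.1, he.1.1.2, he.1.2, ?_⟩
    rw [hsum]
    exact he.2
  · intro f χ hf hfx hχ hn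
    by_contra hcon
    push Not at hcon
    apply hn
    rw [mem_filter, mem_sigma, mem_Icc, mem_Pm]
    exact ⟨⟨⟨hf, hfx⟩, hχ⟩, hcon.le⟩

/-- the elements of `P` dividing `n` -/
noncomputable def dv (P : Finset ℕ) (n : ℕ) : ℝ := wt (P.filter (fun b => b ∣ n))

theorem dv_nonneg (P : Finset ℕ) (n : ℕ) : 0 ≤ dv P n := wt_nonneg _

theorem sum_prim {n : ℕ} [NeZero n] (χ : DirichletCharacter ℂ n) (P : Finset ℕ)
    (hP : ∀ b ∈ P, b.Prime) :
    ‖∑ b ∈ P, χ (b : ZMod n) / b‖ ≤
      ‖∑ b ∈ P, χ.primitiveCharacter (b : ZMod χ.conductor) / b‖ + dv P n := by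
  have h1 : ‖∑ b ∈ P, χ (b : ZMod n) / b - ∑ b ∈ P, χ.primitiveCharacter (b : ZMod χ.conductor) / b‖ ≤
      dv P n := by
    rw [← sum_sub_distrib]
    unfold dv wt
    rw [sum_filter]
    refine (norm_sum_le _ _).trans (sum_le_sum fun b hb => ?_)
    by_cases hbn : b ∣ n
    · rw [if_pos hbn]
      have h2 : χ (b : ZMod n) = 0 := by
        apply χ.map_nonunit
        rw [ZMod.isUnit_iff_coprime]
        intro h
        have := Nat.Coprime.eq_one_of_dvd h hbn
        exact (hP b hb).one_lt.ne' this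
      rw [h2, zero_div, zero_sub, norm_neg, norm_div, Complex.norm_natCast]
      exact div_le_div_of_nonneg_right (DirichletCharacter.norm_le_one _ _) (Nat.cast_nonneg _)
    · rw [if_neg hbn]
      have h2 : Nat.Coprime b n := (hP b hb).coprime_iff_not_dvd.2 hbn
      have h3 := DirichletCharacter.primitiveCharacter_apply_of_isCoprime χ (a := (b : ℤ))
        (by exact_mod_cast h2.isCoprime)
      have h4 : χ.primitiveCharacter (b : ZMod χ.conductor) = χ (b : ZMod n) := by simpa using h3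
      rw [h4, sub_self, norm_zero]
  calc ‖∑ b ∈ P, χ (b : ZMod n) / b‖ = ‖(∑ b ∈ P, χ.primitiveCharacter (b : ZMod χ.conductor) / b) +
        (∑ b ∈ P, χ (b : ZMod n) / b - ∑ b ∈ P, χ.primitiveCharacter (b : ZMod χ.conductor) / b)‖ := by
        congr 1; ring
    _ ≤ _ := (norm_add_le _ _).trans (by linarith)

/-- the prime factors of `n` in `P` have a small weight -/
theorem dv_small (θ : ℝ) (hθ : 0 < θ) (x y : ℕ) (hx : 2 ≤ x) (P : Finset ℕ)
    (hP : P ⊆ PR ⌊(x : ℝ) ^ θ⌋₊ y) (n : ℕ) (hn : 1 ≤ n) (hnx : n ≤ x) :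
    dv P n ≤ 1 / θ * (x : ℝ) ^ (-θ) := by
  set T := P.filter (fun b => b ∣ n) with hT
  have hx1 : (1 : ℝ) < x := by exact_mod_cast (by omega : 1 < x)
  have hmem : ∀ b ∈ T, b.Prime ∧ (x : ℝ) ^ θ < b ∧ b ∣ n := by
    intro b hb
    rw [hT, mem_filter] at hb
    have h1 := hP hb.1
    unfold PR at h1
    rw [mem_filter, mem_Ioc] at h1
    exact ⟨h1.2, (Nat.floor_lt (by positivity)).1 h1.1.1, hb.2⟩
  have hdvd : ∏ b ∈ T, b ∣ n := by
    apply Finset.prod_primes_dvd
    · intro b hb; exact (hmem b hb).1.prime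
    · intro b hb; exact (hmem b hb).2.2
  have h1 : ((x : ℝ) ^ θ) ^ T.card ≤ x := by
    calc ((x : ℝ) ^ θ) ^ T.card = ∏ _b ∈ T, (x : ℝ) ^ θ := by rw [prod_const]
      _ ≤ ∏ b ∈ T, (b : ℝ) := prod_le_prod (fun _ _ => by positivity) fun b hb => (hmem b hb).2.1.le
      _ = ((∏ b ∈ T, b : ℕ) : ℝ) := by push_cast; rfl
      _ ≤ n := by exact_mod_cast Nat.le_of_dvd (by omega) hdvd
      _ ≤ x := by exact_mod_cast hnx
  have h2 : (T.card : ℝ) ≤ 1 / θ := by
    have h3 := Real.log_le_log (by positivity) h1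
    rw [Real.log_pow, Real.log_rpow (by linarith)] at h3
    have hlx : 0 < Real.log x := Real.log_pos hx1
    rw [le_div_iff₀ hθ]
    have h4 : ((T.card : ℝ) * θ) * Real.log x ≤ 1 * Real.log x := by linarith
    exact le_of_mul_le_mul_right h4 hlx
  unfold dv wt
  rw [← hT]
  calc ∑ b ∈ T, 1 / (b : ℝ) ≤ ∑ _b ∈ T, (x : ℝ) ^ (-θ) := by
        apply sum_le_sum
        intro b hb
        rw [Real.rpow_neg (by linarith), ← one_div]
        exact one_div_le_one_div_of_le (by positivity) (hmem b hb).2.1.le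
    _ = T.card * (x : ℝ) ^ (-θ) := by rw [sum_const, nsmul_eq_mul]
    _ ≤ _ := mul_le_mul_of_nonneg_right h2 (by positivity)

/-- all nonprincipal characters modulo `n` have small sums over `P` -/
def Good (P : Finset ℕ) (n : ℕ) (ε : ℝ) : Prop :=
  ∀ χ : DirichletCharacter ℂ n, χ ≠ 1 → ‖∑ b ∈ P, χ (b : ZMod n) / b‖ ≤ ε

open Classical in
/-- the weight of the solutions of `b ^ m = c` in `P` -/
noncomputable def sol (P : Finset ℕ) (n m : ℕ) (c : ZMod n) : ℝ :=
  wt (P.filter (fun b => (b : ZMod n) ^ m = c))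

open Classical in
/-- the number of solutions of `b ^ m = c` modulo `n` -/
noncomputable def cnt (n m : ℕ) (c : ZMod n) : ℕ :=
  ((range n).filter (fun b : ℕ => (b : ZMod n) ^ m = c)).card

theorem sum_range_zmod {n : ℕ} [NeZero n] (f : ZMod n → ℂ) :
    ∑ b ∈ range n, f (b : ZMod n) = ∑ a : ZMod n, f a := by
  apply sum_bij' (fun (b : ℕ) _ => (b : ZMod n)) (fun (a : ZMod n) _ => a.val)
  · intro b _; exact mem_univ _
  · intro a _; exact mem_range.2 (ZMod.val_lt a)
  · intro b hb; exact ZMod.val_cast_of_lt (mem_range.1 hb)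
  · intro a _; exact ZMod.natCast_zmod_val a
  · intro b _; rfl

theorem equi {n : ℕ} [NeZero n] (P : Finset ℕ) (hP : ∀ b ∈ P, b.Prime) (ε : ℝ) (hε : 0 ≤ ε)
    (hG : Good P n ε) (m : ℕ) (hm : 1 ≤ m) (c : ZMod n) (hc : IsUnit c) :
    |sol P n m c - (cnt n m c : ℝ) / (Nat.totient n : ℝ) * wt P| ≤ ε + dv P n := by
  classical
  have hφ : (0 : ℝ) < Nat.totient n := by
    have := Nat.totient_pos.mpr (NeZero.pos n)
    exact_mod_cast this
  have hφC : ((Nat.totient n : ℕ) : ℂ) ≠ 0 := by exact_mod_cast hφ.ne'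
  -- indicator
  have hind : ∀ b : ZMod n, (if b ^ m = c then (1 : ℂ) else 0) =
      (1 / (Nat.totient n : ℂ)) * ∑ χ : DirichletCharacter ℂ n, χ c⁻¹ * (χ ^ m) b := by
    intro b
    have h1 := DirichletCharacter.sum_char_inv_mul_char_eq ℂ hc (b ^ m)
    have h2 : ∀ χ : DirichletCharacter ℂ n, (χ ^ m) b = χ (b ^ m) := by
      intro χ
      rw [MulChar.pow_apply' χ (by omega), map_pow]
    simp_rw [h2]
    rw [h1]
    by_cases h3 : b ^ m = c
    · rw [if_pos h3, if_pos h3.symm]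
      field_simp
    · rw [if_neg h3, if_neg (Ne.symm h3), mul_zero]
  -- the two sides
  have h1 : ((sol P n m c : ℝ) : ℂ) = (1 / (Nat.totient n : ℂ)) *
      ∑ χ : DirichletCharacter ℂ n, χ c⁻¹ * ∑ b ∈ P, (χ ^ m) (b : ZMod n) / b := by
    unfold sol wt
    rw [sum_filter]
    push_cast
    have h2 : ∀ b ∈ P, (((if (b : ZMod n) ^ m = c then 1 / (b : ℝ) else 0 : ℝ)) : ℂ) =
        (1 / (Nat.totient n : ℂ)) * ∑ χ : DirichletCharacter ℂ n, χ c⁻¹ * ((χ ^ m) (b : ZMod n) / b) := by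
      intro b _
      have h3 := hind (b : ZMod n)
      have h4 : (((if (b : ZMod n) ^ m = c then 1 / (b : ℝ) else 0 : ℝ)) : ℂ) =
          (if (b : ZMod n) ^ m = c then (1 : ℂ) else 0) / b := by
        split_ifs <;> simp
      rw [h4, h3, mul_div_assoc, sum_div]
      congr 1
      exact sum_congr rfl fun χ _ => by rw [mul_div_assoc]
    have h5 : ∑ b ∈ P, (((if (b : ZMod n) ^ m = c then 1 / (b : ℝ) else 0 : ℝ)) : ℂ) =
        (1 / (Nat.totient n : ℂ)) *
      ∑ χ : DirichletCharacter ℂ n, χ c⁻¹ * ∑ b ∈ P, (χ ^ m) (b : ZMod n) / b := by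
      rw [sum_congr rfl h2, ← mul_sum, sum_comm]
      congr 1
      exact sum_congr rfl fun χ _ => by rw [mul_sum]
    rw [← h5]
  have h2 : ((cnt n m c : ℕ) : ℂ) =
      ∑ χ : DirichletCharacter ℂ n, χ c⁻¹ * (if χ ^ m = 1 then 1 else 0) := by
    have h3 : ((cnt n m c : ℕ) : ℂ) = ∑ a : ZMod n, (if a ^ m = c then (1 : ℂ) else 0) := by
      rw [← sum_range_zmod (fun a => if a ^ m = c then (1 : ℂ) else 0)]
      unfold cnt
      rw [sum_ite, sum_const, sum_const_zero, add_zero, nsmul_eq_mul, mul_one]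
    rw [h3]
    simp_rw [hind]
    rw [← mul_sum, sum_comm]
    simp_rw [← mul_sum]
    have h4 : ∀ χ : DirichletCharacter ℂ n, ∑ a : ZMod n, (χ ^ m) a =
        (if χ ^ m = 1 then (1 : ℂ) else 0) * Nat.totient n := by
      intro χ
      split_ifs with h5
      · rw [h5, MulChar.sum_one_eq_card_units, ZMod.card_units_eq_totient, one_mul]
      · rw [MulChar.sum_eq_zero_of_ne_one h5, zero_mul]
    simp_rw [h4]
    rw [mul_sum]
    apply sum_congr rfl
    intro χ _
    field_simp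
  have h3 : ((sol P n m c - (cnt n m c : ℝ) / (Nat.totient n : ℝ) * wt P : ℝ) : ℂ) =
      (1 / (Nat.totient n : ℂ)) * ∑ χ : DirichletCharacter ℂ n, χ c⁻¹ *
        (∑ b ∈ P, (χ ^ m) (b : ZMod n) / b - (if χ ^ m = 1 then 1 else 0) * (wt P : ℂ)) := by
    push_cast
    rw [h1, h2]
    simp_rw [mul_sub]
    rw [sum_sub_distrib, mul_sub]
    congr 1
    rw [mul_comm_div, sum_mul, mul_sum]
    apply sum_congr rfl
    intro χ _
    ring
  have h4 : ∀ χ : DirichletCharacter ℂ n,
      ‖∑ b ∈ P, (χ ^ m) (b : ZMod n) / b - (if χ ^ m = 1 then 1 else 0) * (wt P : ℂ)‖ ≤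
        ε + dv P n := by
    intro χ
    have hdv := dv_nonneg P n
    by_cases h5 : χ ^ m = 1
    · rw [if_pos h5, one_mul, h5]
      unfold wt
      push_cast
      rw [← sum_sub_distrib]
      refine (norm_sum_le _ _).trans ?_
      have h6 : ∑ b ∈ P, ‖(1 : DirichletCharacter ℂ n) (b : ZMod n) / b - 1 / (b : ℂ)‖ ≤ dv P n := by
        unfold dv wt
        rw [sum_filter]
        apply sum_le_sum
        intro b hb
        by_cases hbn : b ∣ n
        · rw [if_pos hbn]
          have h2 : (1 : DirichletCharacter ℂ n) (b : ZMod n) = 0 := by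
            apply MulChar.map_nonunit
            rw [ZMod.isUnit_iff_coprime]
            intro h
            have := Nat.Coprime.eq_one_of_dvd h hbn
            exact (hP b hb).one_lt.ne' this
          rw [h2, zero_div, zero_sub, norm_neg, norm_div, norm_one, Complex.norm_natCast]
        · rw [if_neg hbn]
          have h2 : IsUnit (b : ZMod n) := by
            rw [ZMod.isUnit_iff_coprime]
            exact (hP b hb).coprime_iff_not_dvd.2 hbn
          rw [MulChar.one_apply h2, sub_self, norm_zero]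
      linarith
    · rw [if_neg h5, zero_mul, sub_zero]
      have := hG (χ ^ m) h5
      linarith
  have h5 : ‖((sol P n m c - (cnt n m c : ℝ) / (Nat.totient n : ℝ) * wt P : ℝ) : ℂ)‖ ≤ ε + dv P n := by
    rw [h3, norm_mul, norm_div, norm_one, Complex.norm_natCast]
    have h6 : ‖∑ χ : DirichletCharacter ℂ n, χ c⁻¹ *
        (∑ b ∈ P, (χ ^ m) (b : ZMod n) / b - (if χ ^ m = 1 then 1 else 0) * (wt P : ℂ))‖ ≤
        Nat.totient n * (ε + dv P n) := by
      refine (norm_sum_le _ _).trans ?_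
      calc ∑ χ : DirichletCharacter ℂ n, ‖χ c⁻¹ *
        (∑ b ∈ P, (χ ^ m) (b : ZMod n) / b - (if χ ^ m = 1 then 1 else 0) * (wt P : ℂ))‖
          ≤ ∑ _χ : DirichletCharacter ℂ n, (ε + dv P n) := by
            apply sum_le_sum
            intro χ _
            rw [norm_mul]
            have h7 : ‖χ c⁻¹‖ ≤ 1 := DirichletCharacter.norm_le_one _ _
            have h8 := h4 χ
            have h9 : 0 ≤ ε + dv P n := by
              have := dv_nonneg P n
              linarith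
            calc _ ≤ 1 * (ε + dv P n) := mul_le_mul h7 h8 (norm_nonneg _) (by norm_num)
              _ = _ := one_mul _
        _ = Nat.totient n * (ε + dv P n) := by
            rw [sum_const, nsmul_eq_mul, card_univ, ← Nat.card_eq_fintype_card,
              DirichletCharacter.card_eq_totient_of_hasEnoughRootsOfUnity ℂ n]
    rw [one_div, inv_mul_le_iff₀ hφ]
    exact h6
  rwa [Complex.norm_real, Real.norm_eq_abs] at h5

end Pool.Agent.H482.WT
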