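import Mathlib
import Pool.Agent.H482.WT.Eq

/-! The weight of the bases for which the test is passed. -/

set_option autoImplicit false

namespace Pool.Agent.H482.WT

open Finset

open Pool.Agent.H379R2.W (Passes)

open Classical in
/-- the weight of the bases in `P` for which `n` passes -/
noncomputable def pw (P : Finset ℕ) (n : ℕ) : ℝ := wt (P.filter (fun b => Passes n b))

open Classical in
/-- the number of bases modulo `n` for which `n` passes -/
noncomputable def pcn (n : ℕ) : ℕ := ((range n).filter (fun b => Passes n b)).card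

theorem pow_two_unique {x y m n : ℕ} (hm : Odd m) (hn : Odd n) (h : 2 ^ x * m = 2 ^ y * n) :
    x = y ∧ m = n := by
  have key : ∀ {x y m n : ℕ}, Odd m → Odd n → 2 ^ x * m = 2 ^ y * n → ¬ x < y := by
    intro x y m n hm hn h hlt
    obtain ⟨c, rfl⟩ := Nat.exists_eq_add_of_lt hlt
    have h1 : m = 2 * (2 ^ c * n) := by
      have h2 : 2 ^ x * m = 2 ^ x * (2 * (2 ^ c * n)) := by
        rw [h]; ring
      exact Nat.eq_of_mul_eq_mul_left (by positivity) h2
    rw [h1] at hm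
    exact (Nat.not_odd_iff_even.2 (even_two_mul _)) hm
  have h1 : x = y := by
    have h2 := key hm hn h
    have h3 := key hn hm h.symm
    omega
  subst h1
  exact ⟨rfl, Nat.eq_of_mul_eq_mul_left (by positivity) h⟩

theorem passes_iff {n b j d : ℕ} (h : n - 1 = 2 ^ j * d) (hd : Odd d) :
    Passes n b ↔ ((b : ZMod n) ^ d = 1 ∨ ∃ i < j, (b : ZMod n) ^ (2 ^ i * d) = -1) := by
  constructor
  · rintro ⟨j', d', h1, h2, h3⟩
    obtain ⟨e1, e2⟩ := pow_two_unique hd h2 (h.symm.trans h1)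
    subst e1 e2
    rcases h3 with h3 | ⟨i, hi, h3⟩
    · exact Or.inl h3
    · exact Or.inr ⟨i, hi, h3⟩
  · rintro (h3 | ⟨i, hi, h3⟩)
    · exact ⟨j, d, h, hd, Or.inl h3⟩
    · exact ⟨j, d, h, hd, Or.inr ⟨i, hi, h3⟩⟩

theorem neg_ne {n : ℕ} (hn : 3 ≤ n) : (-1 : ZMod n) ≠ 1 := by
  have : Fact (2 < n) := ⟨by omega⟩
  exact ZMod.neg_one_ne_one

theorem lvl_up {n i i' d : ℕ} (b : ZMod n) (h : b ^ (2 ^ i * d) = -1) (hi : i < i') :
    b ^ (2 ^ i' * d) = 1 := by
  have e : 2 ^ i' * d = 2 ^ i * d * 2 * 2 ^ (i' - i - 1) := by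
    have : i' = i + 1 + (i' - i - 1) := by omega
    conv_lhs => rw [this, pow_add, pow_add]
    ring
  rw [e, pow_mul, pow_mul, h]
  norm_num

open Classical in
theorem ind_eq {n : ℕ} (hn : 3 ≤ n) (j d : ℕ) (b : ZMod n) :
    (if (b ^ d = 1 ∨ ∃ i < j, b ^ (2 ^ i * d) = -1) then (1 : ℝ) else 0) =
      (if b ^ d = 1 then 1 else 0) + ∑ i ∈ range j, (if b ^ (2 ^ i * d) = -1 then (1 : ℝ) else 0) := by
  have hne := neg_ne hn
  by_cases h : b ^ d = 1
  · rw [if_pos (Or.inl h), if_pos h, sum_eq_zero, add_zero]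
    intro i _
    rw [if_neg]
    rw [mul_comm, pow_mul, h, one_pow]
    exact hne.symm
  · rw [if_neg h, zero_add]
    by_cases h1 : ∃ i < j, b ^ (2 ^ i * d) = -1
    · rw [if_pos (Or.inr h1)]
      obtain ⟨i, hi, h2⟩ := h1
      rw [sum_eq_single i]
      · rw [if_pos h2]
      · intro i' _ hii
        rw [if_neg]
        intro h3
        rcases lt_or_gt_of_ne hii with h4 | h4
        · rw [lvl_up b h3 h4] at h2
          exact hne h2.symm
        · rw [lvl_up b h2 h4] at h3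
          exact hne h3.symm
      · intro h3
        exact absurd (mem_range.2 hi) h3
    · rw [if_neg (by rintro (h2 | h2); exacts [h h2, h1 h2]), sum_eq_zero]
      intro i hi
      rw [if_neg]
      intro h2
      exact h1 ⟨i, mem_range.1 hi, h2⟩

open Classical in
theorem ind_le {n : ℕ} (hn : 3 ≤ n) (s d : ℕ) (b : ZMod n) :
    (if b ^ d = 1 then (1 : ℝ) else 0) + ∑ i ∈ range s, (if b ^ (2 ^ i * d) = -1 then (1 : ℝ) else 0) ≤
      if b ^ (2 ^ s * d) = 1 then (1 : ℝ) else 0 := by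
  rw [← ind_eq hn s d b]
  by_cases h : b ^ d = 1 ∨ ∃ i < s, b ^ (2 ^ i * d) = -1
  · rw [if_pos h]
    have h1 : b ^ (2 ^ s * d) = 1 := by
      rcases h with h | ⟨i, hi, h⟩
      · rw [mul_comm, pow_mul, h, one_pow]
      · exact lvl_up b h hi
    rw [if_pos h1]
  · rw [if_neg h]
    split_ifs <;> norm_num

theorem sol_eq (P : Finset ℕ) (n m : ℕ) (c : ZMod n) [DecidableEq (ZMod n)] :
    sol P n m c = ∑ b ∈ P, (1 / (b : ℝ)) * (if (b : ZMod n) ^ m = c then 1 else 0) := by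
  classical
  unfold sol wt
  rw [sum_filter]
  apply sum_congr rfl
  intro b _
  split_ifs <;> simp

theorem cnt_eq (n m : ℕ) (c : ZMod n) [DecidableEq (ZMod n)] :
    (cnt n m c : ℝ) = ∑ b ∈ range n, (if (b : ZMod n) ^ m = c then (1 : ℝ) else 0) := by
  classical
  unfold cnt
  rw [card_filter]
  push_cast
  apply sum_congr rfl
  intro b _
  split_ifs <;> simp

theorem pw_dec {n j d : ℕ} (hn : 3 ≤ n) (h : n - 1 = 2 ^ j * d) (hd : Odd d) (P : Finset ℕ) :
    pw P n = sol P n d 1 + ∑ i ∈ range j, sol P n (2 ^ i * d) (-1) := by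
  classical
  have h1 : pw P n = ∑ b ∈ P, (1 / (b : ℝ)) *
      (if ((b : ZMod n) ^ d = 1 ∨ ∃ i < j, (b : ZMod n) ^ (2 ^ i * d) = -1) then (1 : ℝ) else 0) := by
    unfold pw wt
    rw [sum_filter]
    apply sum_congr rfl
    intro b _
    by_cases h2 : Passes n b
    · rw [if_pos h2, if_pos ((passes_iff h hd).1 h2), mul_one]
    · rw [if_neg h2, if_neg (fun h3 => h2 ((passes_iff h hd).2 h3)), mul_zero]
  rw [h1]
  simp_rw [ind_eq hn j d, mul_add, sum_add_distrib]
  congr 1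
  · rw [sol_eq]
  · simp_rw [mul_sum]
    rw [sum_comm]
    exact sum_congr rfl fun i _ => (sol_eq P n _ _).symm

theorem pcn_dec {n j d : ℕ} (hn : 3 ≤ n) (h : n - 1 = 2 ^ j * d) (hd : Odd d) :
    (pcn n : ℝ) = cnt n d 1 + ∑ i ∈ range j, (cnt n (2 ^ i * d) (-1) : ℝ) := by
  classical
  have h1 : (pcn n : ℝ) = ∑ b ∈ range n,
      (if ((b : ZMod n) ^ d = 1 ∨ ∃ i < j, (b : ZMod n) ^ (2 ^ i * d) = -1) then (1 : ℝ) else 0) := by
    unfold pcn
    rw [card_filter]
    push_cast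
    apply sum_congr rfl
    intro b _
    by_cases h2 : Passes n b
    · rw [if_pos h2, if_pos ((passes_iff h hd).1 h2)]
    · rw [if_neg h2, if_neg (fun h3 => h2 ((passes_iff h hd).2 h3))]
  rw [h1]
  simp_rw [ind_eq hn j d, sum_add_distrib]
  congr 1
  · rw [cnt_eq]
  · rw [sum_comm]
    exact sum_congr rfl fun i _ => (cnt_eq n _ _).symm

theorem sol_nonneg (P : Finset ℕ) (n m : ℕ) (c : ZMod n) : 0 ≤ sol P n m c := wt_nonneg _

theorem low_sol {n : ℕ} (hn : 3 ≤ n) (s d : ℕ) (P : Finset ℕ) :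
    sol P n d 1 + ∑ i ∈ range s, sol P n (2 ^ i * d) (-1) ≤ sol P n (2 ^ s * d) 1 := by
  classical
  rw [sol_eq P n (2 ^ s * d) 1]
  have h1 : sol P n d 1 + ∑ i ∈ range s, sol P n (2 ^ i * d) (-1) = ∑ b ∈ P, (1 / (b : ℝ)) *
      ((if (b : ZMod n) ^ d = 1 then (1 : ℝ) else 0) +
        ∑ i ∈ range s, (if (b : ZMod n) ^ (2 ^ i * d) = -1 then (1 : ℝ) else 0)) := by
    simp_rw [mul_add, sum_add_distrib]
    congr 1
    · rw [sol_eq]
    · simp_rw [mul_sum]
      rw [sum_comm]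
      exact sum_congr rfl fun i _ => (sol_eq P n _ _)
  rw [h1]
  exact sum_le_sum fun b _ => mul_le_mul_of_nonneg_left (ind_le hn s d _) (by positivity)

theorem low_cnt {n : ℕ} (hn : 3 ≤ n) (s d : ℕ) :
    (cnt n d 1 : ℝ) + ∑ i ∈ range s, (cnt n (2 ^ i * d) (-1) : ℝ) ≤ cnt n (2 ^ s * d) 1 := by
  classical
  rw [cnt_eq n (2 ^ s * d) 1]
  have h1 : (cnt n d 1 : ℝ) + ∑ i ∈ range s, (cnt n (2 ^ i * d) (-1) : ℝ) = ∑ b ∈ range n,
      ((if (b : ZMod n) ^ d = 1 then (1 : ℝ) else 0) +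
        ∑ i ∈ range s, (if (b : ZMod n) ^ (2 ^ i * d) = -1 then (1 : ℝ) else 0)) := by
    simp_rw [sum_add_distrib]
    congr 1
    · rw [cnt_eq]
    · rw [sum_comm]
      exact sum_congr rfl fun i _ => (cnt_eq n _ _)
  rw [h1]
  exact sum_le_sum fun b _ => ind_le hn s d _

/-- the number of solutions as the order of a kernel -/
theorem cnt_ker {n : ℕ} (hn : 1 ≤ n) (m : ℕ) (hm : 1 ≤ m) :
    cnt n m 1 = Nat.card (powMonoidHom m : (ZMod n)ˣ →* (ZMod n)ˣ).ker := by
  classical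
  have : NeZero n := ⟨by omega⟩
  unfold cnt
  rw [Nat.card_eq_fintype_card, ← card_univ]
  symm
  apply card_bij (fun (u : (powMonoidHom m : (ZMod n)ˣ →* (ZMod n)ˣ).ker) _ =>
    ((u : (ZMod n)ˣ) : ZMod n).val)
  · intro u _
    rw [mem_filter, mem_range]
    refine ⟨ZMod.val_lt _, ?_⟩
    rw [ZMod.natCast_zmod_val]
    have h1 : (u : (ZMod n)ˣ) ^ m = 1 := by
      have := u.2
      rwa [MonoidHom.mem_ker, powMonoidHom_apply] at this
    rw [← Units.val_pow_eq_pow_val, h1, Units.val_one]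
  · intro u _ u' _ h
    exact Subtype.ext (Units.ext (ZMod.val_injective n h))
  · intro b hb
    rw [mem_filter, mem_range] at hb
    have hu : IsUnit (b : ZMod n) := IsUnit.of_pow_eq_one hb.2 (by omega)
    refine ⟨⟨hu.unit, ?_⟩, mem_univ _, ?_⟩
    · rw [MonoidHom.mem_ker, powMonoidHom_apply]
      apply Units.ext
      rw [Units.val_pow_eq_pow_val, IsUnit.unit_spec, hb.2, Units.val_one]
    · simp only [IsUnit.unit_spec]
      exact ZMod.val_cast_of_lt hb.1

theorem cnt_low {n v d t : ℕ} (hn : 3 ≤ n) (hv : 1 ≤ v) (hd : 1 ≤ d) (ht : t ≤ v)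
    (hne : cnt n (2 ^ (v - 1) * d) (-1) ≠ 0) :
    (cnt n (2 ^ (v - t) * d) 1 : ℝ) * 2 ^ t ≤ Nat.totient n := by
  classical
  have : NeZero n := ⟨by omega⟩
  have hm : 1 ≤ 2 ^ (v - t) * d := Nat.mul_pos (Nat.two_pow_pos _) hd
  set f := (powMonoidHom (2 ^ (v - t) * d) : (ZMod n)ˣ →* (ZMod n)ˣ) with hf
  have h1 : Nat.card f.ker * f.ker.index = Nat.totient n := by
    rw [Subgroup.card_mul_index, Nat.card_eq_fintype_card, ZMod.card_units_eq_totient]
  have h2 : 2 ^ t ≤ f.ker.index := by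
    rw [Subgroup.index_ker]
    rcases Nat.eq_zero_or_pos t with h0 | h0
    · rw [h0, pow_zero]
      exact Nat.card_pos
    · -- an element of order `2 ^ t` in the range
      unfold cnt at hne
      obtain ⟨b, hb⟩ := card_ne_zero.1 hne
      rw [mem_filter, mem_range] at hb
      have hu : IsUnit (b : ZMod n) := by
        have h3 : (b : ZMod n) ^ (2 ^ (v - 1) * d * 2) = 1 := by
          rw [pow_mul, hb.2]; norm_num
        exact IsUnit.of_pow_eq_one h3
          (Nat.mul_pos (Nat.mul_pos (Nat.two_pow_pos _) hd) two_pos).ne'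
      set g : (ZMod n)ˣ := hu.unit with hg
      have hgb : ((g : (ZMod n)ˣ) : ZMod n) = b := hu.unit_spec
      have h4 : g ^ (2 ^ (v - 1) * d) = -1 := by
        apply Units.ext
        rw [Units.val_pow_eq_pow_val, hgb, hb.2, Units.val_neg, Units.val_one]
      have h5 : (f g) ^ (2 ^ (t - 1)) = -1 := by
        rw [hf, powMonoidHom_apply, ← pow_mul]
        have e : 2 ^ (v - t) * d * 2 ^ (t - 1) = 2 ^ (v - 1) * d := by
          have : v - 1 = (v - t) + (t - 1) := by omega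
          rw [this, pow_add]; ring
        rw [e, h4]
      have hne1 : (-1 : (ZMod n)ˣ) ≠ 1 := by
        intro h6
        have := congrArg Units.val h6
        rw [Units.val_neg, Units.val_one] at this
        exact neg_ne hn this
      have h6 : orderOf (f g) = 2 ^ t := by
        have h7 : t = (t - 1) + 1 := by omega
        rw [h7]
        apply orderOf_eq_prime_pow
        · rw [h5]; exact hne1
        · rw [pow_succ, pow_mul, h5]
          norm_num
      have h8 : orderOf (⟨f g, ⟨g, rfl⟩⟩ : f.range) = 2 ^ t := by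
        rw [← h6]
        exact (Subgroup.orderOf_mk _ _)
      rw [← h8]
      exact orderOf_le_card
  have h3 : cnt n (2 ^ (v - t) * d) 1 * 2 ^ t ≤ Nat.totient n := by
    rw [cnt_ker (by omega) _ hm, ← h1]
    exact Nat.mul_le_mul_left _ h2
  exact_mod_cast h3

theorem sol_zero {n m : ℕ} (hn : 1 ≤ n) (c : ZMod n) (P : Finset ℕ) (h : cnt n m c = 0) :
    sol P n m c = 0 := by
  classical
  unfold cnt at h
  rw [card_eq_zero, filter_eq_empty_iff] at h
  unfold sol wt
  rw [filter_eq_empty_iff.2, sum_empty]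
  intro b _ hb
  apply h (mem_range.2 (Nat.mod_lt b hn))
  rw [ZMod.natCast_mod]
  exact hb

/-- the weight of the bases in `P` for which the test is passed is proportional to their number -/
theorem pass_equi {n : ℕ} (hn : 3 ≤ n) (P : Finset ℕ) (hP : ∀ b ∈ P, b.Prime) (ε : ℝ)
    (hε : 0 ≤ ε) (hG : Good P n ε) (t : ℕ) :
    |pw P n - (pcn n : ℝ) / (Nat.totient n : ℝ) * wt P| ≤
      (t + 1) * (ε + dv P n) + (1 / 2) ^ t * wt P := by
  classical
  have : NeZero n := ⟨by omega⟩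
  have hφ : (0 : ℝ) < Nat.totient n := by
    have := Nat.totient_pos.mpr (NeZero.pos n)
    exact_mod_cast this
  set e := ε + dv P n with he
  have he0 : 0 ≤ e := by
    have := dv_nonneg P n
    linarith
  have hw0 := wt_nonneg P
  obtain ⟨d, hd, h⟩ : ∃ d, Odd d ∧ n - 1 = 2 ^ ((n - 1).factorization 2) * d := by
    refine ⟨(n - 1) / 2 ^ (n - 1).factorization 2, ?_, ?_⟩
    · have := Nat.not_dvd_ordCompl Nat.prime_two (by omega : n - 1 ≠ 0)
      rw [← Nat.not_even_iff_odd, even_iff_two_dvd]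
      exact this
    · exact (Nat.ordProj_mul_ordCompl_eq_self (n - 1) 2).symm
  obtain ⟨j, hj⟩ : ∃ j, j = (n - 1).factorization 2 := ⟨_, rfl⟩
  rw [← hj] at h
  have hd1 : 1 ≤ d := hd.pos
  -- one level
  have hun : IsUnit (-1 : ZMod n) := isUnit_one.neg
  have hlev : ∀ i, |sol P n (2 ^ i * d) (-1) - (cnt n (2 ^ i * d) (-1) : ℝ) / (Nat.totient n : ℝ) * wt P| ≤ e :=
    fun i => equi P hP ε hε hG _ (Nat.mul_pos (Nat.two_pow_pos _) hd1) (-1) hun
  have hodd : ∀ m, 1 ≤ m → |sol P n m 1 - (cnt n m 1 : ℝ) / (Nat.totient n : ℝ) * wt P| ≤ e :=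
    fun m hm => equi P hP ε hε hG m hm 1 isUnit_one
  -- the highest level
  set J := (range j).filter (fun i => cnt n (2 ^ i * d) (-1) ≠ 0) with hJ
  set v := J.sup (fun i => i + 1) with hv
  have hvj : v ≤ j := by
    rw [hv]
    apply Finset.sup_le
    intro i hi
    rw [hJ, mem_filter, mem_range] at hi
    omega
  have hzero : ∀ i, i < j → v ≤ i → cnt n (2 ^ i * d) (-1) = 0 := by
    intro i hi hvi
    by_contra hcon
    have h1 : i ∈ J := by rw [hJ, mem_filter, mem_range]; exact ⟨hi, hcon⟩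
    have h2 : i + 1 ≤ v := by rw [hv]; exact Finset.le_sup (f := fun i => i + 1) h1
    omega
  have hvtop : 1 ≤ v → cnt n (2 ^ (v - 1) * d) (-1) ≠ 0 := by
    intro hv1
    have hne : J.Nonempty := by
      rw [nonempty_iff_ne_empty]
      intro h0
      rw [hv, h0, Finset.sup_empty] at hv1
      simp at hv1
    obtain ⟨i, hi, h2⟩ := Finset.exists_mem_eq_sup J hne (fun i => i + 1)
    rw [← hv] at h2
    rw [hJ, mem_filter] at hi
    have : v - 1 = i := by omega
    rw [this]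
    exact hi.2
  -- restriction to the levels below `v`
  have hpw : pw P n = sol P n d 1 + ∑ i ∈ range v, sol P n (2 ^ i * d) (-1) := by
    rw [pw_dec hn h hd P]
    congr 1
    symm
    apply sum_subset (range_subset_range.2 hvj)
    intro i hi hi'
    rw [mem_range] at hi hi'
    exact sol_zero (by omega) _ P (hzero i hi (by omega))
  have hpcn : (pcn n : ℝ) = cnt n d 1 + ∑ i ∈ range v, (cnt n (2 ^ i * d) (-1) : ℝ) := by
    rw [pcn_dec hn h hd]
    congr 1
    symm
    apply sum_subset (range_subset_range.2 hvj)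
    intro i hi hi'
    rw [mem_range] at hi hi'
    rw [hzero i hi (by omega)]
    simp
  -- a block of levels
  have hblock : ∀ I : Finset ℕ, |∑ i ∈ I, sol P n (2 ^ i * d) (-1) -
      (∑ i ∈ I, (cnt n (2 ^ i * d) (-1) : ℝ)) / (Nat.totient n : ℝ) * wt P| ≤ I.card * e := by
    intro I
    rw [sum_div, sum_mul, ← sum_sub_distrib]
    refine (abs_sum_le_sum_abs _ _).trans ?_
    calc _ ≤ ∑ _i ∈ I, e := sum_le_sum fun i _ => hlev i
      _ = I.card * e := by rw [sum_const, nsmul_eq_mul]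
  rcases le_or_gt v t with hvt | hvt
  · rw [hpw, hpcn]
    have h1 := hodd d hd1
    have h2 := hblock (range v)
    rw [card_range] at h2
    have h3 : (v : ℝ) * e ≤ t * e := mul_le_mul_of_nonneg_right (by exact_mod_cast hvt) he0
    have h4 : 0 ≤ (1 / 2 : ℝ) ^ t * wt P := mul_nonneg (pow_nonneg (by norm_num) _) hw0
    have h5 : sol P n d 1 + ∑ i ∈ range v, sol P n (2 ^ i * d) (-1) -
        ((cnt n d 1 : ℝ) + ∑ i ∈ range v, (cnt n (2 ^ i * d) (-1) : ℝ)) / (Nat.totient n : ℝ) * wt P =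
        (sol P n d 1 - (cnt n d 1 : ℝ) / (Nat.totient n : ℝ) * wt P) +
        (∑ i ∈ range v, sol P n (2 ^ i * d) (-1) -
          (∑ i ∈ range v, (cnt n (2 ^ i * d) (-1) : ℝ)) / (Nat.totient n : ℝ) * wt P) := by ring
    rw [h5]
    refine (abs_add_le _ _).trans ?_
    linarith
  · -- the lower levels
    set s := v - t with hs
    have hsplit : ∀ F : ℕ → ℝ, ∑ i ∈ range v, F i = ∑ i ∈ range s, F i + ∑ i ∈ Ico s v, F i :=
      fun F => (sum_range_add_sum_Ico F (by omega)).symm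
    rw [hpw, hpcn, hsplit, hsplit]
    have h2 := hblock (Ico s v)
    have hcard : (Ico s v).card = t := by rw [Nat.card_Ico]; omega
    rw [hcard] at h2
    set A := sol P n d 1 + ∑ i ∈ range s, sol P n (2 ^ i * d) (-1) with hA
    set A' := (cnt n d 1 : ℝ) + ∑ i ∈ range s, (cnt n (2 ^ i * d) (-1) : ℝ) with hA'
    have hA0 : 0 ≤ A := by
      have h3 := sol_nonneg P n d 1
      have h4 : 0 ≤ ∑ i ∈ range s, sol P n (2 ^ i * d) (-1) := sum_nonneg fun i _ => sol_nonneg _ _ _ _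
      linarith
    have hA'0 : 0 ≤ A' :=
      add_nonneg (Nat.cast_nonneg _) (sum_nonneg fun i _ => Nat.cast_nonneg _)
    have hAle : A ≤ sol P n (2 ^ s * d) 1 := low_sol hn s d P
    have hA'le : A' ≤ cnt n (2 ^ s * d) 1 := low_cnt hn s d
    have h3 := hodd (2 ^ s * d) (Nat.mul_pos (Nat.two_pow_pos _) hd1)
    have h4 : (cnt n (2 ^ s * d) 1 : ℝ) / (Nat.totient n : ℝ) ≤ (1 / 2) ^ t := by
      have h5 := cnt_low (t := t) hn (by omega) hd1 hvt.le (hvtop (by omega))
      rw [← hs] at h5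
      rw [div_le_iff₀ hφ]
      have h6 : (1 / 2 : ℝ) ^ t * 2 ^ t = 1 := by rw [← mul_pow]; norm_num
      have h7 : (0 : ℝ) ≤ (1 / 2) ^ t := by positivity
      calc (cnt n (2 ^ s * d) 1 : ℝ) = (1 / 2) ^ t * (cnt n (2 ^ s * d) 1 * 2 ^ t) := by
            rw [mul_comm ((cnt n (2 ^ s * d) 1 : ℝ)), ← mul_assoc, h6, one_mul]
        _ ≤ _ := mul_le_mul_of_nonneg_left h5 h7
    have h5 : |A - A' / (Nat.totient n : ℝ) * wt P| ≤ (1 / 2) ^ t * wt P + e := by
      have h6 : (cnt n (2 ^ s * d) 1 : ℝ) / (Nat.totient n : ℝ) * wt P ≤ (1 / 2) ^ t * wt P :=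
        mul_le_mul_of_nonneg_right h4 hw0
      have h7 : A' / (Nat.totient n : ℝ) * wt P ≤ (cnt n (2 ^ s * d) 1 : ℝ) / (Nat.totient n : ℝ) * wt P :=
        mul_le_mul_of_nonneg_right (div_le_div_of_nonneg_right hA'le hφ.le) hw0
      have h8 : 0 ≤ A' / (Nat.totient n : ℝ) * wt P := mul_nonneg (div_nonneg hA'0 hφ.le) hw0
      have h9 := (abs_le.1 h3).2
      rw [abs_le]
      constructor <;> linarith
    have h6 : sol P n d 1 + (∑ i ∈ range s, sol P n (2 ^ i * d) (-1) +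
          ∑ i ∈ Ico s v, sol P n (2 ^ i * d) (-1)) -
        ((cnt n d 1 : ℝ) + (∑ i ∈ range s, (cnt n (2 ^ i * d) (-1) : ℝ) +
          ∑ i ∈ Ico s v, (cnt n (2 ^ i * d) (-1) : ℝ))) / (Nat.totient n : ℝ) * wt P =
        (A - A' / (Nat.totient n : ℝ) * wt P) +
        (∑ i ∈ Ico s v, sol P n (2 ^ i * d) (-1) -
          (∑ i ∈ Ico s v, (cnt n (2 ^ i * d) (-1) : ℝ)) / (Nat.totient n : ℝ) * wt P) := by
      rw [hA, hA']; ring
    rw [h6]
    refine (abs_add_le _ _).trans ?_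
    linarith

end Pool.Agent.H482.WT
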