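import Mathlib
import Pool.Agent.H482.WT.Pas

/-! All but a bounded number of the composite integers have half of a prescribed set of primes as
witnesses; equidistribution without exceptional primes. -/

set_option autoImplicit false

namespace Pool.Agent.H482.WT

open Finset

open Pool.Agent.H379R2.W (Passes v2 not_dvd_of_passes pow_of_passes_dvd)

/-- the weight of all the primes in question is bounded -/
theorem wt_bound (θ δ : ℝ) (hθ : 0 < θ) : ∃ (W : ℝ) (x0 : ℕ), 0 < W ∧ ∀ x : ℕ, x0 ≤ x →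
    wt (PR ⌊(x : ℝ) ^ θ⌋₊ ⌊(x : ℝ) ^ δ⌋₊) ≤ W := by
  obtain ⟨C1, hC10, hC1'⟩ := Pool.Agent.Helper923.HMertens.mertens_ratio
  obtain ⟨x0, hx0⟩ := scale θ hθ
  have hl2 : 0 < Real.log 2 := Real.log_pos (by norm_num)
  set D := |2 * δ / θ| with hD
  refine ⟨D + C1 / Real.log 2 + 1, x0, by positivity, fun x hxx => ?_⟩
  obtain ⟨hz2, hzx, hx2⟩ := hx0 x hxx
  set z := ⌊(x : ℝ) ^ θ⌋₊ with hz
  set y := ⌊(x : ℝ) ^ δ⌋₊ with hy
  rcases lt_or_ge y z with hyz | hyz
  · have h2 : PR z y = ∅ := by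
      unfold PR
      rw [Ioc_eq_empty (by omega), filter_empty]
    rw [h2]
    unfold wt
    rw [sum_empty]
    positivity
  have hx1 : (1 : ℝ) < x := by exact_mod_cast (by omega : 1 < x)
  have hlx : 0 < Real.log x := Real.log_pos hx1
  have hz0 : (1 : ℝ) < z := by exact_mod_cast (by omega : 1 < z)
  have hlz : 0 < Real.log z := Real.log_pos hz0
  have hlz2 : Real.log 2 ≤ Real.log z := Real.log_le_log (by norm_num) (by exact_mod_cast hz2)
  have hlzx : θ / 2 * Real.log x ≤ Real.log z := by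
    have h1 := Real.log_le_log (by positivity) hzx
    rwa [Real.log_rpow (by linarith)] at h1
  have hly : Real.log y ≤ δ * Real.log x := by
    have hy0 : (0 : ℝ) < y := by exact_mod_cast (by omega : 0 < y)
    have h1 : (y : ℝ) ≤ (x : ℝ) ^ δ := Nat.floor_le (by positivity)
    have h2 := Real.log_le_log hy0 h1
    rwa [Real.log_rpow (by linarith)] at h2
  have hlyz : Real.log z ≤ Real.log y := Real.log_le_log (by linarith) (by exact_mod_cast hyz)
  have hratio : Real.log y / Real.log z ≤ D := by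
    have hδ : 0 < δ := by
      by_contra hcon
      push Not at hcon
      have : δ * Real.log x ≤ 0 := mul_nonpos_of_nonpos_of_nonneg hcon hlx.le
      linarith
    rw [hD, abs_of_pos (by positivity), div_le_iff₀ hlz]
    calc Real.log y ≤ δ * Real.log x := hly
      _ = 2 * δ / θ * (θ / 2 * Real.log x) := by field_simp
      _ ≤ 2 * δ / θ * Real.log z := mul_le_mul_of_nonneg_left hlzx (by positivity)
  have hratio1 : 1 ≤ Real.log y / Real.log z := by
    rw [le_div_iff₀ hlz]; linarith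
  have h1 := hC1' z y hz2 hyz
  have h2 := (abs_le.1 h1).2
  have h3 : ∑ p ∈ (Ioc z y).filter Nat.Prime, (1 : ℝ) / p = wt (PR z y) := rfl
  rw [h3] at h2
  have h4 : Real.log (Real.log y / Real.log z) ≤ D :=
    ((Real.log_le_sub_one_of_pos (by linarith)).trans (by linarith)).trans hratio
  have h5 : C1 / Real.log z ≤ C1 / Real.log 2 := div_le_div_of_nonneg_left hC10 hl2 hlz2
  linarith

/-- the primes dividing `n` are negligible for large `x` -/
theorem dv_bound (θ ε : ℝ) (hθ : 0 < θ) (hε : 0 < ε) : ∃ x0 : ℕ, ∀ x : ℕ, x0 ≤ x →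
    ∀ (y : ℕ) (P : Finset ℕ), P ⊆ PR ⌊(x : ℝ) ^ θ⌋₊ y → ∀ n : ℕ, 1 ≤ n → n ≤ x → dv P n ≤ ε := by
  have h1 : Filter.Tendsto (fun x : ℕ => 1 / θ * (x : ℝ) ^ (-θ)) Filter.atTop (nhds (1 / θ * 0)) :=
    ((tendsto_rpow_neg_atTop hθ).comp tendsto_natCast_atTop_atTop).const_mul _
  rw [mul_zero] at h1
  obtain ⟨x0, hx0⟩ := Filter.eventually_atTop.1 (h1.eventually (gt_mem_nhds hε))
  refine ⟨max x0 2, fun x hx y P hP n hn hnx => ?_⟩
  exact (dv_small θ hθ x y ((le_max_right _ _).trans hx) P hP n hn hnx).trans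
    (hx0 x ((le_max_left _ _).trans hx)).le

theorem PR_prime {z y : ℕ} {P : Finset ℕ} (hP : P ⊆ PR z y) : ∀ b ∈ P, b.Prime := by
  intro b hb
  have := hP hb
  unfold PR at this
  exact (mem_filter.1 this).2

/-- no exceptional prime factor: equidistribution -/
theorem partOne (hF : S_FEW) (θ δ η : ℝ) (hθ : 0 < θ) (hη : 0 < η) : ∃ C : ℕ, ∀ x : ℕ,
    ∀ P : Finset ℕ, P ⊆ PR ⌊(x : ℝ) ^ θ⌋₊ ⌊(x : ℝ) ^ δ⌋₊ →
    ∃ S : Finset ℕ, S.card ≤ C ∧ (∀ p ∈ S, p.Prime) ∧ ∀ n : ℕ, 2 ≤ n → n ≤ x → (∀ p ∈ S, ¬ p ∣ n) →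
      |pw P n - (pcn n : ℝ) / (Nat.totient n : ℝ) * wt P| ≤ η := by
  classical
  obtain ⟨W, x1, hW0, hW⟩ := wt_bound θ δ hθ
  obtain ⟨t, ht⟩ := exists_pow_lt_of_lt_one (show 0 < η / (2 * W) by positivity)
    (by norm_num : (1 / 2 : ℝ) < 1)
  set ε := η / (6 * (t + 1)) with hε
  have hε0 : 0 < ε := by positivity
  obtain ⟨C, hC⟩ := few_bad hF θ δ ε hθ hε0
  obtain ⟨x2, hx2⟩ := dv_bound θ ε hθ hε0
  set x3 := max (max x1 x2) 2 with hx3
  refine ⟨max (x3 + 1) (C + 1), fun x P hP => ?_⟩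
  rcases lt_or_ge x x3 with hxx | hxx
  · refine ⟨(range (x3 + 1)).filter Nat.Prime, ?_, fun p hp => (mem_filter.1 hp).2, ?_⟩
    · refine (card_filter_le _ _).trans ?_
      rw [card_range]
      exact le_max_left _ _
    · intro n hn hnx hS
      exfalso
      obtain ⟨p, hp, hpn⟩ := Nat.exists_prime_and_dvd (show n ≠ 1 by omega)
      refine hS p (mem_filter.2 ⟨mem_range.2 ?_, hp⟩) hpn
      have := Nat.le_of_dvd (by omega) hpn
      omega
  have hxa : x1 ≤ x := ((le_max_left _ _).trans (le_max_left _ _)).trans hxx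
  have hxb : x2 ≤ x := ((le_max_right _ _).trans (le_max_left _ _)).trans hxx
  have hxc : 2 ≤ x := (le_max_right _ _).trans hxx
  obtain ⟨E, hE, hE1⟩ := hC x hxc P hP
  refine ⟨insert 2 ((E.image (fun e => e.1.minFac)).filter Nat.Prime), ?_, ?_, ?_⟩
  · refine (card_insert_le _ _).trans ?_
    have h1 : ((E.image (fun e => e.1.minFac)).filter Nat.Prime).card ≤ C :=
      (card_filter_le _ _).trans (card_image_le.trans hE)
    exact (by omega : _ ≤ C + 1).trans (le_max_right _ _)
  · intro p hp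
    rw [mem_insert, mem_filter] at hp
    rcases hp with rfl | hp
    · exact Nat.prime_two
    · exact hp.2
  · intro n hn hnx hS
    have h2n : ¬ 2 ∣ n := hS 2 (mem_insert_self _ _)
    have hn3 : 3 ≤ n := by
      by_contra hcon
      have h : n = 2 := by omega
      rw [h] at h2n
      exact h2n (dvd_refl 2)
    have : NeZero n := ⟨by omega⟩
    have hPp := PR_prime hP
    have hdv := hx2 x hxb _ P hP n (by omega) hnx
    have hG : Good P n (2 * ε) := by
      intro χ hχ
      refine (sum_prim χ P hPp).trans ?_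
      have hc1 : χ.conductor ≠ 1 := fun h => hχ (DirichletCharacter.eq_one_iff_conductor_eq_one.2 h)
      have hcn : χ.conductor ∣ n := χ.conductor_dvd_level
      have hc0 : 0 < χ.conductor := Nat.pos_of_dvd_of_pos hcn (by omega)
      have h1 := hE1 χ.conductor χ.primitiveCharacter hc0 ((Nat.le_of_dvd (by omega) hcn).trans hnx)
        χ.primitiveCharacter_isPrimitive (by
          intro hmem
          refine hS χ.conductor.minFac ?_ ((Nat.minFac_dvd _).trans hcn)
          rw [mem_insert]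
          right
          rw [mem_filter]
          exact ⟨mem_image.2 ⟨_, hmem, rfl⟩, Nat.minFac_prime hc1⟩)
      linarith
    have h1 := pass_equi hn3 P hPp (2 * ε) (by positivity) hG t
    refine h1.trans ?_
    have hwP : wt P ≤ W := (wt_mono hP).trans (hW x hxa)
    have h2 : (1 / 2 : ℝ) ^ t * wt P ≤ η / 2 := by
      have h3 := wt_nonneg P
      calc (1 / 2 : ℝ) ^ t * wt P ≤ (η / (2 * W)) * W := by
            apply mul_le_mul ht.le hwP h3 (by positivity)
        _ = η / 2 := by field_simp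
    have h3 : ((t : ℝ) + 1) * (2 * ε + dv P n) ≤ η / 2 := by
      have h4 : ((t : ℝ) + 1) * (2 * ε + dv P n) ≤ ((t : ℝ) + 1) * (3 * ε) :=
        mul_le_mul_of_nonneg_left (by linarith) (by positivity)
      have h5 : ((t : ℝ) + 1) * (3 * ε) = η / 2 := by
        rw [hε]; field_simp; norm_num
      linarith
    linarith

/-- characters with value one on the passed bases -/
theorem half (P Q : Finset ℕ) (hQ : Q ⊆ P) (g : ℕ → ℂ) (hg : ∀ b, ‖g b‖ ≤ 1)
    (hg1 : ∀ b ∈ Q, g b = 1) (ε : ℝ) (h : ‖∑ b ∈ P, g b / b‖ ≤ ε) : wt Q ≤ (wt P + ε) / 2 := by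
  have h1 : 2 * wt Q ≤ ∑ b ∈ P, (1 / (b : ℝ) + (g b / b).re) := by
    calc 2 * wt Q = ∑ b ∈ Q, (1 / (b : ℝ) + (g b / b).re) := by
          unfold wt
          rw [mul_sum]
          apply sum_congr rfl
          intro b hb
          rw [hg1 b hb]
          have : ((1 : ℂ) / (b : ℂ)).re = 1 / (b : ℝ) := by
            rw [show (1 : ℂ) / (b : ℂ) = ((1 / (b : ℝ) : ℝ) : ℂ) by push_cast; rfl, Complex.ofReal_re]
          rw [this]; ring
      _ ≤ _ := by
          apply sum_le_sum_of_subset_of_nonneg hQ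
          intro b _ _
          have h2 : |(g b / b).re| ≤ 1 / (b : ℝ) := by
            refine (Complex.abs_re_le_norm _).trans ?_
            rw [norm_div, Complex.norm_natCast]
            exact div_le_div_of_nonneg_right (hg b) (Nat.cast_nonneg _)
          have := (abs_le.1 h2).1
          linarith
  rw [sum_add_distrib, ← Complex.re_sum] at h1
  have h2 : (∑ b ∈ P, g b / (b : ℂ)).re ≤ ε := (Complex.re_le_norm _).trans h
  have h3 : ∑ b ∈ P, 1 / (b : ℝ) = wt P := rfl
  rw [h3] at h1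
  linarith

end Pool.Agent.H482.WT
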