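import Mathlib

/-! Project WT: the characters which are trivial on a subgroup. -/

set_option autoImplicit false

namespace Pool.Agent.H482.WT

open Finset

/-- task DUA: the characters modulo `n` which are trivial on a subgroup of the units -/
def S_DUA : Prop := ∀ n : ℕ, 1 ≤ n → ∀ G : Subgroup (ZMod n)ˣ,
  ∃ X : Finset (DirichletCharacter ℂ n), X.card * Nat.card G = Nat.totient n ∧
    (∀ b : ℕ, 0 ≤ (∑ χ ∈ X, χ (b : ZMod n)).re) ∧
    ∀ u : (ZMod n)ˣ, u ∈ G → ∀ χ ∈ X, χ (u : ZMod n) = 1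

end Pool.Agent.H482.WT
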