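import Mathlib
import Pool.Agent.H482.WT.Two

/-! The number of characters with a large sum over a prescribed set of primes, uniformly. -/

set_option autoImplicit false

namespace Pool.Agent.H482.WT

open Finset Real

/-- the bound -/
noncomputable def BD (C : ℝ) (x y : ℕ) : ℝ := exp (C * (log x / log y) * log (log x / log y + 1))

theorem BD_mono {C C' : ℝ} (h : C ≤ C') {x y : ℕ} (hy : 2 ≤ y) (hyx : y ≤ x) : BD C x y ≤ BD C' x y := by
  unfold BD
  have hy1 : (1 : ℝ) < y := by exact_mod_cast (by omega : 1 < y)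
  have hly : 0 < log (y : ℝ) := Real.log_pos hy1
  have hx1 : (1 : ℝ) < x := by exact_mod_cast (by omega : 1 < x)
  have hlx : 0 < log (x : ℝ) := Real.log_pos hx1
  apply Real.exp_le_exp.2
  apply mul_le_mul_of_nonneg_right _ (Real.log_nonneg (by
    have : 0 ≤ log (x : ℝ) / log y := by positivity
    linarith))
  exact mul_le_mul_of_nonneg_right h (by positivity)

theorem base_facts {x y : ℕ} (hy : 2 ≤ y) (hyx : y ≤ x) : 0 < log (y : ℝ) ∧
    1 ≤ log (x : ℝ) / log y ∧ log (x : ℝ) = log (x : ℝ) / log y * log y ∧ 0 < (x : ℝ) := by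
  have hy1 : (1 : ℝ) < y := by exact_mod_cast (by omega : 1 < y)
  have hly : 0 < log (y : ℝ) := Real.log_pos hy1
  have hlyx : log (y : ℝ) ≤ log x := Real.log_le_log (by linarith) (by exact_mod_cast hyx)
  refine ⟨hly, ?_, ?_, ?_⟩
  · rw [le_div_iff₀ hly]; linarith
  · field_simp
  · exact_mod_cast (by omega : 0 < x)

/-- linear and `u log u` terms -/
theorem ulog (a b u : ℝ) (ha : 0 ≤ a) (hb : 0 ≤ b) (hu : 1 ≤ u) :
    a * u + b * (u * log u) ≤ (2 * a + b) * u * log (u + 1) := by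
  have h2 : (0.69 : ℝ) < log 2 := by have := Real.log_two_gt_d9; linarith
  have h3 : log 2 ≤ log (u + 1) := Real.log_le_log (by norm_num) (by linarith)
  have h4 : log u ≤ log (u + 1) := Real.log_le_log (by linarith) (by linarith)
  have h5 : a * u ≤ 2 * a * u * log (u + 1) := by
    have : 0 ≤ a * u := by positivity
    nlinarith
  have h6 : b * (u * log u) ≤ b * (u * log (u + 1)) :=
    mul_le_mul_of_nonneg_left (mul_le_mul_of_nonneg_left h4 (by linarith)) hb
  nlinarith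

/-- if `y` is at most a power of `u`, everything is trivial -/
theorem triv_case (K c : ℝ) (hK : 1 ≤ K) (hc : 0 ≤ c) : ∃ C : ℝ, 0 < C ∧ ∀ x y : ℕ, 2 ≤ y → y ≤ x →
    (y : ℝ) ≤ (K * (log x / log y)) ^ c → (x : ℝ) ^ 2 ≤ BD C x y := by
  refine ⟨2 * (2 * c * log K) + 2 * c + 1, by
    have := Real.log_nonneg hK
    positivity, fun x y hy hyx h => ?_⟩
  obtain ⟨hly, hu1, hxu, hx0⟩ := base_facts hy hyx
  unfold BD
  set u := log (x : ℝ) / log y with hu
  have hy0 : (0 : ℝ) < y := by exact_mod_cast (by omega : 0 < y)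
  have h1 : log (y : ℝ) ≤ c * (log K + log u) := by
    have h2 := Real.log_le_log hy0 h
    rwa [Real.log_rpow (by positivity), Real.log_mul (by linarith) (by linarith)] at h2
  rw [← Real.log_le_iff_le_exp (by positivity), Real.log_pow, hxu]
  have hlK := Real.log_nonneg hK
  have h3 := ulog (2 * c * log K) (2 * c) u (by positivity) (by positivity) hu1
  have h4 : (2 : ℕ) * (u * log (y : ℝ)) ≤ 2 * c * log K * u + 2 * c * (u * log u) := by
    push_cast
    have h5 : u * log (y : ℝ) ≤ u * (c * (log K + log u)) := mul_le_mul_of_nonneg_left h1 (by linarith)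
    nlinarith
  have h5 : 0 ≤ u * log (u + 1) := mul_nonneg (by linarith) (Real.log_nonneg (by linarith))
  push_cast at h4
  push_cast
  nlinarith

open Classical in
/-- all characters -/
theorem all_card (x : ℕ) : (((Icc 1 x).sigma
    (fun f => (univ : Finset (DirichletCharacter ℂ f)))).card : ℝ) ≤ (x : ℝ) ^ 2 := by
  rw [card_sigma]
  have h1 : ∑ f ∈ Icc 1 x, (univ : Finset (DirichletCharacter ℂ f)).card ≤ x * x := by
    calc ∑ f ∈ Icc 1 x, (univ : Finset (DirichletCharacter ℂ f)).card ≤ ∑ _f ∈ Icc 1 x, x := by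
          apply sum_le_sum
          intro f hf
          rw [mem_Icc] at hf
          have : NeZero f := ⟨by omega⟩
          rw [card_univ, ← Nat.card_eq_fintype_card,
            DirichletCharacter.card_eq_totient_of_hasEnoughRootsOfUnity ℂ f]
          exact (Nat.totient_le f).trans hf.2
      _ = x * x := by rw [sum_const, Nat.card_Icc, smul_eq_mul, Nat.add_sub_cancel]
  have h2 : ((∑ f ∈ Icc 1 x, (univ : Finset (DirichletCharacter ℂ f)).card : ℕ) : ℝ) ≤
      ((x * x : ℕ) : ℝ) := by exact_mod_cast h1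
  refine h2.trans (le_of_eq ?_)
  push_cast
  ring

/-- the logarithmic estimate at the end -/
theorem fin_est {κ M u K : ℝ} (hκ : 1 ≤ κ) (hM : 1 ≤ M) (hu : 1 ≤ u) (hK : 2 ≤ K) (hKu : K ≤ κ * u) :
    4 * K * (log M + log K) ≤ (8 * κ * (log M + log κ) + 4 * κ) * u * log (u + 1) := by
  have hlM : 0 ≤ log M := Real.log_nonneg hM
  have hlκ : 0 ≤ log κ := Real.log_nonneg hκ
  have hlu : 0 ≤ log u := Real.log_nonneg hu
  have h8 : log K ≤ log κ + log u := by
    rw [← Real.log_mul (by linarith) (by linarith)]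
    exact Real.log_le_log (by linarith) hKu
  have h10 : 4 * K * (log M + log K) ≤ 4 * (κ * u) * (log M + (log κ + log u)) := by
    apply mul_le_mul (by linarith) (by linarith) _ (by positivity)
    have : 0 ≤ log K := Real.log_nonneg (by linarith)
    linarith
  have h11 := ulog (4 * κ * (log M + log κ)) (4 * κ) u (by positivity) (by positivity) hu
  have h13 : 4 * (κ * u) * (log M + (log κ + log u)) =
      4 * κ * (log M + log κ) * u + 4 * κ * (u * log u) := by ring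
  rw [h13] at h10
  refine h10.trans (h11.trans (le_of_eq ?_))
  ring

/-- the algebraic estimate -/
theorem alg_est {C0 L R η M K c : ℝ} {k : ℕ} (hη : 0 < η) (hM : 1 ≤ M) (hC0 : 0 < C0)
    (hC0M : C0 ≤ M) (hL0 : 0 ≤ L) (hLM : L ≤ M) (hR0 : 0 ≤ R) (hRM : R ^ 2 ≤ M)
    (hηM : (1 / η) ^ 2 ≤ M) (hK : 1 ≤ K)
    (h : c * η ^ (2 * (k + 1)) ≤ C0 * K ^ (k + 3) * L ^ k * R ^ 2) :
    c ≤ (M * K) ^ (4 * (k + 1)) := by
  have h6 : c = c * η ^ (2 * (k + 1)) * ((1 / η) ^ 2) ^ (k + 1) := by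
    rw [pow_mul η, mul_assoc, ← mul_pow, ← mul_pow, mul_one_div_cancel hη.ne']
    simp
  have h1 : C0 ≤ M ^ (k + 1) := hC0M.trans (le_self_pow₀ hM (by omega))
  have h2 : R ^ 2 ≤ M ^ (k + 1) := hRM.trans (le_self_pow₀ hM (by omega))
  have h3 : ((1 / η) ^ 2) ^ (k + 1) ≤ M ^ (k + 1) := pow_le_pow_left₀ (by positivity) hηM _
  have h4 : L ^ k ≤ M ^ (k + 1) :=
    (pow_le_pow_left₀ hL0 hLM k).trans (pow_le_pow_right₀ hM (by omega))
  have h5 : K ^ (k + 3) ≤ K ^ (4 * (k + 1)) := pow_le_pow_right₀ hK (by omega)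
  have hM0 : 0 ≤ M ^ (k + 1) := by positivity
  have hK0 : 0 ≤ K := by linarith
  calc c = c * η ^ (2 * (k + 1)) * ((1 / η) ^ 2) ^ (k + 1) := h6
    _ ≤ (C0 * K ^ (k + 3) * L ^ k * R ^ 2) * ((1 / η) ^ 2) ^ (k + 1) :=
        mul_le_mul_of_nonneg_right h (by positivity)
    _ ≤ (M ^ (k + 1) * K ^ (4 * (k + 1)) * M ^ (k + 1) * M ^ (k + 1)) * M ^ (k + 1) := by
        apply mul_le_mul _ h3 (by positivity) (by positivity)
        apply mul_le_mul _ h2 (by positivity) (by positivity)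
        apply mul_le_mul _ h4 (by positivity) (by positivity)
        exact mul_le_mul h1 h5 (by positivity) (by positivity)
    _ = (M * K) ^ (4 * (k + 1)) := by rw [mul_pow, show 4 * (k + 1) = (k + 1) + (k + 1) + (k + 1) + (k + 1) by ring, pow_add, pow_add, pow_add]; ring

theorem few_uni (hM : S_MOM) (θ η : ℝ) (hθ : 0 < θ) (hη : 0 < η) : ∃ C : ℝ, 0 < C ∧
    ∀ x y : ℕ, 2 ≤ y → y ≤ x → ∀ P : Finset ℕ, P ⊆ PR ⌊(y : ℝ) ^ θ⌋₊ y →
    ∃ E : Finset (Σ f : ℕ, DirichletCharacter ℂ f), (E.card : ℝ) ≤ BD C x y ∧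
      ∀ (f : ℕ) (χ : DirichletCharacter ℂ f), 1 ≤ f → f ≤ x → χ.IsPrimitive →
        (⟨f, χ⟩ : Σ f : ℕ, DirichletCharacter ℂ f) ∉ E →
          ‖∑ b ∈ P, χ (b : ZMod f) / b‖ ≤ η := by
  classical
  obtain ⟨C0, hC0, hC1⟩ := hM
  obtain ⟨C1, hC10, hC1'⟩ := Pool.Agent.Helper923.HMertens.mertens_ratio
  obtain ⟨y0, hy0⟩ := scale θ hθ
  obtain ⟨C3, hC3, hC3'⟩ := triv_case ((y0 : ℝ) + 1) 1 (by
    have : (0 : ℝ) ≤ y0 := Nat.cast_nonneg _
    linarith) (by norm_num)
  have hl2 : 0 < log 2 := Real.log_pos (by norm_num)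
  set D := 2 / θ with hD
  have hD0 : 0 < D := by positivity
  -- a common base
  set M := C0 + (D + C1 / log 2 + 1) + (1 + D) ^ 2 + (1 / η) ^ 2 + 1 with hM
  have q1 : 0 ≤ C1 / log 2 := by positivity
  have q2 : 0 ≤ (1 + D) ^ 2 := by positivity
  have q3 : 0 ≤ (1 / η) ^ 2 := by positivity
  have hM1 : 1 ≤ M := by linarith
  have hC0M : C0 ≤ M := by linarith
  have hηM : (1 / η) ^ 2 ≤ M := by linarith
  set κ := 2 * D + 4 with hκ
  have hκ1 : 1 ≤ κ := by linarith
  refine ⟨max C3 (8 * κ * (log M + log κ) + 4 * κ), lt_max_of_lt_left hC3, fun x y hy hyx P hP => ?_⟩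
  obtain ⟨hly, hu1, hxu, hx0⟩ := base_facts hy hyx
  rcases lt_or_ge y y0 with hyy | hyy
  · refine ⟨(Icc 1 x).sigma (fun f => (univ : Finset (DirichletCharacter ℂ f))), ?_, ?_⟩
    · refine (all_card x).trans ((hC3' x y hy hyx ?_).trans (BD_mono (le_max_left _ _) hy hyx))
      rw [Real.rpow_one]
      have h1 : (y : ℝ) ≤ (y0 : ℝ) + 1 := by
        have : (y : ℝ) < y0 := by exact_mod_cast hyy
        linarith
      have h2 : (0 : ℝ) ≤ (y0 : ℝ) + 1 := by positivity
      nlinarith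
    · intro f χ hf hfx _ hn
      exfalso
      apply hn
      rw [mem_sigma, mem_Icc]
      exact ⟨⟨hf, hfx⟩, mem_univ _⟩
  obtain ⟨hz2, hzy, -⟩ := hy0 y hyy
  set z := ⌊(y : ℝ) ^ θ⌋₊ with hz
  set u := log (x : ℝ) / log y with hu
  -- the coefficients
  set c : ℕ → ℂ := fun b => if b ∈ P then 1 else 0 with hc
  have hc1 : ∀ n, ‖c n‖ ≤ 1 := by
    intro n
    simp only [hc]
    split_ifs <;> simp
  have hsum : ∀ (f : ℕ) (χ : DirichletCharacter ℂ f),
      ∑ p ∈ PR z y, c p * χ (p : ZMod f) / p = ∑ b ∈ P, χ (b : ZMod f) / b := by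
    intro f χ
    rw [← sum_subset hP]
    · apply sum_congr rfl
      intro b hb
      simp only [hc]
      rw [if_pos hb, one_mul]
    · intro b _ hb
      simp only [hc]
      rw [if_neg hb, zero_mul, zero_div]
  rcases lt_or_ge y z with hyz | hyz
  · refine ⟨∅, ?_, ?_⟩
    · rw [card_empty, Nat.cast_zero]
      exact (Real.exp_pos _).le
    · intro f χ _ _ _ _
      have h2 : PR z y = ∅ := by
        unfold PR
        rw [Ioc_eq_empty (by omega), filter_empty]
      rw [h2, subset_empty] at hP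
      rw [hP, sum_empty, norm_zero]
      exact hη.le
  have hy1 : (1 : ℝ) < y := by exact_mod_cast (by omega : 1 < y)
  have hz0 : (1 : ℝ) < z := by exact_mod_cast (by omega : 1 < z)
  have hlz : 0 < log (z : ℝ) := Real.log_pos hz0
  have hlz2 : log 2 ≤ log (z : ℝ) := Real.log_le_log (by norm_num) (by exact_mod_cast hz2)
  have hlzy : θ / 2 * log y ≤ log (z : ℝ) := by
    have h1 := Real.log_le_log (by positivity) hzy
    rwa [Real.log_rpow (by linarith)] at h1
  have hlyz : log (z : ℝ) ≤ log y := Real.log_le_log (by linarith) (by exact_mod_cast hyz)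
  have hratio : log (y : ℝ) / log z ≤ D := by
    rw [hD, div_le_iff₀ hlz]
    calc log (y : ℝ) = 2 / θ * (θ / 2 * log y) := by field_simp
      _ ≤ 2 / θ * log z := mul_le_mul_of_nonneg_left hlzy (by positivity)
  have hratio1 : 1 ≤ log (y : ℝ) / log z := by
    rw [le_div_iff₀ hlz]; linarith
  have hRM : (1 + log (y : ℝ) / log z) ^ 2 ≤ M := by
    have h7 : (1 + log (y : ℝ) / log z) ^ 2 ≤ (1 + D) ^ 2 :=
      pow_le_pow_left₀ (by linarith) (by linarith) 2
    linarith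
  set L := ∑ p ∈ PR z y, 1 / (p : ℝ) with hL
  have hL0 : 0 ≤ L := sum_nonneg fun _ _ => by positivity
  have hLle : L ≤ M := by
    have h1 := hC1' z y hz2 hyz
    have h2 := (abs_le.1 h1).2
    have h3 : ∑ p ∈ (Ioc z y).filter Nat.Prime, (1 : ℝ) / p = L := by rw [hL]; rfl
    rw [h3] at h2
    have h4 : log (log (y : ℝ) / log z) ≤ D :=
      ((Real.log_le_sub_one_of_pos (by linarith)).trans (by linarith)).trans hratio
    have h5 : C1 / log z ≤ C1 / log 2 := div_le_div_of_nonneg_left hC10 hl2 hlz2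
    linarith
  set m := ⌈D * u⌉₊ with hm
  have hm1 : (m : ℝ) < D * u + 1 := Nat.ceil_lt_add_one (by positivity)
  have hxz : x ≤ z ^ m := by
    have h1 : ((x : ℝ)) ≤ (z : ℝ) ^ (m : ℝ) := by
      have h2 : log (x : ℝ) ≤ (m : ℝ) * log z := by
        have h3 : D * u ≤ m := Nat.le_ceil _
        calc log (x : ℝ) = D * u * (θ / 2 * log y) := by rw [hxu, hD]; field_simp
          _ ≤ m * log z := mul_le_mul h3 hlzy (by positivity) (Nat.cast_nonneg _)
      rw [← Real.log_rpow (by linarith)] at h2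
      exact (Real.log_le_log_iff hx0 (by positivity)).1 h2
    rw [Real.rpow_natCast] at h1
    exact_mod_cast h1
  set k := 2 * m + 1 with hk
  have hQ : (x * z) ^ 2 ≤ z ^ (k + 1) := by
    calc (x * z) ^ 2 ≤ (z ^ m * z) ^ 2 := Nat.pow_le_pow_left (Nat.mul_le_mul_right z hxz) 2
      _ = z ^ (k + 1) := by rw [hk]; ring
  have h1 := hC1 z y k x hz2 hyz hQ c hc1
  set E := ((Icc 1 x).sigma (fun f => Pm f)).filter
    (fun e : (Σ f : ℕ, DirichletCharacter ℂ f) => η ≤ ‖∑ b ∈ P, e.2 (b : ZMod e.1) / b‖) with hE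
  refine ⟨E, ?_, ?_⟩
  swap
  · intro f χ hf hfx hχ hn
    by_contra hcon
    push Not at hcon
    apply hn
    rw [hE, mem_filter, mem_sigma, mem_Icc, mem_Pm]
    exact ⟨⟨⟨hf, hfx⟩, hχ⟩, hcon.le⟩
  have h2 : (E.card : ℝ) * η ^ (2 * (k + 1)) ≤
      ∑ f ∈ Icc 1 x, ∑ χ ∈ Pm f, ‖∑ p ∈ PR z y, c p * χ (p : ZMod f) / p‖ ^ (2 * (k + 1)) := by
    rw [← sum_sigma (Icc 1 x) (fun f => Pm f)
      (fun e => ‖∑ p ∈ PR z y, c p * e.2 (p : ZMod e.1) / p‖ ^ (2 * (k + 1)))]
    calc (E.card : ℝ) * η ^ (2 * (k + 1)) = ∑ _e ∈ E, η ^ (2 * (k + 1)) := by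
          rw [sum_const, nsmul_eq_mul]
      _ ≤ ∑ e ∈ E, ‖∑ p ∈ PR z y, c p * e.2 (p : ZMod e.1) / p‖ ^ (2 * (k + 1)) := by
          apply sum_le_sum
          intro e he
          rw [hE, mem_filter] at he
          rw [hsum]
          exact pow_le_pow_left₀ hη.le he.2 _
      _ ≤ _ := by
          apply sum_le_sum_of_subset_of_nonneg
          · exact filter_subset _ _
          · intro _ _ _; positivity
  set K : ℝ := ((k + 1 : ℕ) : ℝ) with hK
  have hK2 : 2 ≤ K := by rw [hK]; exact_mod_cast (by omega : 2 ≤ k + 1)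
  have hKu : K ≤ κ * u := by
    have : K = 2 * m + 2 := by rw [hK, hk]; push_cast; ring
    rw [this, hκ]
    nlinarith
  have h3 : (E.card : ℝ) ≤ (M * K) ^ (4 * (k + 1)) :=
    alg_est hη hM1 hC0 hC0M hL0 hLle (by linarith) hRM hηM (by linarith) (h2.trans h1)
  refine h3.trans (le_trans ?_ (BD_mono (le_max_right _ _) hy hyx))
  unfold BD
  rw [← hu, ← Real.log_le_iff_le_exp (pow_pos (mul_pos (by linarith) (by linarith)) _), Real.log_pow,
    Real.log_mul (by linarith) (by linarith)]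
  have h9 : ((4 * (k + 1) : ℕ) : ℝ) = 4 * K := by rw [hK]; push_cast; ring
  rw [h9]
  exact fin_est hκ1 hM1 hu1 hK2 hKu

end Pool.Agent.H482.WT
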