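import Mathlib

/-! Project WT: two statements about primitive Dirichlet characters. -/

set_option autoImplicit false

namespace Pool.Agent.H482.WT

open Finset

/-- task PRM: a primitive character modulo `p ^ a` whose order is a power of `p` -/
def S_PRM : Prop := ∀ p a : ℕ, p.Prime → 2 ≤ a →
  ∃ χ : DirichletCharacter ℂ (p ^ a), χ.IsPrimitive ∧
    ∀ b e : ℕ, (b : ZMod (p ^ a)) ^ e = 1 → ¬ p ∣ e → χ (b : ZMod (p ^ a)) = 1

/-- task PRD: the product of primitive characters to coprime moduli is primitive -/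
def S_PRD : Prop := ∀ (A : Finset ℕ) (q : ℕ → ℕ) (ψ : (p : ℕ) → DirichletCharacter ℂ (q p)),
  (∀ p ∈ A, 0 < q p) → (∀ p ∈ A, ∀ p' ∈ A, p ≠ p' → Nat.Coprime (q p) (q p')) →
  (∀ p ∈ A, (ψ p).IsPrimitive) →
  ∃ χ : DirichletCharacter ℂ (∏ p ∈ A, q p), χ.IsPrimitive ∧
    ∀ b : ℕ, χ (b : ZMod (∏ p ∈ A, q p)) = ∏ p ∈ A, ψ p (b : ZMod (q p))

end Pool.Agent.H482.WT
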