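import Mathlib
import Pool.Agent.H482.WT.FewU
import Pool.Agent.H482.WT.StmC

/-! The uniform theorems. -/

set_option autoImplicit false

namespace Pool.Agent.H482.WT

open Finset Real

open Pool.Agent.H379R2.W (Passes v2 not_dvd_of_passes pow_of_passes_dvd)

theorem BD_pos (C : ℝ) (x y : ℕ) : 0 < BD C x y := Real.exp_pos _

/-- the prime factors of `n` in `P` have a small weight -/
theorem dv_le (x z y : ℕ) (hz : 2 ≤ z) (P : Finset ℕ) (hP : P ⊆ PR z y) (n : ℕ) (hn : 1 ≤ n)
    (hnx : n ≤ x) : dv P n ≤ log x / log z / z := by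
  set T := P.filter (fun b => b ∣ n) with hT
  have hz1 : (1 : ℝ) < z := by exact_mod_cast (by omega : 1 < z)
  have hlz : 0 < log (z : ℝ) := Real.log_pos hz1
  have hmem : ∀ b ∈ T, b.Prime ∧ z < b ∧ b ∣ n := by
    intro b hb
    rw [hT, mem_filter] at hb
    have h1 := hP hb.1
    unfold PR at h1
    rw [mem_filter, mem_Ioc] at h1
    exact ⟨h1.2, h1.1.1, hb.2⟩
  have hdvd : ∏ b ∈ T, b ∣ n := by
    apply Finset.prod_primes_dvd
    · intro b hb; exact (hmem b hb).1.prime
    · intro b hb; exact (hmem b hb).2.2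
  have h1 : z ^ T.card ≤ x := by
    calc z ^ T.card = ∏ _b ∈ T, z := by rw [prod_const]
      _ ≤ ∏ b ∈ T, b := prod_le_prod (fun _ _ => Nat.zero_le _) fun b hb => (hmem b hb).2.1.le
      _ ≤ n := Nat.le_of_dvd (by omega) hdvd
      _ ≤ x := hnx
  have h2 : (T.card : ℝ) ≤ log x / log z := by
    have h3 : ((z : ℝ)) ^ T.card ≤ x := by exact_mod_cast h1
    have h4 := Real.log_le_log (by positivity) h3
    rw [Real.log_pow] at h4
    rw [le_div_iff₀ hlz]
    exact h4
  unfold dv wt
  rw [← hT]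
  calc ∑ b ∈ T, 1 / (b : ℝ) ≤ ∑ _b ∈ T, 1 / (z : ℝ) := by
        apply sum_le_sum
        intro b hb
        exact one_div_le_one_div_of_le (by positivity) (by exact_mod_cast (hmem b hb).2.1.le)
    _ = T.card * (1 / (z : ℝ)) := by rw [sum_const, nsmul_eq_mul]
    _ ≤ log x / log z * (1 / (z : ℝ)) := mul_le_mul_of_nonneg_right h2 (by positivity)
    _ = _ := by ring

theorem two_case (P : Finset ℕ) (hP : ∀ b ∈ P, b.Prime) (hP2 : 2 ∉ P) :
    pw P 2 - (pcn 2 : ℝ) / (Nat.totient 2 : ℝ) * wt P = 0 := by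
  classical
  have hpass : ∀ b : ℕ, Passes 2 b ↔ (b : ZMod 2) = 1 := by
    intro b
    rw [passes_iff (j := 0) (d := 1) (by norm_num) odd_one]
    simp
  have h1 : pw P 2 = wt P := by
    unfold pw
    congr 1
    apply filter_true_of_mem
    intro b hb
    rw [hpass]
    have hodd : Odd b := (hP b hb).odd_of_ne_two (by rintro rfl; exact hP2 hb)
    obtain ⟨k, hk⟩ := hodd
    rw [hk]
    push_cast
    have : (2 : ZMod 2) = 0 := by decide
    rw [this]; ring
  have h2 : pcn 2 = 1 := by
    unfold pcn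
    have h3 : (range 2).filter (fun b => Passes 2 b) = {1} := by
      ext b
      rw [mem_filter, mem_range, mem_singleton, hpass]
      constructor
      · rintro ⟨hb, hb1⟩
        rcases (by omega : b = 0 ∨ b = 1) with h | h
        · rw [h] at hb1
          exact absurd hb1 (by decide)
        · exact h
      · rintro rfl
        exact ⟨by norm_num, by simp⟩
    rw [h3, card_singleton]
  rw [h1, h2, Nat.totient_two]
  simp

theorem partOneU (hM : S_MOM) (θ η : ℝ) (hθ : 0 < θ) (hη : 0 < η) : ∃ C : ℝ, 0 < C ∧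
    ∀ x y : ℕ, 2 ≤ y → y ≤ x → ∀ P : Finset ℕ, P ⊆ PR ⌊(y : ℝ) ^ θ⌋₊ y →
    ∃ F : Finset ℕ, (F.card : ℝ) ≤ BD C x y ∧ (∀ f ∈ F, 2 ≤ f) ∧
      ∀ n : ℕ, 2 ≤ n → n ≤ x → (∀ f ∈ F, ¬ f ∣ n) →
        |pw P n - (pcn n : ℝ) / (Nat.totient n : ℝ) * wt P| ≤ η := by
  classical
  obtain ⟨W, y1, hW0, hW⟩ := wt_bound θ 1 hθ
  obtain ⟨t, ht⟩ := exists_pow_lt_of_lt_one (show 0 < η / (2 * W) by positivity)
    (by norm_num : (1 / 2 : ℝ) < 1)
  set ε := η / (6 * (t + 1)) with hε
  have hε0 : 0 < ε := by positivity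
  obtain ⟨C1, hC1, hF⟩ := few_uni hM θ ε hθ hε0
  obtain ⟨y2, hy2⟩ := scale θ hθ
  set K : ℝ := 2 / (θ * ε) + y1 + y2 + 1 with hK
  have hK1 : 1 ≤ K := by
    have h1 : (0 : ℝ) ≤ y1 := Nat.cast_nonneg _
    have h2 : (0 : ℝ) ≤ y2 := Nat.cast_nonneg _
    have h3 : 0 < 2 / (θ * ε) := by positivity
    linarith
  set c : ℝ := 2 / θ + 1 with hc
  have hc0 : 1 ≤ c := by
    have : 0 < 2 / θ := by positivity
    linarith
  obtain ⟨C2, hC2, hT⟩ := triv_case K c hK1 (by linarith)
  refine ⟨max C1 C2, lt_max_of_lt_left hC1, fun x y hy hyx P hP => ?_⟩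
  obtain ⟨hly, hu1, hxu, hx0⟩ := base_facts hy hyx
  by_cases hcase : (y : ℝ) ≤ (K * (log x / log y)) ^ c
  · -- the trivial case
    refine ⟨Icc 2 x, ?_, fun f hf => (mem_Icc.1 hf).1, ?_⟩
    · refine le_trans ?_ ((hT x y hy hyx hcase).trans (BD_mono (le_max_right _ _) hy hyx))
      rw [Nat.card_Icc]
      have h1 : x + 1 - 2 ≤ x ^ 2 := by
        have := Nat.le_self_pow (show 2 ≠ 0 by norm_num) x
        omega
      exact_mod_cast h1
    · intro n hn hnx h
      exact absurd (dvd_refl n) (h n (mem_Icc.2 ⟨hn, hnx⟩))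
  push Not at hcase
  set u := log (x : ℝ) / log y with hu
  have hKu : K * u ≤ (K * u) ^ c := by
    have h1 : 1 ≤ K * u := by nlinarith
    calc K * u = (K * u) ^ (1 : ℝ) := (Real.rpow_one _).symm
      _ ≤ _ := Real.rpow_le_rpow_of_exponent_le h1 hc0
  have hyK : K ≤ y := by nlinarith
  have hy1' : y1 ≤ y := by
    have h1 : (y1 : ℝ) ≤ y := by
      have h2 : (0 : ℝ) ≤ y2 := Nat.cast_nonneg _
      have h3 : 0 < 2 / (θ * ε) := by positivity
      linarith
    exact_mod_cast h1
  have hy2' : y2 ≤ y := by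
    have h1 : (y2 : ℝ) ≤ y := by
      have h2 : (0 : ℝ) ≤ y1 := Nat.cast_nonneg _
      have h3 : 0 < 2 / (θ * ε) := by positivity
      linarith
    exact_mod_cast h1
  obtain ⟨hz2, hzy, -⟩ := hy2 y hy2'
  have hwP : wt P ≤ W := by
    have h1 := hW y hy1'
    rw [Real.rpow_one, Nat.floor_natCast] at h1
    exact (wt_mono hP).trans h1
  set z := ⌊(y : ℝ) ^ θ⌋₊ with hz
  obtain ⟨E, hE, hE1⟩ := hF x y hy hyx P hP
  have hPp := PR_prime hP
  -- the prime factors of `n` are negligible
  have hdv : ∀ n : ℕ, 1 ≤ n → n ≤ x → dv P n ≤ ε := by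
    intro n hn hnx
    have hz1 : (1 : ℝ) < z := by exact_mod_cast (by omega : 1 < z)
    have hlz : 0 < log (z : ℝ) := Real.log_pos hz1
    have hy0 : (0 : ℝ) < y := by linarith
    have hlzy : θ / 2 * log y ≤ log (z : ℝ) := by
      have h1 := Real.log_le_log (by positivity) hzy
      rwa [Real.log_rpow hy0] at h1
    have hzK : K * u ≤ z := by
      have h1 : K * u ≤ (y : ℝ) ^ (θ / 2) := by
        have h2 : ((K * u) ^ c) ^ (θ / 2) ≤ (y : ℝ) ^ (θ / 2) :=
          Real.rpow_le_rpow (by positivity) hcase.le (by positivity)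
        rw [← Real.rpow_mul (by positivity)] at h2
        have h3 : 1 ≤ c * (θ / 2) := by
          rw [hc]
          have : (2 / θ + 1) * (θ / 2) = 1 + θ / 2 := by field_simp
          rw [this]; linarith
        have h4 : 1 ≤ K * u := by nlinarith
        calc K * u = (K * u) ^ (1 : ℝ) := (Real.rpow_one _).symm
          _ ≤ (K * u) ^ (c * (θ / 2)) := Real.rpow_le_rpow_of_exponent_le h4 h3
          _ ≤ _ := h2
      exact h1.trans hzy
    have h1 := dv_le x z y hz2 P hP n hn hnx
    refine h1.trans ?_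
    have h2 : log (x : ℝ) / log z ≤ 2 / θ * u := by
      rw [div_le_iff₀ hlz]
      calc log (x : ℝ) = 2 / θ * u * (θ / 2 * log y) := by rw [hxu]; field_simp
        _ ≤ 2 / θ * u * log z := mul_le_mul_of_nonneg_left hlzy (by positivity)
    have hKpos : 0 < K := by linarith
    have hupos : 0 < u := by linarith
    calc log (x : ℝ) / log z / z ≤ (2 / θ * u) / (K * u) := by
          apply div_le_div₀ (by positivity) h2 (by positivity) hzK
      _ = 2 / (θ * K) := by field_simp
      _ ≤ ε := by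
          rw [div_le_iff₀ (by positivity)]
          have h3 : 2 / (θ * ε) ≤ K := by
            have h1 : (0 : ℝ) ≤ y1 := Nat.cast_nonneg _
            have h2 : (0 : ℝ) ≤ y2 := Nat.cast_nonneg _
            linarith
          rw [div_le_iff₀ (by positivity)] at h3
          linarith
  refine ⟨(E.image (fun e => e.1)).filter (fun f => 2 ≤ f), ?_, fun f hf => (mem_filter.1 hf).2, ?_⟩
  · refine le_trans ?_ (hE.trans (BD_mono (le_max_left _ _) hy hyx))
    exact_mod_cast (card_filter_le _ _).trans card_image_le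
  · intro n hn hnx hS
    rcases (by omega : n = 2 ∨ 3 ≤ n) with h2 | hn3
    · rw [h2, two_case P hPp, abs_zero]
      · exact hη.le
      · intro h3
        have := hP h3
        unfold PR at this
        rw [mem_filter, mem_Ioc] at this
        omega
    have : NeZero n := ⟨by omega⟩
    have hdvn := hdv n (by omega) hnx
    have hG : Good P n (2 * ε) := by
      intro χ hχ
      refine (sum_prim χ P hPp).trans ?_
      have hc1 : χ.conductor ≠ 1 := fun h => hχ (DirichletCharacter.eq_one_iff_conductor_eq_one.2 h)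
      have hcn : χ.conductor ∣ n := χ.conductor_dvd_level
      have hc0 : 0 < χ.conductor := Nat.pos_of_dvd_of_pos hcn (by omega)
      have h1 := hE1 χ.conductor χ.primitiveCharacter hc0 ((Nat.le_of_dvd (by omega) hcn).trans hnx)
        χ.primitiveCharacter_isPrimitive (by
          intro hmem
          refine hS χ.conductor ?_ hcn
          rw [mem_filter]
          exact ⟨mem_image.2 ⟨_, hmem, rfl⟩, by omega⟩)
      linarith
    have h1 := pass_equi hn3 P hPp (2 * ε) (by positivity) hG t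
    refine h1.trans ?_
    have h2 : (1 / 2 : ℝ) ^ t * wt P ≤ η / 2 := by
      have h3 := wt_nonneg P
      calc (1 / 2 : ℝ) ^ t * wt P ≤ (η / (2 * W)) * W := by
            apply mul_le_mul ht.le hwP h3 (by positivity)
        _ = η / 2 := by field_simp
    have h3 : ((t : ℝ) + 1) * (2 * ε + dv P n) ≤ η / 2 := by
      have h4 : ((t : ℝ) + 1) * (2 * ε + dv P n) ≤ ((t : ℝ) + 1) * (3 * ε) :=
        mul_le_mul_of_nonneg_left (by linarith) (by positivity)
      have h5 : ((t : ℝ) + 1) * (3 * ε) = η / 2 := by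
        rw [hε]; field_simp; norm_num
      linarith
    linarith

end Pool.Agent.H482.WT
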