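import Mathlib
import Pool.Agent.H482.WT.UniB
import Pool.Agent.H482.WT.Two
import Pool.Agent.H482.WT.Fam

/-! All but few composite integers have half of a prescribed set of primes as witnesses, uniformly. -/

set_option autoImplicit false

namespace Pool.Agent.H482.WT

open Finset Real

open Pool.Agent.H379R2.W (Passes v2 not_dvd_of_passes pow_of_passes_dvd)

/-- the product of the prime factors -/
noncomputable def rd (n : ℕ) : ℕ := ∏ p ∈ n.primeFactors, p

/-- the primes whose square divides `n` -/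
noncomputable def sqp (n : ℕ) : Finset ℕ := n.primeFactors.filter (fun p => 2 ≤ n.factorization p)

/-- the powerful part -/
noncomputable def pf (n : ℕ) : ℕ := ∏ p ∈ sqp n, p ^ n.factorization p

theorem prod_fac {n : ℕ} (hn : n ≠ 0) : ∏ p ∈ n.primeFactors, p ^ n.factorization p = n := by
  conv_rhs => rw [← Nat.prod_factorization_pow_eq_self hn]
  rfl

theorem pf_dvd {n : ℕ} (hn : n ≠ 0) : pf n ∣ n := by
  conv_rhs => rw [← prod_fac hn]
  exact prod_dvd_prod_of_subset _ _ _ (filter_subset _ _)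

theorem primeFactors_prod_pow (s : Finset ℕ) (hs : ∀ p ∈ s, p.Prime) (a : ℕ → ℕ)
    (ha : ∀ p ∈ s, a p ≠ 0) : (∏ p ∈ s, p ^ a p).primeFactors = s := by
  classical
  induction s using Finset.induction_on with
  | empty => simp
  | insert q s hq ih =>
    rw [prod_insert hq, Nat.primeFactors_mul, ih, Nat.primeFactors_prime_pow]
    · rfl
    · exact ha q (mem_insert_self _ _)
    · exact hs q (mem_insert_self _ _)
    · exact fun p hp => hs p (mem_insert_of_mem hp)
    · exact fun p hp => ha p (mem_insert_of_mem hp)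
    · exact pow_ne_zero _ (hs q (mem_insert_self _ _)).ne_zero
    · exact prod_ne_zero_iff.2 fun p hp => pow_ne_zero _ (hs p (mem_insert_of_mem hp)).ne_zero

theorem pf_primeFactors (n : ℕ) : (pf n).primeFactors = sqp n := by
  unfold pf
  apply primeFactors_prod_pow
  · exact fun p hp => Nat.prime_of_mem_primeFactors (mem_filter.1 hp).1
  · intro p hp
    have := (mem_filter.1 hp).2
    omega

/-- an integer is determined by its powerful part and its radical -/
theorem pf_rd {n : ℕ} (hn : n ≠ 0) : n * rd (pf n) = pf n * rd n := by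
  unfold rd
  rw [pf_primeFactors]
  have h1 : n = pf n * ∏ p ∈ n.primeFactors.filter (fun p => ¬ 2 ≤ n.factorization p), p := by
    conv_lhs => rw [← prod_fac hn]
    rw [← prod_filter_mul_prod_filter_not n.primeFactors (fun p => 2 ≤ n.factorization p)]
    unfold pf sqp
    congr 1
    apply prod_congr rfl
    intro p hp
    rw [mem_filter] at hp
    have h2 : n.factorization p ≠ 0 := by
      rw [← Finsupp.mem_support_iff, Nat.support_factorization]
      exact hp.1
    have h3 : n.factorization p = 1 := by omega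
    rw [h3, pow_one]
  have h2 : ∏ p ∈ n.primeFactors, p = (∏ p ∈ sqp n, p) *
      ∏ p ∈ n.primeFactors.filter (fun p => ¬ 2 ≤ n.factorization p), p := by
    rw [← prod_filter_mul_prod_filter_not n.primeFactors (fun p => 2 ≤ n.factorization p)]
    rfl
  rw [h2]
  calc n * ∏ p ∈ sqp n, p
      = (pf n * ∏ p ∈ n.primeFactors.filter (fun p => ¬ 2 ≤ n.factorization p), p) *
        ∏ p ∈ sqp n, p := congrArg (fun t => t * ∏ p ∈ sqp n, p) h1
    _ = _ := by ring

/-- the structure of the exceptions -/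
theorem exc_struct (hP : S_PSI) (hPr : S_PROD) (hPm : S_PRM) (hPd : S_PRD) (n : ℕ) (hn : 2 ≤ n)
    (hnp : ¬ n.Prime) (B : Finset ℕ)
    (hB : ∀ (m : ℕ) (χ : DirichletCharacter ℂ m), m ∣ n → χ.IsPrimitive →
      (∀ b : ℕ, Passes n b → χ (b : ZMod m) = 1) → m ∈ B) :
    n ∈ B ∨ (∃ a ∈ B, ∃ c ∈ B, n * rd c = c * (2 * a)) ∨
      (∃ a ∈ B, ∃ b ∈ B, ∃ c ∈ B, n * rd c = c * Nat.lcm a b) := by
  classical
  have hn0 : n ≠ 0 := by omega
  -- the powerful part
  have hpf : pf n ∈ B := by
    have hex : ∀ p : ℕ, ∃ χ : DirichletCharacter ℂ (p ^ n.factorization p), p ∈ sqp n →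
        χ.IsPrimitive ∧ ∀ b e : ℕ, (b : ZMod (p ^ n.factorization p)) ^ e = 1 → ¬ p ∣ e →
          χ (b : ZMod (p ^ n.factorization p)) = 1 := by
      intro p
      by_cases hp : p ∈ sqp n
      · have h1 := mem_filter.1 hp
        obtain ⟨χ, h⟩ := hPm p (n.factorization p) (Nat.prime_of_mem_primeFactors h1.1) h1.2
        exact ⟨χ, fun _ => h⟩
      · exact ⟨1, fun h => absurd h hp⟩
    choose ψ hψ using hex
    obtain ⟨χ, hχ1, hχ2⟩ := hPd (sqp n) (fun p => p ^ n.factorization p) ψ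
      (fun p hp => pow_pos (Nat.prime_of_mem_primeFactors (mem_filter.1 hp).1).pos _)
      (fun p hp q hq hpq => Nat.Coprime.pow _ _ ((Nat.coprime_primes
        (Nat.prime_of_mem_primeFactors (mem_filter.1 hp).1)
        (Nat.prime_of_mem_primeFactors (mem_filter.1 hq).1)).2 hpq))
      (fun p hp => (hψ p hp).1)
    refine hB (pf n) χ (pf_dvd hn0) hχ1 fun b hb => ?_
    have h1 := hχ2 b
    refine h1.trans (prod_eq_one fun p hp => ?_)
    have hpn : p ∣ n := Nat.dvd_of_mem_primeFactors (mem_filter.1 hp).1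
    have hpp : p.Prime := Nat.prime_of_mem_primeFactors (mem_filter.1 hp).1
    refine (hψ p hp).2 b (n - 1) (pow_of_passes_dvd hb (Nat.ordProj_dvd n p)) ?_
    intro h
    have h1 : p ∣ n - (n - 1) := Nat.dvd_sub hpn h
    have h2 : n - (n - 1) = 1 := by omega
    rw [h2] at h1
    exact hpp.one_lt.ne' (Nat.dvd_one.1 h1)
  obtain ⟨ψ, hψ1, hψ2⟩ := fam hP n hn
  -- sets of primes for which the product of the values is one
  have hA : ∀ A : Finset ℕ, A ⊆ n.primeFactors → 2 ∉ A → (Even n ∨ Even A.card) →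
      ∏ p ∈ A, p ∈ B := by
    intro A hA h2A hE
    have hApr : ∀ p ∈ A, p.Prime := fun p hp => Nat.prime_of_mem_primeFactors (hA hp)
    have hne2 : ∀ p ∈ A, p ≠ 2 := by
      rintro p hp rfl
      exact h2A hp
    have hdvd : ∏ p ∈ A, p ∣ n :=
      (prod_dvd_prod_of_subset _ _ _ hA).trans (Nat.prod_primeFactors_dvd n)
    obtain ⟨χ, hχ1, hχ2⟩ := hPr A ψ hApr (fun p hp => hψ1 p (hA hp) (hne2 p hp))
    refine hB _ χ hdvd hχ1 fun b hb => ?_
    obtain ⟨s, hs, hs1, hs2⟩ := hψ2 b hb
    rw [hχ2 b, prod_congr rfl (fun p hp => hs2 p (hA hp) (hne2 p hp)), prod_const]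
    rcases hE with hE | hE
    · rw [hs1 hE, one_pow]
    · rcases hs with hs | hs
      · rw [hs, one_pow]
      · rw [hs, hE.neg_one_pow]
  by_cases hev : Even n
  · -- even integers
    right; left
    have h2 : 2 ∈ n.primeFactors := by
      rw [Nat.mem_primeFactors]
      exact ⟨Nat.prime_two, even_iff_two_dvd.1 hev, hn0⟩
    refine ⟨∏ p ∈ n.primeFactors.erase 2, p, hA _ (erase_subset _ _) (notMem_erase _ _)
      (Or.inl hev), pf n, hpf, ?_⟩
    rw [pf_rd hn0]
    congr 1
    unfold rd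
    rw [mul_prod_erase _ (fun p => p) h2]
  have h2n : 2 ∉ n.primeFactors := fun h =>
    hev (even_iff_two_dvd.2 (Nat.dvd_of_mem_primeFactors h))
  by_cases hE : Even n.primeFactors.card
  · right; right
    have h1 := hA n.primeFactors (subset_refl _) h2n (Or.inr hE)
    refine ⟨_, h1, _, h1, pf n, hpf, ?_⟩
    rw [pf_rd hn0, Nat.lcm_self]
    rfl
  rw [Nat.not_even_iff_odd] at hE
  by_cases hcard : 1 < n.primeFactors.card
  · right; right
    obtain ⟨p0, hp0, p1, hp1, hne⟩ := one_lt_card.1 hcard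
    have he : ∀ p ∈ n.primeFactors, Even (n.primeFactors.erase p).card := by
      intro p hp
      rw [card_erase_of_mem hp]
      obtain ⟨a, ha⟩ := hE
      exact ⟨a, by omega⟩
    set m0 := ∏ p ∈ n.primeFactors.erase p0, p with hm0
    set m1 := ∏ p ∈ n.primeFactors.erase p1, p with hm1
    have hn0' : p0 * m0 = rd n := by
      rw [hm0, mul_prod_erase _ (fun p => p) hp0]
      rfl
    have hn1' : p1 * m1 = rd n := by
      rw [hm1, mul_prod_erase _ (fun p => p) hp1]
      rfl
    have hm0B : m0 ∈ B := hA _ (erase_subset _ _) (fun h => h2n (mem_of_mem_erase h))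
      (Or.inr (he p0 hp0))
    have hm1B : m1 ∈ B := hA _ (erase_subset _ _) (fun h => h2n (mem_of_mem_erase h))
      (Or.inr (he p1 hp1))
    refine ⟨m0, hm0B, m1, hm1B, pf n, hpf, ?_⟩
    rw [pf_rd hn0]
    congr 1
    apply Nat.dvd_antisymm
    · have hcop : Nat.Coprime p0 m0 := by
        rw [hm0]
        apply Nat.Coprime.prod_right
        intro q hq
        rw [mem_erase] at hq
        exact (Nat.coprime_primes (Nat.prime_of_mem_primeFactors hp0)
          (Nat.prime_of_mem_primeFactors hq.2)).2 (Ne.symm hq.1)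
      calc rd n = p0 * m0 := hn0'.symm
        _ ∣ Nat.lcm m0 m1 := by
            apply hcop.mul_dvd_of_dvd_of_dvd
            · have : p0 ∣ m1 := by
                rw [hm1]
                exact dvd_prod_of_mem _ (mem_erase.2 ⟨hne, hp0⟩)
              exact this.trans (Nat.dvd_lcm_right _ _)
            · exact Nat.dvd_lcm_left _ _
    · exact Nat.lcm_dvd (Dvd.intro_left p0 hn0') (Dvd.intro_left p1 hn1')
  · -- prime powers
    left
    have h1 : n.primeFactors.card = 1 := by
      obtain ⟨a, ha⟩ := hE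
      omega
    obtain ⟨p, hp⟩ := card_eq_one.1 h1
    have hpp : p.Prime := Nat.prime_of_mem_primeFactors (by rw [hp]; exact mem_singleton_self p)
    have h2 := prod_fac hn0
    rw [hp, prod_singleton] at h2
    have h3 : 2 ≤ n.factorization p := by
      by_contra hcon
      push Not at hcon
      rcases (by omega : n.factorization p = 0 ∨ n.factorization p = 1) with h | h
      · rw [h, pow_zero] at h2
        omega
      · rw [h, pow_one] at h2
        exact hnp (h2 ▸ hpp)
    have h4 : sqp n = {p} := by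
      unfold sqp
      rw [hp, filter_singleton, if_pos h3]
    have h5 : pf n = n := by
      unfold pf
      rw [h4, prod_singleton, h2]
    rwa [h5] at hpf

theorem count_struct (B W : Finset ℕ) (hW : ∀ n ∈ W, n ∈ B ∨
      (∃ a ∈ B, ∃ c ∈ B, n * rd c = c * (2 * a)) ∨
      (∃ a ∈ B, ∃ b ∈ B, ∃ c ∈ B, n * rd c = c * Nat.lcm a b)) :
    W.card ≤ B.card + B.card ^ 2 + B.card ^ 3 := by
  classical
  have hrd : ∀ c : ℕ, 0 < rd c := fun c =>
    prod_pos fun p hp => (Nat.prime_of_mem_primeFactors hp).pos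
  set W1 := (B ×ˢ B).image (fun t : ℕ × ℕ => t.2 * (2 * t.1) / rd t.2) with hW1
  set W2 := (B ×ˢ B ×ˢ B).image
    (fun t : ℕ × ℕ × ℕ => t.2.2 * Nat.lcm t.1 t.2.1 / rd t.2.2) with hW2
  have hsub : W ⊆ B ∪ W1 ∪ W2 := by
    intro n hn
    rw [mem_union, mem_union]
    rcases hW n hn with h | ⟨a, ha, c, hc, h⟩ | ⟨a, ha, b, hb, c, hc, h⟩
    · exact Or.inl (Or.inl h)
    · left; right
      rw [hW1, mem_image]
      refine ⟨(a, c), mem_product.2 ⟨ha, hc⟩, ?_⟩
      simp only
      rw [← h]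
      exact Nat.mul_div_cancel _ (hrd c)
    · right
      rw [hW2, mem_image]
      refine ⟨(a, b, c), mem_product.2 ⟨ha, mem_product.2 ⟨hb, hc⟩⟩, ?_⟩
      simp only
      rw [← h]
      exact Nat.mul_div_cancel _ (hrd c)
  have h1 : W1.card ≤ B.card ^ 2 := by
    refine card_image_le.trans ?_
    rw [card_product, sq]
  have h2 : W2.card ≤ B.card ^ 3 := by
    refine card_image_le.trans ?_
    rw [card_product, card_product]
    exact le_of_eq (by ring)
  calc W.card ≤ (B ∪ W1 ∪ W2).card := card_le_card hsub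
    _ ≤ (B ∪ W1).card + W2.card := card_union_le _ _
    _ ≤ B.card + W1.card + W2.card := by
        have := card_union_le B W1
        omega
    _ ≤ _ := by omega

theorem BD_pow (C : ℝ) (k : ℕ) (x y : ℕ) : BD C x y ^ k = BD (k * C) x y := by
  unfold BD
  rw [← Real.exp_nat_mul]
  congr 1
  ring

theorem BD_mul (C C' : ℝ) (x y : ℕ) : BD C x y * BD C' x y = BD (C + C') x y := by
  unfold BD
  rw [← Real.exp_add]
  congr 1
  ring

theorem two_le_BD {x y : ℕ} (hy : 2 ≤ y) (hyx : y ≤ x) : 2 ≤ BD 1 x y := by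
  obtain ⟨hly, hu1, -, -⟩ := base_facts hy hyx
  unfold BD
  set u := log (x : ℝ) / log y with hu
  have h1 : log 2 ≤ 1 * u * log (u + 1) := by
    have h2 : log 2 ≤ log (u + 1) := Real.log_le_log (by norm_num) (by linarith)
    have h3 : 0 < log 2 := Real.log_pos (by norm_num)
    nlinarith
  calc (2 : ℝ) = exp (log 2) := (Real.exp_log (by norm_num)).symm
    _ ≤ _ := Real.exp_le_exp.2 h1

theorem partTwoU (hM : S_MOM) (hP : S_PSI) (hPr : S_PROD) (hPm : S_PRM) (hPd : S_PRD) (θ η : ℝ)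
    (hθ : 0 < θ) (hη : 0 < η) : ∃ C : ℝ, 0 < C ∧
    ∀ x y : ℕ, 2 ≤ y → y ≤ x → ∀ P : Finset ℕ, P ⊆ PR ⌊(y : ℝ) ^ θ⌋₊ y →
    ∀ W : Finset ℕ, (∀ n ∈ W, 2 ≤ n ∧ n ≤ x ∧ ¬ n.Prime ∧ wt P / 2 + η < pw P n) →
      (W.card : ℝ) ≤ BD C x y := by
  classical
  obtain ⟨C1, hC1, hF⟩ := few_uni hM θ η hθ hη
  refine ⟨3 * C1 + 2, by linarith, fun x y hy hyx P hPP W hW => ?_⟩
  obtain ⟨E, hE, hE1⟩ := hF x y hy hyx P hPP
  have hPp := PR_prime hPP
  set B := E.image (fun e => e.1) with hB
  have hBc : (B.card : ℝ) ≤ BD C1 x y := by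
    refine le_trans ?_ hE
    exact_mod_cast card_image_le
  have h1 := count_struct B W (by
    intro n hn
    obtain ⟨hn2, hnx, hnp, hlt⟩ := hW n hn
    refine exc_struct hP hPr hPm hPd n hn2 hnp B ?_
    intro m χ hmn hχ hone
    by_contra hmB
    have hm0 : 0 < m := Nat.pos_of_dvd_of_pos hmn (by omega)
    have h2 := hE1 m χ hm0 ((Nat.le_of_dvd (by omega) hmn).trans hnx) hχ (by
      intro hmem
      exact hmB (by rw [hB]; exact mem_image.2 ⟨_, hmem, rfl⟩))
    have h3 := half P (P.filter (fun b => Passes n b)) (filter_subset _ _)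
      (fun b => χ (b : ZMod m)) (fun b => DirichletCharacter.norm_le_one _ _)
      (fun b hb => hone b (mem_filter.1 hb).2) η h2
    have h4 : wt (P.filter (fun b => Passes n b)) = pw P n := rfl
    rw [h4] at h3
    linarith)
  have h2 := two_le_BD hy hyx
  have hBD1 : 1 ≤ BD C1 x y := by
    have h3 : BD 0 x y ≤ BD C1 x y := BD_mono hC1.le hy hyx
    have h4 : BD 0 x y = 1 := by
      unfold BD
      rw [zero_mul, zero_mul, Real.exp_zero]
    linarith
  have h3 : (W.card : ℝ) ≤ 3 * BD C1 x y ^ 3 := by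
    have h4 : (W.card : ℝ) ≤ (B.card : ℝ) + (B.card : ℝ) ^ 2 + (B.card : ℝ) ^ 3 := by
      exact_mod_cast h1
    have h0 : (0 : ℝ) ≤ B.card := Nat.cast_nonneg _
    have h5 : (B.card : ℝ) ≤ BD C1 x y ^ 3 := hBc.trans (le_self_pow₀ hBD1 (by norm_num))
    have h6 : (B.card : ℝ) ^ 2 ≤ BD C1 x y ^ 3 :=
      (pow_le_pow_left₀ h0 hBc 2).trans (pow_le_pow_right₀ hBD1 (by norm_num))
    have h7 : (B.card : ℝ) ^ 3 ≤ BD C1 x y ^ 3 := pow_le_pow_left₀ h0 hBc 3
    linarith
  calc (W.card : ℝ) ≤ 3 * BD C1 x y ^ 3 := h3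
    _ ≤ (BD 1 x y * BD 1 x y) * BD C1 x y ^ 3 := by
        apply mul_le_mul_of_nonneg_right _ (by positivity)
        nlinarith
    _ = BD (3 * C1 + 2) x y := by
        rw [BD_pow, BD_mul, BD_mul]
        congr 1
        push_cast
        ring

end Pool.Agent.H482.WT
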