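import Mathlib
import Pool.Agent.H482.WT.Pas

/-! The group generated by the bases for which the test is passed is at most twice as large as their
set. -/

set_option autoImplicit false

namespace Pool.Agent.H482.WT

open Finset

open Pool.Agent.H379R2.W (Passes)

/-- the units whose power is plus or minus one -/
def Gp (n e : ℕ) : Subgroup (ZMod n)ˣ where
  carrier := {u | u ^ e = 1 ∨ u ^ e = -1}
  mul_mem' := by
    rintro a b (ha | ha) (hb | hb)
    · left; rw [mul_pow, ha, hb, one_mul]
    · right; rw [mul_pow, ha, hb, one_mul]
    · right; rw [mul_pow, ha, hb, mul_one]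
    · left; rw [mul_pow, ha, hb]; simp
  one_mem' := Or.inl (one_pow e)
  inv_mem' := by
    rintro a (ha | ha)
    · left; rw [inv_pow, ha, inv_one]
    · right; rw [inv_pow, ha]; simp

theorem pcn_ge {n : ℕ} [NeZero n] (T : Finset (ZMod n)ˣ)
    (hT : ∀ u ∈ T, Passes n ((u : ZMod n)).val) : T.card ≤ pcn n := by
  classical
  unfold pcn
  apply card_le_card_of_injOn (fun u : (ZMod n)ˣ => (u : ZMod n).val)
  · intro u hu
    rw [mem_coe] at hu
    rw [mem_coe, mem_filter, mem_range]
    exact ⟨ZMod.val_lt _, hT u hu⟩
  · intro u _ v _ h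
    exact Units.ext (ZMod.val_injective n h)

theorem liar_group (n : ℕ) (hn : 2 ≤ n) : ∃ G : Subgroup (ZMod n)ˣ,
    (∀ b : ℕ, Passes n b → ∀ u : (ZMod n)ˣ, (u : ZMod n) = b → u ∈ G) ∧
      Nat.card G ≤ 2 * pcn n := by
  classical
  have : NeZero n := ⟨by omega⟩
  obtain ⟨j, d, hd, hjd⟩ := Nat.exists_eq_two_pow_mul_odd (show n - 1 ≠ 0 by omega)
  have hcast : ∀ u : (ZMod n)ˣ, (((u : ZMod n).val : ℕ) : ZMod n) = u := fun u =>
    ZMod.natCast_zmod_val _
  set I := (range j).filter (fun i => ∃ w : (ZMod n)ˣ, w ^ (2 ^ i * d) = -1) with hI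
  by_cases hne : I.Nonempty
  · obtain ⟨i0, hi0, hmax⟩ := I.exists_max_image id hne
    rw [hI, mem_filter, mem_range] at hi0
    obtain ⟨hi0j, w, hw⟩ := hi0
    refine ⟨Gp n (2 ^ i0 * d), ?_, ?_⟩
    · intro b hb u hu
      rcases (passes_iff hjd hd).1 hb with h | ⟨i, hi, h⟩
      · left
        have h1 : u ^ d = 1 := by
          ext
          push_cast
          rw [hu, h]
        rw [mul_comm, pow_mul, h1, one_pow]
      · have h1 : u ^ (2 ^ i * d) = -1 := by
          ext
          push_cast
          rw [hu, h]
        have hiI : i ∈ I := by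
          rw [hI, mem_filter, mem_range]
          exact ⟨hi, u, h1⟩
        have hile : i ≤ i0 := hmax i hiI
        rcases Nat.lt_or_eq_of_le hile with h2 | h2
        · left
          have h3 := lvl_up (b : ZMod n) h h2
          ext
          push_cast
          rw [hu, h3]
        · right
          rw [← h2]
          exact h1
    · set T := (univ : Finset (ZMod n)ˣ).filter (fun u => u ^ (2 ^ i0 * d) = -1) with hT
      have hTc : T.card ≤ pcn n := by
        apply pcn_ge
        intro u hu
        rw [hT, mem_filter] at hu
        rw [passes_iff hjd hd]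
        right
        refine ⟨i0, hi0j, ?_⟩
        rw [hcast]
        have := congrArg (fun v : (ZMod n)ˣ => (v : ZMod n)) hu.2
        push_cast at this
        exact this
      set T' := (univ : Finset (ZMod n)ˣ).filter (fun u => u ^ (2 ^ i0 * d) = 1) with hT'
      have hT'c : T'.card ≤ T.card := by
        apply card_le_card_of_injOn (fun u => w * u)
        · intro u hu
          rw [mem_coe, hT', mem_filter] at hu
          rw [mem_coe, hT, mem_filter]
          refine ⟨mem_univ _, ?_⟩
          rw [mul_pow, hw, hu.2, mul_one]
        · intro u _ v _ h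
          exact mul_left_cancel h
      have hG : Nat.card (Gp n (2 ^ i0 * d)) ≤ (T' ∪ T).card := by
        rw [Nat.card_eq_fintype_card, Fintype.card_subtype]
        apply card_le_card
        intro u hu
        rw [mem_filter] at hu
        rw [mem_union, hT, hT', mem_filter, mem_filter]
        rcases hu.2 with h | h
        · exact Or.inl ⟨mem_univ _, h⟩
        · exact Or.inr ⟨mem_univ _, h⟩
      have := card_union_le T' T
      omega
  · rw [not_nonempty_iff_eq_empty] at hne
    refine ⟨(powMonoidHom d : (ZMod n)ˣ →* (ZMod n)ˣ).ker, ?_, ?_⟩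
    · intro b hb u hu
      rw [MonoidHom.mem_ker, powMonoidHom_apply]
      rcases (passes_iff hjd hd).1 hb with h | ⟨i, hi, h⟩
      · ext
        push_cast
        rw [hu, h]
      · exfalso
        have h1 : u ^ (2 ^ i * d) = -1 := by
          ext
          push_cast
          rw [hu, h]
        have hiI : i ∈ I := by
          rw [hI, mem_filter, mem_range]
          exact ⟨hi, u, h1⟩
        rw [hne] at hiI
        exact absurd hiI (notMem_empty i)
    · set T := (univ : Finset (ZMod n)ˣ).filter (fun u => u ^ d = 1) with hT
      have hTc : T.card ≤ pcn n := by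
        apply pcn_ge
        intro u hu
        rw [hT, mem_filter] at hu
        rw [passes_iff hjd hd]
        left
        rw [hcast]
        have := congrArg (fun v : (ZMod n)ˣ => (v : ZMod n)) hu.2
        push_cast at this
        exact this
      have hG : Nat.card (powMonoidHom d : (ZMod n)ˣ →* (ZMod n)ˣ).ker ≤ T.card := by
        rw [Nat.card_eq_fintype_card, Fintype.card_subtype]
        apply card_le_card
        intro u hu
        rw [mem_filter, MonoidHom.mem_ker, powMonoidHom_apply] at hu
        rw [hT, mem_filter]
        exact ⟨mem_univ _, hu.2⟩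
      omega

end Pool.Agent.H482.WT
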