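import Mathlib
import Pool.Agent.H482.WT.UniC
import Pool.Agent.H482.WT.Lia
import Pool.Agent.H482.WT.StmD

/-! An upper bound for the weight of the nonwitnesses, without exceptions. -/

set_option autoImplicit false

namespace Pool.Agent.H482.WT

open Finset Real

open Pool.Agent.H379R2.W (Passes v2 not_dvd_of_passes pow_of_passes)

theorem norm_le_wt {n : ℕ} (χ : DirichletCharacter ℂ n) (P : Finset ℕ) :
    ‖∑ b ∈ P, χ (b : ZMod n) / b‖ ≤ wt P := by
  refine (norm_sum_le _ _).trans (sum_le_sum fun b _ => ?_)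
  rw [norm_div, Complex.norm_natCast]
  exact div_le_div_of_nonneg_right (DirichletCharacter.norm_le_one _ _) (Nat.cast_nonneg _)

open Classical in
/-- the characters in `X` whose primitive character is exceptional -/
noncomputable def badX {n : ℕ} (X : Finset (DirichletCharacter ℂ n))
    (E : Finset (Σ f : ℕ, DirichletCharacter ℂ f)) : Finset (DirichletCharacter ℂ n) :=
  X.filter (fun χ => (⟨χ.conductor, χ.primitiveCharacter⟩ : Σ f : ℕ, DirichletCharacter ℂ f) ∈ E)

theorem badX_card {n : ℕ} [NeZero n] (X : Finset (DirichletCharacter ℂ n))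
    (E : Finset (Σ f : ℕ, DirichletCharacter ℂ f)) : (badX X E).card ≤ E.card := by
  classical
  apply card_le_card_of_injOn
    (fun χ => (⟨χ.conductor, χ.primitiveCharacter⟩ : Σ f : ℕ, DirichletCharacter ℂ f))
  · intro χ hχ
    unfold badX at hχ
    rw [mem_coe, mem_filter] at hχ
    exact hχ.2
  · set r : (Σ f : ℕ, DirichletCharacter ℂ f) → DirichletCharacter ℂ n := fun e =>
      if h : e.1 ∣ n then DirichletCharacter.changeLevel h e.2 else 1 with hr
    have h1 : ∀ χ : DirichletCharacter ℂ n,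
        r (⟨χ.conductor, χ.primitiveCharacter⟩ : Σ f : ℕ, DirichletCharacter ℂ f) = χ := by
      intro χ
      simp only [hr]
      rw [dif_pos χ.conductor_dvd_level]
      exact χ.changeLevel_primitiveCharacter
    intro χ _ χ' _ h
    have h2 := congrArg r h
    simp only [h1] at h2
    exact h2

/-- the prime factors of `n` are negligible, uniformly -/
theorem dv_uni (θ ε : ℝ) (hθ : 0 < θ) (hε0 : 0 < ε) : ∃ K c : ℝ, 1 ≤ K ∧ 0 ≤ c ∧
    ∀ x y : ℕ, 2 ≤ y → y ≤ x → (K * (log x / log y)) ^ c < y →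
      ∀ P : Finset ℕ, P ⊆ PR ⌊(y : ℝ) ^ θ⌋₊ y → ∀ n : ℕ, 1 ≤ n → n ≤ x → dv P n ≤ ε := by
  obtain ⟨y2, hy2⟩ := scale θ hθ
  set K : ℝ := 2 / (θ * ε) + y2 + 1 with hK
  have hK1 : 1 ≤ K := by
    have h2 : (0 : ℝ) ≤ y2 := Nat.cast_nonneg _
    have h3 : 0 < 2 / (θ * ε) := by positivity
    linarith
  set c : ℝ := 2 / θ + 1 with hc
  have hc0 : 1 ≤ c := by
    have : 0 < 2 / θ := by positivity
    linarith
  refine ⟨K, c, hK1, by linarith, fun x y hy hyx hcase P hP n hn hnx => ?_⟩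
  obtain ⟨hly, hu1, hxu, hx0⟩ := base_facts hy hyx
  set u := log (x : ℝ) / log y with hu
  have hKu : K * u ≤ (K * u) ^ c := by
    have h1 : 1 ≤ K * u := by nlinarith
    calc K * u = (K * u) ^ (1 : ℝ) := (Real.rpow_one _).symm
      _ ≤ _ := Real.rpow_le_rpow_of_exponent_le h1 hc0
  have hyK : K ≤ y := by nlinarith
  have hy2' : y2 ≤ y := by
    have h1 : (y2 : ℝ) ≤ y := by
      have h3 : 0 < 2 / (θ * ε) := by positivity
      linarith
    exact_mod_cast h1
  obtain ⟨hz2, hzy, -⟩ := hy2 y hy2'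
  set z := ⌊(y : ℝ) ^ θ⌋₊ with hz
  have hz1 : (1 : ℝ) < z := by exact_mod_cast (by omega : 1 < z)
  have hlz : 0 < log (z : ℝ) := Real.log_pos hz1
  have hy0 : (0 : ℝ) < y := by linarith
  have hlzy : θ / 2 * log y ≤ log (z : ℝ) := by
    have h1 := Real.log_le_log (by positivity) hzy
    rwa [Real.log_rpow hy0] at h1
  have hzK : K * u ≤ z := by
    have h1 : K * u ≤ (y : ℝ) ^ (θ / 2) := by
      have h2 : ((K * u) ^ c) ^ (θ / 2) ≤ (y : ℝ) ^ (θ / 2) :=
        Real.rpow_le_rpow (by positivity) hcase.le (by positivity)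
      rw [← Real.rpow_mul (by positivity)] at h2
      have h3 : 1 ≤ c * (θ / 2) := by
        rw [hc]
        have : (2 / θ + 1) * (θ / 2) = 1 + θ / 2 := by field_simp
        rw [this]; linarith
      have h4 : 1 ≤ K * u := by nlinarith
      calc K * u = (K * u) ^ (1 : ℝ) := (Real.rpow_one _).symm
        _ ≤ (K * u) ^ (c * (θ / 2)) := Real.rpow_le_rpow_of_exponent_le h4 h3
        _ ≤ _ := h2
    exact h1.trans hzy
  have h1 := dv_le x z y hz2 P hP n hn hnx
  refine h1.trans ?_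
  have h2 : log (x : ℝ) / log z ≤ 2 / θ * u := by
    rw [div_le_iff₀ hlz]
    calc log (x : ℝ) = 2 / θ * u * (θ / 2 * log y) := by rw [hxu]; field_simp
      _ ≤ 2 / θ * u * log z := mul_le_mul_of_nonneg_left hlzy (by positivity)
  have hKpos : 0 < K := by linarith
  have hupos : 0 < u := by linarith
  calc log (x : ℝ) / log z / z ≤ (2 / θ * u) / (K * u) := by
        apply div_le_div₀ (by positivity) h2 (by positivity) hzK
    _ = 2 / (θ * K) := by field_simp
    _ ≤ ε := by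
        rw [div_le_iff₀ (by positivity)]
        have h3 : 2 / (θ * ε) ≤ K := by
          have h2 : (0 : ℝ) ≤ y2 := Nat.cast_nonneg _
          linarith
        rw [div_le_iff₀ (by positivity)] at h3
        linarith

theorem pcn_pos {n : ℕ} (hn : 2 ≤ n) : 1 ≤ pcn n := by
  classical
  unfold pcn
  apply card_pos.2
  refine ⟨1, ?_⟩
  rw [mem_filter, mem_range]
  refine ⟨by omega, ?_⟩
  obtain ⟨j, d, hd, hjd⟩ := Nat.exists_eq_two_pow_mul_odd (show n - 1 ≠ 0 by omega)
  exact ⟨j, d, hjd, hd, Or.inl (by simp)⟩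

theorem upU (hM : S_MOM) (hD : S_DUA) (θ η : ℝ) (hθ : 0 < θ) (hη : 0 < η) : ∃ C : ℝ, 0 < C ∧
    ∀ x y : ℕ, 2 ≤ y → y ≤ x → ∀ P : Finset ℕ, P ⊆ PR ⌊(y : ℝ) ^ θ⌋₊ y →
      ∀ n : ℕ, 2 ≤ n → n ≤ x →
        pw P n ≤ BD C x y * ((pcn n : ℝ) / (Nat.totient n : ℝ)) * wt P + η := by
  classical
  set ε := η / 2 with hε
  have hε0 : 0 < ε := by positivity
  obtain ⟨C1, hC1, hF⟩ := few_uni hM θ ε hθ hε0
  obtain ⟨K, c, hK, hc, hdv⟩ := dv_uni θ ε hθ hε0
  obtain ⟨C2, hC2, hT⟩ := triv_case K c hK hc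
  refine ⟨max (C1 + 1) C2, lt_max_of_lt_right hC2, fun x y hy hyx P hPP n hn hnx => ?_⟩
  have hφ : (0 : ℝ) < Nat.totient n := by exact_mod_cast Nat.totient_pos.2 (by omega)
  have hw0 := wt_nonneg P
  have hpcn : (1 : ℝ) ≤ pcn n := by exact_mod_cast pcn_pos hn
  have hratio : 0 ≤ (pcn n : ℝ) / (Nat.totient n : ℝ) := by positivity
  have hPp := PR_prime hPP
  by_cases hcase : (y : ℝ) ≤ (K * (log x / log y)) ^ c
  · have h1 := hT x y hy hyx hcase
    have h2 := BD_mono (le_max_right (C1 + 1) C2) hy hyx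
    have hx1 : (1 : ℝ) ≤ x := by exact_mod_cast (by omega : 1 ≤ x)
    have h3 : 1 / (x : ℝ) ≤ (pcn n : ℝ) / (Nat.totient n : ℝ) := by
      apply div_le_div₀ (by linarith) hpcn hφ
      exact_mod_cast (Nat.totient_le n).trans hnx
    have h4 : 1 ≤ BD (max (C1 + 1) C2) x y * ((pcn n : ℝ) / (Nat.totient n : ℝ)) := by
      calc (1 : ℝ) ≤ (x : ℝ) ^ 2 * (1 / x) := by
            rw [sq, mul_assoc, mul_one_div_cancel (by positivity), mul_one]
            exact hx1
        _ ≤ _ := mul_le_mul (h1.trans h2) h3 (by positivity) (BD_pos _ _ _).le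
    have h5 : pw P n ≤ wt P := wt_mono (filter_subset _ _)
    nlinarith
  push Not at hcase
  have hdvn := hdv x y hy hyx hcase P hPP n (by omega) hnx
  obtain ⟨E, hE, hE1⟩ := hF x y hy hyx P hPP
  obtain ⟨G, hG1, hG2⟩ := liar_group n hn
  obtain ⟨X, hX1, hX2, hX3⟩ := hD n (by omega) G
  have : NeZero n := ⟨by omega⟩
  set Q := P.filter (fun b => Passes n b) with hQ
  set N : ℝ := (X.card : ℝ) with hN
  have hNG : N * Nat.card G = Nat.totient n := by
    rw [hN]
    exact_mod_cast hX1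
  have hN0 : 0 < N := by
    rcases (Nat.cast_nonneg X.card : (0 : ℝ) ≤ X.card).lt_or_eq with h | h
    · exact h
    · exfalso
      rw [hN, ← h, zero_mul] at hNG
      exact hφ.ne hNG
  have h1 : N * wt Q ≤ ∑ b ∈ P, (1 / (b : ℝ)) * (∑ χ ∈ X, χ (b : ZMod n)).re := by
    calc N * wt Q = ∑ b ∈ Q, (1 / (b : ℝ)) * (∑ χ ∈ X, χ (b : ZMod n)).re := by
          unfold wt
          rw [mul_sum]
          apply sum_congr rfl
          intro b hb
          rw [hQ, mem_filter] at hb
          have hu : IsUnit (b : ZMod n) :=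
            IsUnit.of_pow_eq_one (pow_of_passes hb.2) (by omega)
          obtain ⟨v, hv⟩ := hu
          have h2 := hG1 b hb.2 v hv
          have h3 : ∑ χ ∈ X, χ (b : ZMod n) = ∑ _χ ∈ X, (1 : ℂ) :=
            sum_congr rfl fun χ hχ => by rw [← hv]; exact hX3 v h2 χ hχ
          rw [h3, sum_const, nsmul_eq_mul, mul_one, Complex.natCast_re, hN]
          ring
      _ ≤ _ := by
          apply sum_le_sum_of_subset_of_nonneg (filter_subset _ _)
          intro b _ _
          exact mul_nonneg (by positivity) (hX2 b)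
  have h2 : ∑ b ∈ P, (1 / (b : ℝ)) * (∑ χ ∈ X, χ (b : ZMod n)).re =
      (∑ χ ∈ X, ∑ b ∈ P, χ (b : ZMod n) / b).re := by
    rw [sum_comm, Complex.re_sum]
    apply sum_congr rfl
    intro b _
    have h3 : ∑ χ ∈ X, χ (b : ZMod n) / (b : ℂ) =
        ((1 / (b : ℝ) : ℝ) : ℂ) * ∑ χ ∈ X, χ (b : ZMod n) := by
      rw [mul_sum]
      apply sum_congr rfl
      intro χ _
      push_cast
      ring
    rw [h3, Complex.re_ofReal_mul]
  have h3 : (∑ χ ∈ X, ∑ b ∈ P, χ (b : ZMod n) / b).re ≤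
      ∑ χ ∈ X, ‖∑ b ∈ P, χ (b : ZMod n) / b‖ :=
    (Complex.re_le_norm _).trans (norm_sum_le _ _)
  have h4 : ∑ χ ∈ X, ‖∑ b ∈ P, χ (b : ZMod n) / b‖ ≤
      ∑ χ ∈ X, ((if χ ∈ badX X E then wt P else 0) + (ε + ε)) := by
    apply sum_le_sum
    intro χ hχ
    by_cases h5 : χ ∈ badX X E
    · rw [if_pos h5]
      have := norm_le_wt χ P
      linarith
    · rw [if_neg h5, zero_add]
      refine (sum_prim χ P hPp).trans ?_
      have hcn : χ.conductor ∣ n := χ.conductor_dvd_level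
      have h6 := hE1 χ.conductor χ.primitiveCharacter (Nat.pos_of_dvd_of_pos hcn (by omega))
        ((Nat.le_of_dvd (by omega) hcn).trans hnx) χ.primitiveCharacter_isPrimitive (by
          intro hmem
          apply h5
          unfold badX
          rw [mem_filter]
          exact ⟨hχ, hmem⟩)
      linarith
  have h5 : ∑ χ ∈ X, ((if χ ∈ badX X E then wt P else 0) + (ε + ε)) ≤
      (badX X E).card * wt P + N * (ε + ε) := by
    rw [sum_add_distrib, sum_const, nsmul_eq_mul, ← hN]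
    have h6 : ∑ χ ∈ X, (if χ ∈ badX X E then wt P else 0) = (badX X E).card * wt P := by
      rw [sum_ite_mem, sum_const, nsmul_eq_mul]
      congr 2
      congr 1
      apply inter_eq_right.2
      unfold badX
      exact filter_subset _ _
    rw [h6]
  have h6 : ((badX X E).card : ℝ) ≤ BD C1 x y := by
    refine le_trans ?_ hE
    exact_mod_cast badX_card X E
  have h7 : N * wt Q ≤ BD C1 x y * wt P + N * η := by
    have h8 : ((badX X E).card : ℝ) * wt P ≤ BD C1 x y * wt P :=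
      mul_le_mul_of_nonneg_right h6 hw0
    calc N * wt Q ≤ _ := h1
      _ = _ := h2
      _ ≤ _ := h3
      _ ≤ _ := h4
      _ ≤ _ := h5
      _ ≤ BD C1 x y * wt P + N * (ε + ε) := by linarith
      _ = _ := by rw [hε]; ring
  have hGc : (Nat.card G : ℝ) ≤ 2 * pcn n := by exact_mod_cast hG2
  have hinv : 1 / N ≤ 2 * ((pcn n : ℝ) / (Nat.totient n : ℝ)) := by
    rw [div_le_iff₀ hN0]
    have h8 : (Nat.totient n : ℝ) ≤ N * (2 * pcn n) := by
      rw [← hNG]
      exact mul_le_mul_of_nonneg_left hGc hN0.le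
    have h9 : (1 : ℝ) ≤ N * (2 * pcn n) / Nat.totient n := by
      rw [le_div_iff₀ hφ, one_mul]
      exact h8
    calc (1 : ℝ) ≤ N * (2 * pcn n) / Nat.totient n := h9
      _ = _ := by ring
  have h8 : pw P n ≤ 1 / N * (BD C1 x y * wt P) + η := by
    have h9 : N * wt Q ≤ N * (1 / N * (BD C1 x y * wt P) + η) := by
      calc N * wt Q ≤ _ := h7
        _ = _ := by field_simp
    exact le_of_mul_le_mul_left h9 hN0
  have h9 : 0 ≤ BD C1 x y * wt P := mul_nonneg (BD_pos _ _ _).le hw0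
  have h10 := two_le_BD hy hyx
  calc pw P n ≤ 1 / N * (BD C1 x y * wt P) + η := h8
    _ ≤ 2 * ((pcn n : ℝ) / (Nat.totient n : ℝ)) * (BD C1 x y * wt P) + η := by
        have := mul_le_mul_of_nonneg_right hinv h9
        linarith
    _ ≤ BD 1 x y * ((pcn n : ℝ) / (Nat.totient n : ℝ)) * (BD C1 x y * wt P) + η := by
        have := mul_le_mul_of_nonneg_right (mul_le_mul_of_nonneg_right h10 hratio) h9
        linarith
    _ = BD (C1 + 1) x y * ((pcn n : ℝ) / (Nat.totient n : ℝ)) * wt P + η := by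
        rw [← BD_mul]
        ring
    _ ≤ _ := by
        have h11 := BD_mono (le_max_left (C1 + 1) C2) hy hyx
        have := mul_le_mul_of_nonneg_right (mul_le_mul_of_nonneg_right h11 hratio) hw0
        linarith

end Pool.Agent.H482.WT
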