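import Mathlib
import Pool.Agent.H482.WT.Fam
import Pool.Agent.H482.WT.Ls
import Pool.Graph.R_seed8.R496.SmoothN

/-! Counting the primitive characters which are trivial on the small primes, and the composite
numbers without a small witness. -/

set_option autoImplicit false

namespace Pool.Agent.H482.WT

open Finset

open Pool.Agent.H379R2.W (Passes v2 not_dvd_of_passes)
open Pool.Agent.R496 (ysm mem_ysm smooth_low no_square)

/-- `f` is the conductor of a primitive character which is one on all primes up to `y` -/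
def BadC (y f : ℕ) : Prop :=
  ∃ χ : DirichletCharacter ℂ f, χ.IsPrimitive ∧ ∀ l : ℕ, l.Prime → l ≤ y → χ (l : ZMod f) = 1

theorem one_of_primes {f : ℕ} (χ : DirichletCharacter ℂ f) (y : ℕ)
    (h : ∀ l : ℕ, l.Prime → l ≤ y → χ (l : ZMod f) = 1) :
    ∀ s : ℕ, 1 ≤ s → (∀ l : ℕ, l.Prime → l ∣ s → l ≤ y) → χ (s : ZMod f) = 1 := by
  intro s
  induction s using Nat.strong_induction_on with
  | _ s ih =>
    intro hs hl
    rcases Nat.eq_or_lt_of_le hs with h1 | h1
    · rw [← h1]; simp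
    · obtain ⟨t, ht⟩ := Nat.minFac_dvd s
      have hp : s.minFac.Prime := Nat.minFac_prime (by omega)
      have ht0 : 0 < t := by
        rcases Nat.eq_zero_or_pos t with h2 | h2
        · rw [h2, mul_zero] at ht; omega
        · exact h2
      have hts : t < s := by
        have h3 := hp.two_le
        have h4 : 2 * t ≤ s.minFac * t := Nat.mul_le_mul_right t h3
        omega
      have h5 := ih t hts ht0 (fun l hl1 hlt => hl l hl1 (hlt.trans ⟨s.minFac, by rw [mul_comm]; exact ht⟩))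
      have h6 := h s.minFac hp (hl _ hp (Nat.minFac_dvd s))
      rw [ht]
      push_cast
      rw [map_mul, h5, h6, one_mul]

theorem bad_count : ∃ K : ℝ, 8 ≤ K ∧ ∀ x y j : ℕ, 1 ≤ j → 256 ≤ y → j ^ 4 ≤ y → x ^ 2 ≤ y ^ j →
    ∀ B : Finset ℕ, (∀ f ∈ B, 1 ≤ f ∧ f ≤ x ∧ BadC y f) →
      (B.card : ℝ) ≤ 12 * (K * (j : ℝ) ^ 2) ^ j := by
  classical
  obtain ⟨K, hK8, hK⟩ := smooth_low
  refine ⟨K, hK8, fun x y j hj hy hjy hxy B hB => ?_⟩
  have hlow := hK y j hj hy hjy
  set N := y ^ j with hN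
  set S := ysm y N with hS
  set α : ℕ → ℂ := fun n => if n ∈ S then 1 else 0 with hα
  have hls := Pool.Agent.Helper112.mult_large_sieve N x α
  have hαsum : ∑ n ∈ Icc 1 N, ‖α n‖ ^ 2 = S.card := by
    have h1 : ∀ n ∈ Icc 1 N, ‖α n‖ ^ 2 = if n ∈ S then (1 : ℝ) else 0 := by
      intro n _
      simp only [hα]
      split_ifs <;> simp
    rw [sum_congr rfl h1, sum_ite_mem, sum_const, nsmul_eq_mul, mul_one]
    congr 2
    apply inter_eq_right.2
    intro n hn
    rw [hS, mem_ysm] at hn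
    exact mem_Icc.2 hn.1
  rw [hαsum] at hls
  have hlower : (B.card : ℝ) * (S.card : ℝ) ^ 2 ≤ ∑ f ∈ Icc 1 x, ((f : ℝ) / (Nat.totient f : ℝ)) *
      ∑ χ ∈ (univ : Finset (DirichletCharacter ℂ f)).filter (fun χ => χ.IsPrimitive),
        ‖∑ n ∈ Icc 1 N, α n * χ (n : ZMod f)‖ ^ 2 := by
    calc (B.card : ℝ) * (S.card : ℝ) ^ 2 = ∑ _f ∈ B, (S.card : ℝ) ^ 2 := by
          rw [sum_const, nsmul_eq_mul]
      _ ≤ ∑ f ∈ B, ((f : ℝ) / (Nat.totient f : ℝ)) *
          ∑ χ ∈ (univ : Finset (DirichletCharacter ℂ f)).filter (fun χ => χ.IsPrimitive),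
            ‖∑ n ∈ Icc 1 N, α n * χ (n : ZMod f)‖ ^ 2 := by
          apply sum_le_sum
          intro f hf
          obtain ⟨h1, h2, χ, hχ, hχ1⟩ := hB f hf
          have h3 : ∑ n ∈ Icc 1 N, α n * χ (n : ZMod f) = S.card := by
            have h4 : ∀ n ∈ Icc 1 N, α n * χ (n : ZMod f) = if n ∈ S then (1 : ℂ) else 0 := by
              intro n _
              simp only [hα]
              split_ifs with h5
              · rw [hS, mem_ysm] at h5
                rw [one_of_primes χ y hχ1 n h5.1.1 h5.2, one_mul]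
              · rw [zero_mul]
            rw [sum_congr rfl h4, sum_ite_mem, sum_const, nsmul_eq_mul, mul_one]
            congr 2
            apply inter_eq_right.2
            intro n hn
            rw [hS, mem_ysm] at hn
            exact mem_Icc.2 hn.1
          have h5 : (S.card : ℝ) ^ 2 ≤
              ∑ χ ∈ (univ : Finset (DirichletCharacter ℂ f)).filter (fun χ => χ.IsPrimitive),
                ‖∑ n ∈ Icc 1 N, α n * χ (n : ZMod f)‖ ^ 2 := by
            have h6 := single_le_sum (f := fun χ : DirichletCharacter ℂ f =>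
                ‖∑ n ∈ Icc 1 N, α n * χ (n : ZMod f)‖ ^ 2)
              (s := (univ : Finset (DirichletCharacter ℂ f)).filter (fun χ => χ.IsPrimitive))
              (fun _ _ => by positivity) (mem_filter.2 ⟨mem_univ χ, hχ⟩)
            refine le_trans (le_of_eq ?_) h6
            simp only [h3, Complex.norm_natCast]
          have h7 : (1 : ℝ) ≤ (f : ℝ) / (Nat.totient f : ℝ) := by
            have h8 : 0 < Nat.totient f := Nat.totient_pos.2 (by omega)
            rw [le_div_iff₀ (by exact_mod_cast h8), one_mul]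
            exact_mod_cast Nat.totient_le f
          calc (S.card : ℝ) ^ 2 = 1 * (S.card : ℝ) ^ 2 := by ring
            _ ≤ _ := mul_le_mul h7 h5 (by positivity) (by linarith)
      _ ≤ _ := by
          apply sum_le_sum_of_subset_of_nonneg
          · intro f hf
            obtain ⟨h1, h2, -⟩ := hB f hf
            exact mem_Icc.2 ⟨h1, h2⟩
          · intro f _ _
            have : (0 : ℝ) ≤ ∑ χ ∈ (univ : Finset (DirichletCharacter ℂ f)).filter
                (fun χ => χ.IsPrimitive), ‖∑ n ∈ Icc 1 N, α n * χ (n : ZMod f)‖ ^ 2 :=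
              sum_nonneg fun _ _ => by positivity
            positivity
  have h1S : 1 ∈ S := by
    rw [hS, mem_ysm]
    refine ⟨⟨le_rfl, Nat.one_le_pow _ _ (by omega)⟩, fun p hp hp1 => ?_⟩
    have := Nat.le_of_dvd one_pos hp1
    have := hp.two_le
    omega
  have hSpos : (0 : ℝ) < S.card := by
    exact_mod_cast card_pos.2 ⟨1, h1S⟩
  have hxN : (x : ℝ) ^ 2 ≤ N := by exact_mod_cast hxy
  have h2 : (B.card : ℝ) * (S.card : ℝ) ^ 2 ≤ 12 * N * S.card := by
    refine (hlower.trans hls).trans ?_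
    apply mul_le_mul_of_nonneg_right _ hSpos.le
    linarith
  have h3 : (B.card : ℝ) * S.card ≤ 12 * N := by
    have h4 : (B.card : ℝ) * S.card * S.card ≤ 12 * N * S.card := by
      calc (B.card : ℝ) * S.card * S.card = (B.card : ℝ) * (S.card : ℝ) ^ 2 := by ring
        _ ≤ _ := h2
    exact le_of_mul_le_mul_right h4 hSpos
  have h4 : (N : ℝ) ≤ S.card * (K * (j : ℝ) ^ 2) ^ j := by
    rw [hN]; push_cast; exact hlow
  have h5 : (B.card : ℝ) * S.card ≤ 12 * (K * (j : ℝ) ^ 2) ^ j * S.card := by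
    calc (B.card : ℝ) * S.card ≤ 12 * N := h3
      _ ≤ 12 * (S.card * (K * (j : ℝ) ^ 2) ^ j) := by linarith
      _ = _ := by ring
  exact le_of_mul_le_mul_right h5 hSpos

/-- an integer that passes for all small bases is the least common multiple of two bad conductors -/
theorem exc_lcm (hP : S_PSI) (hPr : S_PROD) (n y : ℕ) (hn : 2 ≤ n) (hsq : Squarefree n)
    (hnp : ¬ n.Prime) (hy : 2 ≤ y) (hpass : ∀ b : ℕ, 1 < b → b ≤ y → Passes n b) :
    ∃ m0 m1 : ℕ, (1 ≤ m0 ∧ m0 ≤ n ∧ BadC y m0) ∧ (1 ≤ m1 ∧ m1 ≤ n ∧ BadC y m1) ∧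
      n = Nat.lcm m0 m1 := by
  classical
  have h2n : ¬ 2 ∣ n := fun h =>
    not_dvd_of_passes hn Nat.prime_two h (hpass 2 (by norm_num) hy) (dvd_refl 2)
  obtain ⟨ψ, hψ1, hψ2⟩ := fam hP n hn
  have hne2 : ∀ p ∈ n.primeFactors, p ≠ 2 := by
    rintro p hp rfl
    exact h2n (Nat.dvd_of_mem_primeFactors hp)
  have hprodn : ∏ p ∈ n.primeFactors, p = n := Nat.prod_primeFactors_of_squarefree hsq
  -- even subsets
  have hev : ∀ A : Finset ℕ, A ⊆ n.primeFactors → Even A.card →
      1 ≤ ∏ p ∈ A, p ∧ ∏ p ∈ A, p ≤ n ∧ BadC y (∏ p ∈ A, p) := by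
    intro A hA hAe
    have hApr : ∀ p ∈ A, p.Prime := fun p hp => Nat.prime_of_mem_primeFactors (hA hp)
    have hpos : 1 ≤ ∏ p ∈ A, p := Finset.prod_pos fun p hp => (hApr p hp).pos
    have hdvd : ∏ p ∈ A, p ∣ n := by
      calc ∏ p ∈ A, p ∣ ∏ p ∈ n.primeFactors, p := prod_dvd_prod_of_subset _ _ _ hA
        _ = n := hprodn
    refine ⟨hpos, Nat.le_of_dvd (by omega) hdvd, ?_⟩
    obtain ⟨χ, hχ1, hχ2⟩ := hPr A ψ hApr (fun p hp => hψ1 p (hA hp) (hne2 p (hA hp)))
    refine ⟨χ, hχ1, fun l hl hly => ?_⟩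
    obtain ⟨s, hs, -, hs2⟩ := hψ2 l (hpass l hl.one_lt hly)
    rw [hχ2 l, prod_congr rfl (fun p hp => hs2 p (hA hp) (hne2 p (hA hp))), prod_const]
    rcases hs with hs | hs
    · rw [hs, one_pow]
    · rw [hs, hAe.neg_one_pow]
  by_cases hE : Even n.primeFactors.card
  · obtain ⟨h1, h2, h3⟩ := hev n.primeFactors (subset_refl _) hE
    rw [hprodn] at h1 h2 h3
    exact ⟨n, n, ⟨h1, h2, h3⟩, ⟨h1, h2, h3⟩, (Nat.lcm_self n).symm⟩
  · rw [Nat.not_even_iff_odd] at hE
    have hcard : 2 ≤ n.primeFactors.card := by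
      by_contra hcon
      have h1 : n.primeFactors.card = 1 := by
        obtain ⟨a, ha⟩ := hE
        omega
      obtain ⟨p, hp⟩ := card_eq_one.1 h1
      rw [hp, prod_singleton] at hprodn
      have : p ∈ n.primeFactors := by rw [hp]; exact mem_singleton_self p
      exact hnp (hprodn ▸ Nat.prime_of_mem_primeFactors this)
    obtain ⟨p0, hp0, p1, hp1, hne⟩ := one_lt_card.1 (by omega : 1 < n.primeFactors.card)
    have he : ∀ p ∈ n.primeFactors, Even (n.primeFactors.erase p).card := by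
      intro p hp
      rw [card_erase_of_mem hp]
      obtain ⟨a, ha⟩ := hE
      exact ⟨a, by omega⟩
    set m0 := ∏ p ∈ n.primeFactors.erase p0, p with hm0
    set m1 := ∏ p ∈ n.primeFactors.erase p1, p with hm1
    have hn0 : p0 * m0 = n := by
      rw [hm0, mul_prod_erase _ (fun p => p) hp0, hprodn]
    have hn1 : p1 * m1 = n := by
      rw [hm1, mul_prod_erase _ (fun p => p) hp1, hprodn]
    refine ⟨m0, m1, hev _ (erase_subset _ _) (he p0 hp0), hev _ (erase_subset _ _) (he p1 hp1), ?_⟩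
    apply Nat.dvd_antisymm
    · have hcop : Nat.Coprime p0 m0 := by
        rw [hm0]
        apply Nat.Coprime.prod_right
        intro q hq
        rw [mem_erase] at hq
        exact (Nat.coprime_primes (Nat.prime_of_mem_primeFactors hp0)
          (Nat.prime_of_mem_primeFactors hq.2)).2 (Ne.symm hq.1)
      calc n = p0 * m0 := hn0.symm
        _ ∣ Nat.lcm m0 m1 := by
            apply hcop.mul_dvd_of_dvd_of_dvd
            · have : p0 ∣ m1 := by
                rw [hm1]
                exact dvd_prod_of_mem _ (mem_erase.2 ⟨hne, hp0⟩)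
              exact this.trans (Nat.dvd_lcm_right _ _)
            · exact Nat.dvd_lcm_left _ _
    · exact Nat.lcm_dvd (Dvd.intro_left p0 hn0) (Dvd.intro_left p1 hn1)

end Pool.Agent.H482.WT
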