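import Mathlib
import Pool.Agent.H482.WT.StmD

/-! Task DUA of project WT (helper482, MP_0b15c0_nt). -/

set_option autoImplicit false

namespace Pool.Agent.H482.WT

open Finset

theorem Dua_roots (Q : Type) [CommGroup Q] [Finite Q] : Nat.card (Q →* ℂˣ) = Nat.card Q := by
  have he : NeZero (Monoid.exponent Q) := ⟨Monoid.exponent_ne_zero_of_finite⟩
  have he' : NeZero ((Monoid.exponent Q : ℕ) : ℂ) := ⟨Nat.cast_ne_zero.2 he.out⟩
  exact CommGroup.card_monoidHom_of_hasEnoughRootsOfUnity Q ℂ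

theorem Dua_card (n : ℕ) [NeZero n] (G : Subgroup (ZMod n)ˣ) :
    Nat.card {χ : DirichletCharacter ℂ n // ∀ u : (ZMod n)ˣ, u ∈ G → χ (u : ZMod n) = 1} =
      Nat.card ((ZMod n)ˣ ⧸ G) := by
  rw [← Dua_roots ((ZMod n)ˣ ⧸ G)]
  have key : ∀ (χ : DirichletCharacter ℂ n) (u : (ZMod n)ˣ), χ (u : ZMod n) = 1 ↔
      MulChar.equivToUnitHom χ u = 1 := by
    intro χ u
    rw [← MulChar.coe_equivToUnitHom χ u, Units.val_eq_one]
  refine Nat.card_eq_of_bijective (fun χ => QuotientGroup.lift G (MulChar.equivToUnitHom χ.1)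
    fun u hu => (key χ.1 u).1 (χ.2 u hu)) ⟨?_, ?_⟩
  · intro χ χ' h
    apply Subtype.ext
    apply MulChar.equivToUnitHom.injective
    refine MonoidHom.ext fun u => ?_
    have h1 := DFunLike.congr_fun h (QuotientGroup.mk u)
    exact h1
  · intro f
    refine ⟨⟨MulChar.equivToUnitHom.symm (f.comp (QuotientGroup.mk' G)), fun u hu => ?_⟩, ?_⟩
    · rw [key, Equiv.apply_symm_apply, MonoidHom.comp_apply, QuotientGroup.mk'_apply,
        (QuotientGroup.eq_one_iff u).2 hu, map_one]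
    · apply QuotientGroup.monoidHom_ext
      refine MonoidHom.ext fun u => ?_
      have h1 := Equiv.apply_symm_apply MulChar.equivToUnitHom (f.comp (QuotientGroup.mk' G))
      have h2 := DFunLike.congr_fun h1 u
      exact h2

theorem dua : S_DUA := by
  classical
  intro n hn G
  have hne : NeZero n := ⟨by omega⟩
  set X : Finset (DirichletCharacter ℂ n) :=
    (Set.toFinite {χ : DirichletCharacter ℂ n | ∀ u : (ZMod n)ˣ, u ∈ G →
      χ (u : ZMod n) = 1}).toFinset with hX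
  have hmem : ∀ χ, χ ∈ X ↔ ∀ u : (ZMod n)ˣ, u ∈ G → χ (u : ZMod n) = 1 := by
    intro χ
    rw [hX, Set.Finite.mem_toFinset]
    rfl
  have hcard : X.card = Nat.card ((ZMod n)ˣ ⧸ G) := by
    rw [← Dua_card n G, hX, ← Set.ncard_eq_toFinset_card]
    rfl
  have hmul : ∀ χ χ' : DirichletCharacter ℂ n, χ ∈ X → χ' ∈ X → χ * χ' ∈ X := by
    intro χ χ' h h'
    rw [hmem] at h h' ⊢
    intro u hu
    rw [MulChar.mul_apply, h u hu, h' u hu, mul_one]
  have hinv : ∀ χ : DirichletCharacter ℂ n, χ ∈ X → χ⁻¹ ∈ X := by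
    intro χ h
    rw [hmem] at h ⊢
    intro u hu
    rw [MulChar.inv_apply_eq_inv', h u hu, inv_one]
  refine ⟨X, ?_, ?_, fun u hu χ hχ => (hmem χ).1 hχ u hu⟩
  · rw [hcard, ← Subgroup.card_eq_card_quotient_mul_card_subgroup, Nat.card_eq_fintype_card,
      ZMod.card_units_eq_totient]
  · intro b
    by_cases h : ∀ χ ∈ X, χ (b : ZMod n) = 1
    · rw [Finset.sum_congr rfl h, Finset.sum_const, nsmul_eq_mul, mul_one, Complex.natCast_re]
      exact Nat.cast_nonneg _
    · push Not at h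
      obtain ⟨χ1, h1, h2⟩ := h
      have h3 : ∑ χ ∈ X, χ (b : ZMod n) = (∑ χ ∈ X, χ (b : ZMod n)) * χ1 (b : ZMod n) := by
        rw [Finset.sum_mul]
        symm
        refine Finset.sum_bij (fun χ _ => χ * χ1) ?_ ?_ ?_ ?_
        · intro χ hχ
          exact hmul _ _ hχ h1
        · intro χ _ χ' _ hh
          exact mul_right_cancel hh
        · intro χ hχ
          exact ⟨χ * χ1⁻¹, hmul _ _ hχ (hinv _ h1), by simp⟩
        · intro χ _
          rw [MulChar.mul_apply]
      have h4 : (∑ χ ∈ X, χ (b : ZMod n)) * (χ1 (b : ZMod n) - 1) = 0 := by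
        rw [mul_sub, mul_one, ← h3, sub_self]
      rcases mul_eq_zero.1 h4 with h5 | h5
      · rw [h5, Complex.zero_re]
      · exact absurd (sub_eq_zero.1 h5) h2

end Pool.Agent.H482.WT
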