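import Mathlib
import Pool.Graph.R_seed8.H385R2.Gauss
import Pool.Agent.H482.WT.Stm

/-! Gauss sums of induced characters for coefficients coprime to `k` (statement `S_GAU`). -/

set_option autoImplicit false

namespace Pool.Agent.H482.WT

open Finset

theorem gau : S_GAU := by
  intro q k _ _ hk hqk ψ hψ N b hb
  have hk0 : k ≠ 0 := hk.ne_zero
  have hd : q ∣ q * k := Dvd.intro k rfl
  have hinv : (DirichletCharacter.changeLevel hd ψ)⁻¹ = DirichletCharacter.changeLevel hd ψ⁻¹ :=
    (map_inv (DirichletCharacter.changeLevel hd) ψ).symm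
  have hψi : (ψ⁻¹).IsPrimitive := by
    rw [DirichletCharacter.isPrimitive_def, DirichletCharacter.conductor_inv]
    exact hψ
  have hnorm : ‖gaussSum (DirichletCharacter.changeLevel hd ψ)⁻¹
      (ZMod.stdAddChar : AddChar (ZMod (q * k)) ℂ)‖ ^ 2 = q := by
    rw [hinv, ← H385.GaussAux.tau_eq_gaussSum]
    exact H385.tau_induced q k hk hqk ψ⁻¹ hψi
  have hG : ∀ n : ℕ, Nat.Coprime n k →
      gaussSum (DirichletCharacter.changeLevel hd ψ)⁻¹
        ((ZMod.stdAddChar : AddChar (ZMod (q * k)) ℂ).mulShift (n : ZMod (q * k))) =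
      ψ (n : ZMod q) * gaussSum (DirichletCharacter.changeLevel hd ψ)⁻¹
        (ZMod.stdAddChar : AddChar (ZMod (q * k)) ℂ) := by
    intro n hn
    by_cases hnq : Nat.Coprime n q
    · have hu : IsUnit (n : ZMod (q * k)) :=
        (ZMod.isUnit_iff_coprime n (q * k)).mpr (Nat.Coprime.mul_right hnq hn)
      obtain ⟨u, hu⟩ := hu
      rw [← hu, gaussSum_mulShift_eq, inv_inv, hu]
      congr 1
      rw [H385.GaussAux.changeLevel_apply q k hk0 ψ n, if_pos hn, one_mul]
    · have hz : ψ (n : ZMod q) = 0 := by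
        apply MulChar.map_nonunit
        rw [ZMod.isUnit_iff_coprime]
        exact hnq
      rw [hz, zero_mul]
      by_contra hne
      obtain ⟨q', hq'⟩ := Nat.gcd_dvd_right n q
      obtain ⟨n', hn'⟩ := Nat.gcd_dvd_left n q
      set g := Nat.gcd n q with hg
      have hq0 : q ≠ 0 := NeZero.ne q
      have hdm : q' * k ∣ q * k := ⟨g, by rw [hq']; ring⟩
      have hshift : ((ZMod.stdAddChar : AddChar (ZMod (q * k)) ℂ).mulShift
          (n : ZMod (q * k))).mulShift ((q' * k : ℕ) : ZMod (q * k)) = 1 := by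
        rw [AddChar.mulShift_mulShift]
        have : (n : ZMod (q * k)) * ((q' * k : ℕ) : ZMod (q * k)) = 0 := by
          rw [← Nat.cast_mul, ZMod.natCast_eq_zero_iff]
          exact ⟨n', by rw [hq']; nth_rewrite 1 [hn']; ring⟩
        rw [this, AddChar.mulShift_zero]
      have hft := factorsThrough_of_gaussSum_ne_zero _ hdm hshift hne
      have hdvd := DirichletCharacter.conductor_dvd_of_mem_conductorSet _
        ((DirichletCharacter.mem_conductorSet_iff _).2 hft)
      rw [hinv, DirichletCharacter.conductor_changeLevel, hψi] at hdvd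
      have h2 : q ∣ q' := hqk.dvd_of_dvd_mul_right hdvd
      have hq'0 : q' ≠ 0 := by
        rintro rfl
        exact hq0 (by rw [hq', mul_zero])
      have h3 : q ≤ q' := Nat.le_of_dvd (Nat.pos_of_ne_zero hq'0) h2
      have h4 : g ≠ 1 := hnq
      have h5 : g ≠ 0 := by
        rintro h
        exact hq0 (by rw [hq', h, zero_mul])
      have h6 : 2 ≤ g := by omega
      have h7 : 2 * q' ≤ g * q' := Nat.mul_le_mul_right _ h6
      have h8 : 0 < q' := Nat.pos_of_ne_zero hq'0
      omega
  have hsum : ∑ a : ZMod (q * k), (DirichletCharacter.changeLevel hd ψ)⁻¹ a *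
      Pool.Agent.Helper112.MLS.T (q * k) N b a =
      (∑ n ∈ Icc 1 N, b n * ψ (n : ZMod q)) * gaussSum (DirichletCharacter.changeLevel hd ψ)⁻¹
        (ZMod.stdAddChar : AddChar (ZMod (q * k)) ℂ) := by
    unfold Pool.Agent.Helper112.MLS.T
    simp_rw [mul_sum]
    rw [sum_comm, sum_mul]
    apply sum_congr rfl
    intro n _
    by_cases hn : Nat.Coprime n k
    · rw [mul_assoc, ← hG n hn, gaussSum, mul_sum]
      apply sum_congr rfl
      intro a _
      rw [AddChar.mulShift_apply, mul_comm a]
      ring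
    · rw [hb n hn]
      simp
  rw [hsum, norm_mul, mul_pow, hnorm, mul_comm]

end Pool.Agent.H482.WT
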