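import Mathlib
import Pool.Agent.H482.WT.StmC

set_option autoImplicit false

/-!
# Task PRD of project WT (helper142)
-/

namespace Pool.Agent.H482.WT

open Finset

namespace PRD

lemma dprod_apply {R : Type} [CommRing R] {m : ℕ} {ι : Type} (s : Finset ι)
    (f : ι → DirichletCharacter R m) (u : (ZMod m)ˣ) :
    (∏ i ∈ s, f i) (u : ZMod m) = ∏ i ∈ s, f i (u : ZMod m) := by
  classical
  induction s using Finset.induction_on with
  | empty => simp
  | insert a s ha ih =>
    rw [Finset.prod_insert ha, Finset.prod_insert ha, MulChar.mul_apply, ih]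

end PRD

open PRD in
theorem prd : S_PRD := by
  classical
  intro A q ψ hA hco hψ
  have hm0 : (∏ p ∈ A, q p) ≠ 0 := by
    rw [Finset.prod_ne_zero_iff]
    exact fun p hp => (hA p hp).ne'
  generalize hm : (∏ p ∈ A, q p) = m at hm0
  have hdvd : ∀ p ∈ A, q p ∣ m := fun p hp => by
    rw [← hm]; exact Finset.dvd_prod_of_mem _ hp
  have : NeZero m := ⟨hm0⟩
  set χ : DirichletCharacter ℂ m :=
    ∏ p ∈ A.attach, DirichletCharacter.changeLevel (hdvd p.1 p.2) (ψ p.1) with hχ
  have hval : ∀ b : ℕ, χ (b : ZMod m) = ∏ p ∈ A, ψ p (b : ZMod (q p)) := by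
    intro b
    by_cases hb : Nat.Coprime b m
    · have h1 : (b : ZMod m) = ((ZMod.unitOfCoprime b hb : (ZMod m)ˣ) : ZMod m) :=
        (ZMod.coe_unitOfCoprime b hb).symm
      rw [h1, hχ, dprod_apply, ← Finset.prod_attach A (fun p => ψ p (b : ZMod (q p)))]
      refine Finset.prod_congr rfl fun p _ => ?_
      rw [DirichletCharacter.changeLevel_eq_cast_of_dvd, ZMod.coe_unitOfCoprime]
      congr 1
      exact ZMod.cast_natCast (hdvd p.1 p.2) b
    · have h1 : ¬ IsUnit (b : ZMod m) := by
        rw [ZMod.isUnit_iff_coprime]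
        exact hb
      rw [MulChar.map_nonunit _ h1]
      symm
      have h2 : ∃ p ∈ A, ¬ Nat.Coprime b (q p) := by
        by_contra h3
        push Not at h3
        apply hb
        rw [← hm]
        exact Nat.Coprime.prod_right fun p hp => h3 p hp
      obtain ⟨p, hp, hpb⟩ := h2
      refine Finset.prod_eq_zero hp ?_
      apply MulChar.map_nonunit
      rw [ZMod.isUnit_iff_coprime]
      exact hpb
  refine ⟨χ, ?_, hval⟩
  rw [DirichletCharacter.isPrimitive_def]
  have hft := DirichletCharacter.factorsThrough_conductor χ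
  generalize χ.conductor = d at hft
  have key : ∀ p ∈ A, q p ∣ d := by
    intro p hp
    have hqp : NeZero (q p) := ⟨(hA p hp).ne'⟩
    set m' := ∏ r ∈ A.erase p, q r with hm'
    have hmm : q p * m' = m := by rw [hm', ← hm]; exact Finset.mul_prod_erase A (fun r => q r) hp
    have hcop : Nat.Coprime m' (q p) := by
      rw [hm']
      refine Nat.Coprime.prod_left fun r hr => ?_
      rw [Finset.mem_erase] at hr
      exact hco r hr.2 p hp hr.1
    have hgd : Nat.gcd d (q p) ∣ q p := Nat.gcd_dvd_right _ _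
    have hfac : (ψ p).FactorsThrough (Nat.gcd d (q p)) := by
      rw [DirichletCharacter.factorsThrough_iff_ker_unitsMap hgd]
      intro v hv
      rw [MonoidHom.mem_ker] at hv ⊢
      have hv1 : ((v : ZMod (q p)).cast : ZMod (Nat.gcd d (q p))) = 1 := by
        have := congrArg (fun w : (ZMod (Nat.gcd d (q p)))ˣ => (w : ZMod (Nat.gcd d (q p)))) hv
        simpa [ZMod.unitsMap_def] using this
      obtain ⟨c, hc1, hc2⟩ := Nat.chineseRemainder hcop 1 ((v : ZMod (q p))).val
      have hcm' : ∀ r : ℕ, r ∣ m' → (c : ZMod r) = 1 := by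
        intro r hr
        have h1 := (ZMod.natCast_eq_natCast_iff c 1 r).mpr (hc1.of_dvd hr)
        rwa [Nat.cast_one] at h1
      have hcp : (c : ZMod (q p)) = v := by
        rw [(ZMod.natCast_eq_natCast_iff c _ (q p)).mpr hc2, ZMod.natCast_val, ZMod.cast_id]
      have hcg : (c : ZMod (Nat.gcd d (q p))) = 1 := by
        rw [← hv1, ← hcp, ZMod.cast_natCast hgd]
      have hcd : (c : ZMod d) = 1 := by
        have h1 : c ≡ 1 [MOD Nat.gcd d (q p)] := by
          rw [← ZMod.natCast_eq_natCast_iff, hcg, Nat.cast_one]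
        have h2 : c ≡ 1 [MOD Nat.gcd d m'] := hc1.of_dvd (Nat.gcd_dvd_right _ _)
        have h3 : Nat.Coprime (Nat.gcd d (q p)) (Nat.gcd d m') :=
          Nat.Coprime.coprime_dvd_left hgd
            (Nat.Coprime.coprime_dvd_right (Nat.gcd_dvd_right _ _) hcop.symm)
        have h4 : Nat.gcd d (q p) * Nat.gcd d m' = d := by
          rw [← Nat.Coprime.gcd_mul d hcop.symm, hmm]
          exact Nat.gcd_eq_left hft.dvd
        have h5 : c ≡ 1 [MOD d] := by
          rw [← h4]
          exact (Nat.modEq_and_modEq_iff_modEq_mul h3).mp ⟨h1, h2⟩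
        have h6 := (ZMod.natCast_eq_natCast_iff c 1 d).mpr h5
        rwa [Nat.cast_one] at h6
      have hcc : Nat.Coprime c m := by
        rw [← hmm]
        refine Nat.Coprime.mul_right ?_ ?_
        · rw [← ZMod.isUnit_iff_coprime, hcp]
          exact v.isUnit
        · rw [← ZMod.isUnit_iff_coprime, hcm' m' dvd_rfl]
          exact isUnit_one
      have h1 : χ (c : ZMod m) = 1 := by
        rw [hft.eq_changeLevel, ← ZMod.coe_unitOfCoprime c hcc,
          DirichletCharacter.changeLevel_eq_cast_of_dvd, ZMod.coe_unitOfCoprime,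
          ZMod.cast_natCast hft.dvd c, hcd, MulChar.map_one]
      have h2 : χ (c : ZMod m) = ψ p v := by
        rw [hval, ← Finset.mul_prod_erase A (fun r => ψ r (c : ZMod (q r))) hp, hcp]
        rw [Finset.prod_eq_one, mul_one]
        intro r hr
        rw [hcm' (q r) (Finset.dvd_prod_of_mem (fun r => q r) hr), MulChar.map_one]
      apply Units.ext
      rw [MulChar.coe_toUnitHom, Units.val_one, ← h2, h1]
    have h7 := DirichletCharacter.conductor_dvd_of_mem_conductorSet (ψ p)
      ((DirichletCharacter.mem_conductorSet_iff (ψ p)).mpr hfac)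
    rw [(DirichletCharacter.isPrimitive_def (ψ p)).mp (hψ p hp)] at h7
    exact h7.trans (Nat.gcd_dvd_left _ _)
  have hall : ∀ s : Finset ℕ, s ⊆ A → ∏ p ∈ s, q p ∣ d := by
    intro s
    induction s using Finset.induction_on with
    | empty => intro _; simp
    | insert a s ha ih =>
      intro hs
      rw [Finset.prod_insert ha]
      have hs' : s ⊆ A := fun x hx => hs (Finset.mem_insert_of_mem hx)
      refine Nat.Coprime.mul_dvd_of_dvd_of_dvd ?_ (key a (hs (Finset.mem_insert_self a s))) (ih hs')
      refine Nat.Coprime.prod_right fun r hr => ?_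
      exact hco a (hs (Finset.mem_insert_self a s)) r (hs' hr) (fun h => ha (h ▸ hr))
  have hmd : m ∣ d := by rw [← hm]; exact hall A (Finset.Subset.refl A)
  exact Nat.dvd_antisymm hft.dvd hmd

end Pool.Agent.H482.WT
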