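import Mathlib
import Pool.Agent.H482.WT.StmC

set_option autoImplicit false

/-!
# Task PRM of project WT (helper142)
-/

namespace Pool.Agent.H482.WT

open Finset

theorem prm : S_PRM := by
  intro p a hp ha
  have hp0 : 0 < p := hp.pos
  have hn0 : p ^ a ≠ 0 := pow_ne_zero _ hp.ne_zero
  have hnz : NeZero (p ^ a) := ⟨hn0⟩
  obtain ⟨k, rfl⟩ : ∃ k, a = k + 1 := ⟨a - 1, by omega⟩
  have hk : k ≠ 0 := by omega
  have hpk : p ∣ p ^ k := dvd_pow_self p hk
  -- the unit `1 + p ^ k`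
  have hcop : Nat.Coprime (1 + p ^ k) (p ^ (k + 1)) := by
    apply Nat.Coprime.pow_right
    rw [Nat.coprime_comm, Nat.Prime.coprime_iff_not_dvd hp]
    intro h
    have h1 : p ∣ 1 := (Nat.dvd_add_left hpk).mp h
    exact hp.one_lt.ne' (Nat.dvd_one.mp h1)
  have hc1 : ((1 + p ^ k : ℕ) : ZMod (p ^ (k + 1))) ≠ 1 := by
    intro h
    have h1 : ((p ^ k : ℕ) : ZMod (p ^ (k + 1))) = 0 := by
      have h2 : ((1 + p ^ k : ℕ) : ZMod (p ^ (k + 1)))
          = 1 + ((p ^ k : ℕ) : ZMod (p ^ (k + 1))) := by push_cast; ring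
      rw [h2] at h
      simpa using h
    rw [ZMod.natCast_eq_zero_iff] at h1
    have h2 := Nat.le_of_dvd (pow_pos hp0 k) h1
    have h3 : p ^ k < p ^ (k + 1) := Nat.pow_lt_pow_right hp.one_lt (Nat.lt_succ_self k)
    omega
  have hcp : ((1 + p ^ k : ℕ) : ZMod (p ^ (k + 1))) ^ p = 1 := by
    have hsum : (p : ℤ) ∣ ∑ i ∈ range p, ((1 : ℤ) + (p : ℤ) ^ k) ^ i := by
      have h1 : (∑ i ∈ range p, ((1 : ℤ) + (p : ℤ) ^ k) ^ i) ≡ ∑ i ∈ range p, (1 : ℤ) [ZMOD p] := by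
        apply Int.ModEq.sum
        intro i _
        have h2 : ((1 : ℤ) + (p : ℤ) ^ k) ≡ 1 [ZMOD p] := by
          have h3 : (p : ℤ) ^ k ≡ 0 [ZMOD p] := by
            rw [Int.modEq_zero_iff_dvd]
            exact dvd_pow_self _ hk
          simpa using h3.add_left 1
        simpa using h2.pow i
      have h4 : (∑ i ∈ range p, (1 : ℤ)) ≡ 0 [ZMOD p] := by
        rw [Int.modEq_zero_iff_dvd]; simp
      exact Int.modEq_zero_iff_dvd.mp (h1.trans h4)
    have hdvd : ((p ^ (k + 1) : ℕ) : ℤ) ∣ ((1 : ℤ) + (p : ℤ) ^ k) ^ p - 1 := by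
      have h1 := geom_sum_mul ((1 : ℤ) + (p : ℤ) ^ k) p
      rw [← h1]
      obtain ⟨s, hs⟩ := hsum
      refine ⟨s, ?_⟩
      rw [hs]
      push_cast
      ring
    have h5 := (ZMod.intCast_zmod_eq_zero_iff_dvd (((1 : ℤ) + (p : ℤ) ^ k) ^ p - 1)
      (p ^ (k + 1))).mpr hdvd
    push_cast at h5
    have h6 := sub_eq_zero.mp h5
    push_cast
    exact h6
  set u : (ZMod (p ^ (k + 1)))ˣ := ZMod.unitOfCoprime (1 + p ^ k) hcop with hu
  have hucoe : (u : ZMod (p ^ (k + 1))) = ((1 + p ^ k : ℕ) : ZMod (p ^ (k + 1))) :=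
    ZMod.coe_unitOfCoprime _ hcop
  obtain ⟨χ, hχ⟩ := DirichletCharacter.exists_apply_ne_one_of_hasEnoughRootsOfUnity ℂ hc1
  have hne : (χ ^ (p - 1)) (u : ZMod (p ^ (k + 1))) ≠ 1 := by
    rw [MulChar.pow_apply_coe, hucoe]
    intro h
    apply hχ
    have h1 : χ ((1 + p ^ k : ℕ) : ZMod (p ^ (k + 1))) ^ p = 1 := by
      rw [← map_pow, hcp, map_one]
    have h2 : ∀ z : ℂ, z ^ (p - 1) = 1 → z ^ p = 1 → z = 1 := by
      intro z hz1 hz2
      have h3 : z ^ ((p - 1) + 1) = 1 := by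
        rw [Nat.sub_add_cancel hp0]
        exact hz2
      rwa [pow_succ, hz1, one_mul] at h3
    exact h2 _ h h1
  refine ⟨χ ^ (p - 1), ?_, ?_⟩
  · rw [DirichletCharacter.isPrimitive_def]
    have hd := DirichletCharacter.conductor_dvd_level (χ ^ (p - 1))
    rw [Nat.dvd_prime_pow hp] at hd
    obtain ⟨j, hj, hj2⟩ := hd
    rcases Nat.lt_or_ge j (k + 1) with h | h
    · exfalso
      apply hne
      have hft := DirichletCharacter.factorsThrough_conductor (χ ^ (p - 1))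
      rw [hj2] at hft
      rw [hft.eq_changeLevel, DirichletCharacter.changeLevel_eq_cast_of_dvd, hucoe,
        ZMod.cast_natCast hft.dvd]
      have h1 : ((1 + p ^ k : ℕ) : ZMod (p ^ j)) = 1 := by
        push_cast
        have h2 : ((p ^ k : ℕ) : ZMod (p ^ j)) = 0 := by
          rw [ZMod.natCast_eq_zero_iff]
          exact pow_dvd_pow p (by omega)
        push_cast at h2
        rw [h2, add_zero]
      rw [h1, map_one]
    · rw [hj2]
      congr 1
      omega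
  · intro b e hbe hpe
    have he0 : e ≠ 0 := by
      rintro rfl
      exact hpe (dvd_zero p)
    have hbu : IsUnit (b : ZMod (p ^ (k + 1))) := by
      apply IsUnit.of_pow_eq_one hbe he0
    obtain ⟨v, hv⟩ := hbu
    rw [← hv] at hbe ⊢
    have h1 : ((χ ^ (p - 1)) (v : ZMod (p ^ (k + 1)))) ^ e = 1 := by
      rw [← map_pow, hbe, map_one]
    have h2 : ((χ ^ (p - 1)) (v : ZMod (p ^ (k + 1)))) ^ (p ^ k) = 1 := by
      rw [MulChar.pow_apply_coe, ← pow_mul]
      have h3 : (p - 1) * p ^ k = Nat.totient (p ^ (k + 1)) := by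
        rw [Nat.totient_prime_pow_succ hp]
        ring
      rw [h3, ← map_pow, ← Units.val_pow_eq_pow_val, ZMod.pow_totient, Units.val_one, map_one]
    have h4 := orderOf_dvd_of_pow_eq_one h1
    have h5 := orderOf_dvd_of_pow_eq_one h2
    have h6 : Nat.Coprime e (p ^ k) :=
      Nat.Coprime.pow_right _ (((Nat.Prime.coprime_iff_not_dvd hp).mpr hpe).symm)
    have h7 : orderOf ((χ ^ (p - 1)) (v : ZMod (p ^ (k + 1)))) ∣ 1 := by
      have := Nat.dvd_gcd h4 h5
      rwa [h6] at this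
    exact orderOf_eq_one_iff.mp (Nat.dvd_one.mp h7)

end Pool.Agent.H482.WT
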