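import Pool.Agent.H482.WT.Stm

set_option autoImplicit false

/-!
# Task PROD of project WT (helper974)
-/

namespace Pool.Agent.H482.WT

open Finset

namespace PROD

lemma dprod_apply {R : Type} [CommRing R] {m : ℕ} {ι : Type} (s : Finset ι)
    (f : ι → DirichletCharacter R m) (u : (ZMod m)ˣ) :
    (∏ i ∈ s, f i) (u : ZMod m) = ∏ i ∈ s, f i (u : ZMod m) := by
  classical
  induction s using Finset.induction_on with
  | empty => simp
  | insert a s ha ih =>
    rw [Finset.prod_insert ha, Finset.prod_insert ha, MulChar.mul_apply, ih]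

end PROD

open PROD in
theorem prod : S_PROD := by
  classical
  intro A ψ hA hψ
  have hm0 : (∏ p ∈ A, p) ≠ 0 := by
    rw [Finset.prod_ne_zero_iff]
    exact fun p hp => (hA p hp).ne_zero
  generalize hm : (∏ p ∈ A, p) = m at hm0
  have hdvd : ∀ p ∈ A, p ∣ m := fun p hp => by
    rw [← hm]; exact Finset.dvd_prod_of_mem _ hp
  have : NeZero m := ⟨hm0⟩
  set χ : DirichletCharacter ℂ m :=
    ∏ p ∈ A.attach, DirichletCharacter.changeLevel (hdvd p.1 p.2) (ψ p.1) with hχ
  have hval : ∀ b : ℕ, χ (b : ZMod m) = ∏ p ∈ A, ψ p (b : ZMod p) := by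
    intro b
    by_cases hb : Nat.Coprime b m
    · have h1 : (b : ZMod m) = ((ZMod.unitOfCoprime b hb : (ZMod m)ˣ) : ZMod m) :=
        (ZMod.coe_unitOfCoprime b hb).symm
      rw [h1, hχ, dprod_apply, ← Finset.prod_attach A (fun p => ψ p (b : ZMod p))]
      refine Finset.prod_congr rfl fun p _ => ?_
      rw [DirichletCharacter.changeLevel_eq_cast_of_dvd, ZMod.coe_unitOfCoprime]
      congr 1
      exact ZMod.cast_natCast (hdvd p.1 p.2) b
    · have h1 : ¬ IsUnit (b : ZMod m) := by
        rw [ZMod.isUnit_iff_coprime]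
        exact hb
      rw [MulChar.map_nonunit _ h1]
      symm
      have h2 : ∃ p ∈ A, p ∣ b := by
        by_contra h3
        push Not at h3
        apply hb
        rw [← hm]
        exact Nat.Coprime.prod_right fun p hp =>
          ((Nat.Prime.coprime_iff_not_dvd (hA p hp)).mpr (h3 p hp)).symm
      obtain ⟨p, hp, hpb⟩ := h2
      refine Finset.prod_eq_zero hp ?_
      apply MulChar.map_nonunit
      rw [ZMod.isUnit_iff_coprime]
      intro h3
      have h4 : p ∣ 1 := by
        have := Nat.dvd_gcd hpb (dvd_refl p)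
        rwa [h3] at this
      exact (hA p hp).one_lt.ne' (Nat.dvd_one.mp h4)
  refine ⟨χ, ?_, hval⟩
  rw [DirichletCharacter.isPrimitive_def]
  by_contra hne
  have hft := DirichletCharacter.factorsThrough_conductor χ
  set d := χ.conductor with hd
  obtain ⟨e, he⟩ := hft.dvd
  have he1 : e ≠ 1 := by
    rintro rfl
    rw [mul_one] at he
    exact hne he.symm
  obtain ⟨p, hp, hpe⟩ := Nat.exists_prime_and_dvd he1
  have hpA : p ∈ A := by
    have h1 : p ∣ ∏ p ∈ A, p := by
      rw [hm, he]; exact Dvd.dvd.mul_left hpe d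
    obtain ⟨q, hq, hpq⟩ := (Nat.Prime.prime hp).exists_mem_finset_dvd h1
    rwa [(Nat.prime_dvd_prime_iff_eq hp (hA q hq)).mp hpq]
  set m' := ∏ q ∈ A.erase p, q with hm'
  have hmm : p * m' = m := by rw [hm', ← hm]; exact Finset.mul_prod_erase A (fun q => q) hpA
  have hdm' : d ∣ m' := by
    obtain ⟨e', rfl⟩ := hpe
    refine ⟨e', ?_⟩
    apply Nat.eq_of_mul_eq_mul_left hp.pos
    rw [hmm, he]
    ring
  have hcop : Nat.Coprime m' p := by
    rw [hm']
    refine Nat.Coprime.prod_left fun q hq => ?_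
    rw [Finset.mem_erase] at hq
    exact (Nat.coprime_primes (hA q hq.2) hp).mpr hq.1
  obtain ⟨u, hu⟩ := (MulChar.ne_one_iff (χ := ψ p)).mp (hψ p hpA)
  have : NeZero p := ⟨hp.ne_zero⟩
  obtain ⟨c, hc1, hc2⟩ := Nat.chineseRemainder hcop 1 ((u : ZMod p)).val
  have hcm' : ∀ q : ℕ, q ∣ m' → (c : ZMod q) = 1 := by
    intro q hq
    have h1 := (ZMod.natCast_eq_natCast_iff c 1 q).mpr (hc1.of_dvd hq)
    rwa [Nat.cast_one] at h1
  have hcp : (c : ZMod p) = u := by
    rw [(ZMod.natCast_eq_natCast_iff c _ p).mpr hc2, ZMod.natCast_val, ZMod.cast_id]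
  have hcc : Nat.Coprime c m := by
    rw [← hmm]
    refine Nat.Coprime.mul_right ?_ ?_
    · rw [← ZMod.isUnit_iff_coprime, hcp]
      exact u.isUnit
    · rw [← ZMod.isUnit_iff_coprime, hcm' m' dvd_rfl]
      exact isUnit_one
  have h1 : χ (c : ZMod m) = 1 := by
    rw [hft.eq_changeLevel, ← ZMod.coe_unitOfCoprime c hcc,
      DirichletCharacter.changeLevel_eq_cast_of_dvd, ZMod.coe_unitOfCoprime,
      ZMod.cast_natCast hft.dvd c, hcm' d hdm', MulChar.map_one]
  have h2 : χ (c : ZMod m) = ψ p u := by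
    rw [hval, ← Finset.mul_prod_erase A (fun q => ψ q (c : ZMod q)) hpA, hcp]
    rw [Finset.prod_eq_one, mul_one]
    intro q hq
    rw [hcm' q (Finset.dvd_prod_of_mem (fun q => q) hq), MulChar.map_one]
  exact hu (h2.symm.trans h1)

end Pool.Agent.H482.WT
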