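import Mathlib
import Pool.Agent.H482.WT.Stm

/-!
# Project WT, task PSI (helper161)
-/

set_option autoImplicit false

namespace Pool.Agent.H482.WT

open Finset

open Pool.Agent.H379R2.W (Passes v2)

namespace PsiAux

theorem two_pow_inj {x y m n : ℕ} (hm : Odd m) (hn : Odd n) (h : 2 ^ x * m = 2 ^ y * n) :
    x = y := by
  have key : ∀ {x y m n : ℕ}, Odd m → Odd n → 2 ^ x * m = 2 ^ y * n → ¬ x < y := by
    intro x y m n hm hn h hlt
    obtain ⟨c, rfl⟩ := Nat.exists_eq_add_of_lt hlt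
    have h1 : m = 2 * (2 ^ c * n) := by
      have h2 : 2 ^ x * m = 2 ^ x * (2 * (2 ^ c * n)) := by
        rw [h]; ring
      exact Nat.eq_of_mul_eq_mul_left (by positivity) h2
    rw [h1] at hm
    exact (Nat.not_odd_iff_even.2 (even_two_mul _)) hm
  rcases lt_trichotomy x y with h1 | h1 | h1
  · exact absurd h1 (key hm hn h)
  · exact h1
  · exact absurd h1 (key hn hm h.symm)

/-- the arithmetic of the exponents -/
theorem expo {s t a i d : ℕ} (ht : Odd t) (hd : Odd d)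
    (h1 : 2 ^ s * t ∣ a * (2 ^ (i + 1) * d)) (h2 : ¬ 2 ^ s * t ∣ a * (2 ^ i * d)) :
    ∃ e a' : ℕ, Odd a' ∧ a = 2 ^ e * a' ∧ e + i + 1 = s := by
  have ha : a ≠ 0 := by
    rintro rfl
    exact h2 (by simp)
  obtain ⟨e, a', ha', hae⟩ := Nat.exists_eq_two_pow_mul_odd ha
  refine ⟨e, a', ha', hae, ?_⟩
  -- the odd parts
  have h3 : t ∣ a' * d := by
    have h4 : t ∣ 2 ^ (e + i + 1) * (a' * d) := by
      refine (Dvd.intro_left _ rfl).trans (h1.trans (dvd_of_eq ?_))
      rw [hae]; ring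
    exact (Nat.Coprime.pow_right _ (Nat.coprime_two_right.2 ht)).dvd_of_dvd_mul_left h4
  obtain ⟨q, hq⟩ := h3
  have hodd : Odd (a' * d) := ha'.mul hd
  have hqo : Odd q := by
    rw [hq] at hodd
    exact (Nat.odd_mul.1 hodd).2
  have h5 : s ≤ e + i + 1 := by
    by_contra h6
    push Not at h6
    have h7 : 2 ^ s ∣ 2 ^ (e + i + 1) * (a' * d) := by
      refine (Dvd.intro _ rfl).trans (h1.trans (dvd_of_eq ?_))
      rw [hae]; ring
    have h8 := (Nat.Coprime.pow_left s (Nat.coprime_two_left.2 hodd)).dvd_of_dvd_mul_right h7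
    have h9 := (Nat.pow_dvd_pow_iff_le_right (by norm_num : 1 < 2)).1 h8
    omega
  have h6 : e + i < s := by
    by_contra h7
    push Not at h7
    apply h2
    obtain ⟨c, hc⟩ := Nat.exists_eq_add_of_le h7
    refine ⟨2 ^ c * q, ?_⟩
    calc a * (2 ^ i * d) = 2 ^ (e + i) * (a' * d) := by rw [hae]; ring
      _ = 2 ^ (s + c) * (t * q) := by rw [hc, hq]
      _ = _ := by ring
  omega

end PsiAux

theorem psi : S_PSI := by
  intro p v hp hp2 hv1 hv2
  classical
  have : Fact p.Prime := ⟨hp⟩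
  have h2p : 2 < p := lt_of_le_of_ne hp.two_le (Ne.symm hp2)
  have : Fact (2 < p) := ⟨h2p⟩
  obtain ⟨t, ht, hst⟩ := Pool.Agent.H379R2.W.v2_spec hp.two_le
  set s := v2 p with hs
  set w := s - v + 1 with hw
  have hw1 : 1 ≤ w := by omega
  have hws : w ≤ s := by omega
  obtain ⟨g, hg⟩ := IsCyclic.exists_generator (α := (ZMod p)ˣ)
  have hcard : Fintype.card (ZMod p)ˣ = 2 ^ s * t := by
    rw [ZMod.card_units p, hst]
  have hord : orderOf g = 2 ^ s * t := by
    rw [orderOf_eq_card_of_forall_mem_zpowers hg, Nat.card_eq_fintype_card, hcard]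
  -- the root of unity
  have hprim := Complex.isPrimitiveRoot_exp (2 ^ w) (by positivity)
  set z : ℂ := Complex.exp (2 * Real.pi * Complex.I / ((2 ^ w : ℕ) : ℂ)) with hz
  have hu : IsUnit z := hprim.isUnit (by positivity)
  have hmem : hu.unit ∈ rootsOfUnity (Fintype.card (ZMod p)ˣ) ℂ := by
    rw [mem_rootsOfUnity, hcard]
    ext
    rw [Units.val_pow_eq_pow_val, IsUnit.unit_spec, Units.val_one]
    obtain ⟨c, hc⟩ : 2 ^ w ∣ 2 ^ s * t := Dvd.dvd.mul_right (pow_dvd_pow 2 hws) t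
    rw [hc, pow_mul, hprim.pow_eq_one, one_pow]
  set ψ : DirichletCharacter ℂ p := MulChar.ofRootOfUnity hmem hg with hψ
  have hψg : ψ (g : ZMod p) = z := by
    rw [hψ, MulChar.ofRootOfUnity_spec, IsUnit.unit_spec]
  -- powers of the generator
  have hpow : ∀ x : (ZMod p)ˣ, ∃ a : ℕ, x = g ^ a := by
    intro x
    obtain ⟨a, ha⟩ := mem_powers_iff_mem_zpowers.2 (hg x)
    exact ⟨a, ha.symm⟩
  have hval : ∀ a : ℕ, ψ ((g ^ a : (ZMod p)ˣ) : ZMod p) = z ^ a := by
    intro a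
    rw [Units.val_pow_eq_pow_val, map_pow, hψg]
  refine ⟨ψ, ?_, ?_, ?_⟩
  · intro h1
    have h2 : z = 1 := by
      rw [← hψg, h1, MulChar.one_apply_coe]
    have h3 := hprim.dvd_of_pow_eq_one 1 (by rw [pow_one, h2])
    have h4 : 2 ^ w ≤ 1 := Nat.le_of_dvd one_pos h3
    have h5 : 2 ^ 1 ≤ 2 ^ w := Nat.pow_le_pow_right (by norm_num) hw1
    omega
  · intro b d hd hb
    have hd0 : d ≠ 0 := by rintro rfl; simp at hd
    have hb0 : (b : ZMod p) ≠ 0 := by
      intro h0
      rw [h0, zero_pow hd0] at hb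
      exact zero_ne_one hb
    obtain ⟨a, ha⟩ := hpow (Units.mk0 _ hb0)
    have hb' : (b : ZMod p) = ((g ^ a : (ZMod p)ˣ) : ZMod p) := by
      rw [← ha, Units.val_mk0]
    have h1 : ψ (b : ZMod p) ^ d = 1 := by rw [← map_pow, hb, map_one]
    have h2 : ψ (b : ZMod p) ^ 2 ^ w = 1 := by
      rw [hb', hval, ← pow_mul, mul_comm, pow_mul, hprim.pow_eq_one, one_pow]
    have h3 : orderOf (ψ (b : ZMod p)) ∣ d.gcd (2 ^ w) :=
      Nat.dvd_gcd (orderOf_dvd_of_pow_eq_one h1) (orderOf_dvd_of_pow_eq_one h2)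
    have h4 : d.gcd (2 ^ w) = 1 := Nat.Coprime.pow_right _ (Nat.coprime_two_right.2 hd)
    rw [h4, Nat.dvd_one, orderOf_eq_one_iff] at h3
    exact h3
  · intro b i d hd hb
    have hd0 : d ≠ 0 := by rintro rfl; simp at hd
    have hn0 : 2 ^ i * d ≠ 0 := by positivity
    have hne : (-1 : ZMod p) ≠ 1 := ZMod.neg_one_ne_one
    have hb0 : (b : ZMod p) ≠ 0 := by
      intro h0
      rw [h0, zero_pow hn0] at hb
      exact one_ne_zero (neg_eq_zero.1 hb.symm)
    obtain ⟨a, ha⟩ := hpow (Units.mk0 _ hb0)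
    have hb' : (b : ZMod p) = ((g ^ a : (ZMod p)ˣ) : ZMod p) := by
      rw [← ha, Units.val_mk0]
    have h1 : g ^ (a * (2 ^ (i + 1) * d)) = 1 := by
      ext
      rw [pow_mul, Units.val_pow_eq_pow_val, ← hb', Units.val_one,
        show 2 ^ (i + 1) * d = (2 ^ i * d) * 2 by ring, pow_mul, hb]
      norm_num
    have h2 : g ^ (a * (2 ^ i * d)) ≠ 1 := by
      intro h3
      have h4 := congrArg (Units.val) h3
      rw [pow_mul, Units.val_pow_eq_pow_val, ← hb', Units.val_one, hb] at h4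
      exact hne h4
    rw [← orderOf_dvd_iff_pow_eq_one, hord] at h1
    rw [Ne, ← orderOf_dvd_iff_pow_eq_one, hord] at h2
    obtain ⟨e, a', ha', hae, hei⟩ := PsiAux.expo ht hd h1 h2
    rw [hb', hval, hae]
    constructor
    · intro hiv
      have h5 : w ≤ e := by omega
      obtain ⟨c, hc⟩ := Nat.exists_eq_add_of_le h5
      rw [hc, pow_add, mul_assoc, pow_mul, hprim.pow_eq_one, one_pow]
    · intro hiv
      have h5 : w = e + 1 := by omega
      rw [pow_mul]
      have h6 : z ^ 2 ^ e = -1 := by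
        have h7 : (z ^ 2 ^ e) ^ 2 = 1 := by
          rw [← pow_mul, ← pow_succ, ← h5, hprim.pow_eq_one]
        rcases sq_eq_one_iff.1 h7 with h8 | h8
        · have h9 := hprim.dvd_of_pow_eq_one _ h8
          have h10 := (Nat.pow_dvd_pow_iff_le_right (by norm_num : 1 < 2)).1 h9
          omega
        · exact h8
      rw [h6, ha'.neg_one_pow]

end Pool.Agent.H482.WT
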