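import Mathlib
import Pool.Graph.R_seed8.H379R2.W.Strong

/-! Project WT: statements about the number of bases for which the strong test is passed. -/

set_option autoImplicit false

namespace Pool.Agent.H482.WT

open Finset

open Pool.Agent.H379R2.W (Passes v2)

open Classical in
/-- the number of the bases modulo `n` for which `n` passes -/
noncomputable def LL (n : ℕ) : ℕ := ((range n).filter (fun b => Passes n b)).card

/-- task RMK -/
def S_RMK : Prop := ∀ n : ℕ, 3 ≤ n → Odd n → 2 ^ (n.primeFactors.card - 1) * LL n ≤ Nat.totient n

/-- task RMA: the theorem of Rabin and Monier for integers with at most two prime factors -/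
def S_RMA : Prop := ∀ n : ℕ, 3 ≤ n → Odd n → ¬ n.Prime → n ≠ 9 → n.primeFactors.card ≤ 2 →
  4 * LL n ≤ Nat.totient n

end Pool.Agent.H482.WT
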