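import Mathlib
import Pool.Agent.H482.WT.StmB

set_option autoImplicit false

/-! Project WT: the theorem of Rabin and Monier for integers with at most two prime factors. -/

namespace Pool.Agent.H482.WT

open Finset
open Pool.Agent.H379R2.W (Passes v2 v2_spec v2_pos legendre_level pow_of_passes)

namespace RMA

/-- the passing bases inject into the units -/
theorem LL_le {n : ℕ} (hn : 3 ≤ n) (S : Set (ZMod n)ˣ)
    (h : ∀ b : ℕ, Passes n b → ∀ u : (ZMod n)ˣ, (u : ZMod n) = b → u ∈ S) : LL n ≤ S.ncard := by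
  classical
  have : NeZero n := ⟨by omega⟩
  have hu : ∀ b : ℕ, Passes n b → IsUnit (b : ZMod n) :=
    fun b hb => IsUnit.of_pow_eq_one (pow_of_passes hb) (by omega)
  let f : ℕ → (ZMod n)ˣ := fun b => if h : IsUnit (b : ZMod n) then h.unit else 1
  have hf : ∀ b : ℕ, Passes n b → ((f b : (ZMod n)ˣ) : ZMod n) = b := by
    intro b hb
    have h1 : f b = (hu b hb).unit := dif_pos (hu b hb)
    rw [h1, IsUnit.unit_spec]
  unfold LL
  rw [Set.ncard_eq_toFinset_card S S.toFinite]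
  refine Finset.card_le_card_of_injOn f ?_ ?_
  · intro b hb
    have hb' := (Finset.mem_filter.1 (Finset.mem_coe.1 hb)).2
    rw [Finset.mem_coe, Set.Finite.mem_toFinset]
    exact h b hb' _ (hf b hb')
  · intro b hb c hc hbc
    have hb' := Finset.mem_filter.1 (Finset.mem_coe.1 hb)
    have hc' := Finset.mem_filter.1 (Finset.mem_coe.1 hc)
    have h1 : (b : ZMod n) = (c : ZMod n) := by
      rw [← hf b hb'.2, ← hf c hc'.2, hbc]
    rw [ZMod.natCast_eq_natCast_iff] at h1
    exact Nat.ModEq.eq_of_lt_of_lt h1 (Finset.mem_range.1 hb'.1) (Finset.mem_range.1 hc'.1)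

theorem card_cyclic {G : Type} [CommGroup G] [IsCyclic G] [Finite G] (m : ℕ) :
    {u : G | u ^ m = 1}.ncard = Nat.gcd (Nat.card G) m := by
  rw [← IsCyclic.card_powMonoidHom_ker, ← Nat.card_coe_set_eq]
  rfl

theorem card_two {G : Type} [CommGroup G] [Finite G] (m : ℕ) (e : G) :
    {u : G | u ^ m = 1 ∨ u ^ m = e}.ncard ≤ 2 * {u : G | u ^ m = 1}.ncard := by
  have h1 : {u : G | u ^ m = e}.ncard ≤ {u : G | u ^ m = 1}.ncard := by
    by_cases h : ∃ x : G, x ^ m = e
    · obtain ⟨x, hx⟩ := h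
      refine Set.ncard_le_ncard_of_injOn (fun u => u * x⁻¹) ?_ ?_ (Set.toFinite _)
      · intro u hu
        have hu' : u ^ m = e := hu
        show (u * x⁻¹) ^ m = 1
        rw [mul_pow, hu', inv_pow, hx, mul_inv_cancel]
      · intro u _ u' _ huu
        exact mul_right_cancel huu
    · have h2 : {u : G | u ^ m = e} = ∅ := by
        rw [Set.eq_empty_iff_forall_notMem]
        exact fun u hu => h ⟨u, hu⟩
      rw [h2, Set.ncard_empty]
      exact Nat.zero_le _
  have h2 : {u : G | u ^ m = 1 ∨ u ^ m = e} = {u : G | u ^ m = 1} ∪ {u : G | u ^ m = e} := rfl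
  rw [h2]
  have h3 := Set.ncard_union_le {u : G | u ^ m = 1} {u : G | u ^ m = e}
  omega

theorem card_prod {A B : ℕ} [NeZero A] [NeZero B] (hAB : Nat.Coprime A B) (m : ℕ) :
    {u : (ZMod (A * B))ˣ | u ^ m = 1}.ncard ≤
      {u : (ZMod A)ˣ | u ^ m = 1}.ncard * {u : (ZMod B)ˣ | u ^ m = 1}.ncard := by
  rw [← Set.ncard_prod]
  refine Set.ncard_le_ncard_of_injOn
    (fun u => (ZMod.unitsMap (dvd_mul_right A B) u, ZMod.unitsMap (dvd_mul_left B A) u))
    ?_ ?_ (Set.toFinite _)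
  · intro u hu
    have hu' : u ^ m = 1 := hu
    refine ⟨?_, ?_⟩
    · show (ZMod.unitsMap (dvd_mul_right A B) u) ^ m = 1
      rw [← map_pow, hu', map_one]
    · show (ZMod.unitsMap (dvd_mul_left B A) u) ^ m = 1
      rw [← map_pow, hu', map_one]
  · intro u _ u' _ huu
    have h1 := congrArg (fun z => ((z.1 : (ZMod A)ˣ) : ZMod A)) huu
    have h2 := congrArg (fun z => ((z.2 : (ZMod B)ˣ) : ZMod B)) huu
    apply Units.ext
    apply (ZMod.chineseRemainder hAB).injective
    have e1 : (RingHom.fst (ZMod A) (ZMod B)).comp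
        (ZMod.chineseRemainder hAB : ZMod (A * B) →+* ZMod A × ZMod B) =
        ZMod.castHom (dvd_mul_right A B) (ZMod A) := Subsingleton.elim _ _
    have e2 : (RingHom.snd (ZMod A) (ZMod B)).comp
        (ZMod.chineseRemainder hAB : ZMod (A * B) →+* ZMod A × ZMod B) =
        ZMod.castHom (dvd_mul_left B A) (ZMod B) := Subsingleton.elim _ _
    apply Prod.ext
    · have f1 := RingHom.congr_fun e1 (u : ZMod (A * B))
      have f2 := RingHom.congr_fun e1 (u' : ZMod (A * B))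
      exact f1.trans (h1.trans f2.symm)
    · have f1 := RingHom.congr_fun e2 (u : ZMod (A * B))
      have f2 := RingHom.congr_fun e2 (u' : ZMod (A * B))
      exact f1.trans (h2.trans f2.symm)

theorem half {v d N : ℕ} (hd : Odd d) (hv : 1 ≤ v) (h : 2 ^ v ∣ N) (hN : 0 < N) :
    ∃ α, 1 ≤ α ∧ N = 2 * Nat.gcd N (2 ^ (v - 1) * d) * α ∧ (α = 1 → N ∣ 2 ^ v * d) := by
  obtain ⟨c, rfl⟩ := h
  have hc : 0 < c := Nat.pos_of_mul_pos_left hN
  have h2 : 2 ^ v = 2 ^ (v - 1) * 2 := by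
    rw [← pow_succ]
    congr 1
    omega
  have hcop : Nat.Coprime 2 d := (Nat.coprime_two_left).2 hd
  have h3 : Nat.gcd (2 ^ v * c) (2 ^ (v - 1) * d) = 2 ^ (v - 1) * Nat.gcd c d := by
    rw [h2, mul_assoc, Nat.gcd_mul_left, Nat.Coprime.gcd_mul_left_cancel _ hcop]
  obtain ⟨α, hα⟩ := Nat.gcd_dvd_left c d
  refine ⟨α, ?_, ?_, ?_⟩
  · rcases Nat.eq_zero_or_pos α with h0 | h0
    · rw [h0, mul_zero] at hα
      omega
    · exact h0
  · rw [h3]
    calc 2 ^ v * c = 2 ^ v * (Nat.gcd c d * α) := by rw [← hα]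
      _ = 2 * (2 ^ (v - 1) * Nat.gcd c d) * α := by rw [h2]; ring
  · intro h1
    rw [h1, mul_one] at hα
    apply Nat.mul_dvd_mul_left
    rw [hα]
    exact Nat.gcd_dvd_right c d

theorem unique_split {j d j' d' : ℕ} (hd : Odd d) (hd' : Odd d') (h : 2 ^ j * d = 2 ^ j' * d') :
    j = j' ∧ d = d' := by
  have key : ∀ j j' d d' : ℕ, Odd d → Odd d' → 2 ^ j * d = 2 ^ j' * d' → j ≤ j' := by
    intro j j' d d' hd hd' h
    have h1 : 2 ^ j ∣ 2 ^ j' * d' := ⟨d, h.symm⟩
    have hcop : Nat.Coprime (2 ^ j) d' := Nat.Coprime.pow_left _ ((Nat.coprime_two_left).2 hd')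
    have h2 := hcop.dvd_of_dvd_mul_right h1
    exact (Nat.pow_dvd_pow_iff_le_right (by norm_num)).1 h2
  have h1 := le_antisymm (key j j' d d' hd hd' h) (key j' j d' d hd' hd h.symm)
  refine ⟨h1, ?_⟩
  rw [h1] at h
  exact Nat.eq_of_mul_eq_mul_left (by positivity) h

/-- one prime factor -/
theorem case_one {p a : ℕ} (hp : p.Prime) (hp2 : p ≠ 2) (ha : 2 ≤ a) (h9 : p ^ a ≠ 9) :
    4 * LL (p ^ a) ≤ Nat.totient (p ^ a) := by
  have hp3 : 3 ≤ p := by
    have := hp.two_le
    omega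
  have hn : 3 ≤ p ^ a := by
    calc 3 ≤ p := hp3
      _ = p ^ 1 := (pow_one p).symm
      _ ≤ p ^ a := Nat.pow_le_pow_right (by omega) (by omega)
  have : NeZero (p ^ a) := ⟨by omega⟩
  have : IsCyclic (ZMod (p ^ a))ˣ := ZMod.isCyclic_units_of_prime_pow p hp hp2 a
  have h1 : LL (p ^ a) ≤ {u : (ZMod (p ^ a))ˣ | u ^ (p ^ a - 1) = 1}.ncard := by
    refine LL_le hn _ fun b hb u hu => ?_
    show u ^ (p ^ a - 1) = 1
    apply Units.ext
    rw [Units.val_pow_eq_pow_val, hu, pow_of_passes hb, Units.val_one]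
  rw [card_cyclic, Nat.card_eq_fintype_card, ZMod.card_units_eq_totient] at h1
  have h2 : Nat.totient (p ^ a) = p ^ (a - 1) * (p - 1) := Nat.totient_prime_pow hp (by omega)
  have hco : Nat.Coprime (p ^ (a - 1)) (p ^ a - 1) := by
    apply Nat.Coprime.pow_left
    rw [hp.coprime_iff_not_dvd]
    intro h
    have h3 : p ∣ p ^ a := dvd_pow_self p (by omega)
    have h4 := Nat.dvd_sub h3 h
    rw [show p ^ a - (p ^ a - 1) = 1 by omega] at h4
    exact hp.one_lt.ne' (Nat.dvd_one.mp h4)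
  rw [h2, Nat.Coprime.gcd_mul_left_cancel _ hco] at h1
  have h3 : Nat.gcd (p - 1) (p ^ a - 1) ≤ p - 1 := Nat.gcd_le_left _ (by omega)
  have h4 : 4 ≤ p ^ (a - 1) := by
    by_cases hp5 : 4 ≤ p
    · calc 4 ≤ p := hp5
        _ = p ^ 1 := (pow_one p).symm
        _ ≤ p ^ (a - 1) := Nat.pow_le_pow_right (by omega) (by omega)
    · have hp3' : p = 3 := by omega
      subst hp3'
      have ha3 : 3 ≤ a := by
        by_contra h
        have : a = 2 := by omega
        subst this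
        exact h9 (by norm_num)
      calc 4 ≤ 3 ^ 2 := by norm_num
        _ ≤ 3 ^ (a - 1) := Nat.pow_le_pow_right (by omega) (by omega)
  rw [h2]
  calc 4 * LL (p ^ a) ≤ 4 * (p - 1) := by omega
    _ ≤ p ^ (a - 1) * (p - 1) := Nat.mul_le_mul_right _ h4

/-- two prime factors -/
theorem case_two {p q a b : ℕ} (hp : p.Prime) (hq : q.Prime) (hp2 : p ≠ 2) (hq2 : q ≠ 2)
    (hpq : p ≠ q) (ha : 1 ≤ a) (hb : 1 ≤ b) :
    4 * LL (p ^ a * q ^ b) ≤ Nat.totient (p ^ a * q ^ b) := by
  have hp3 : 3 ≤ p := by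
    have := hp.two_le
    omega
  have hq3 : 3 ≤ q := by
    have := hq.two_le
    omega
  have hA : 3 ≤ p ^ a := by
    calc 3 ≤ p := hp3
      _ = p ^ 1 := (pow_one p).symm
      _ ≤ p ^ a := Nat.pow_le_pow_right (by omega) (by omega)
  have hB : 3 ≤ q ^ b := by
    calc 3 ≤ q := hq3
      _ = q ^ 1 := (pow_one q).symm
      _ ≤ q ^ b := Nat.pow_le_pow_right (by omega) (by omega)
  have : NeZero (p ^ a) := ⟨by omega⟩
  have : NeZero (q ^ b) := ⟨by omega⟩
  obtain ⟨n, hn⟩ : ∃ n, n = p ^ a * q ^ b := ⟨_, rfl⟩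
  have hn3 : 9 ≤ n := by
    rw [hn]
    exact Nat.mul_le_mul hA hB
  have hcopAB : Nat.Coprime (p ^ a) (q ^ b) :=
    Nat.Coprime.pow _ _ ((Nat.coprime_primes hp hq).2 hpq)
  have hpn : p ∣ n := by
    rw [hn]
    exact (dvd_pow_self p (by omega)).trans (dvd_mul_right _ _)
  have hqn : q ∣ n := by
    rw [hn]
    exact (dvd_pow_self q (by omega)).trans (dvd_mul_left _ _)
  have : IsCyclic (ZMod (p ^ a))ˣ := ZMod.isCyclic_units_of_prime_pow p hp hp2 a
  have : IsCyclic (ZMod (q ^ b))ˣ := ZMod.isCyclic_units_of_prime_pow q hq hq2 b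
  -- `v`
  obtain ⟨v, hv⟩ : ∃ v, v = min (v2 p) (v2 q) := ⟨_, rfl⟩
  have hv1 : 1 ≤ v := by
    rw [hv]
    exact le_min (v2_pos hp hp2) (v2_pos hq hq2)
  have hvp : v ≤ v2 p := by
    rw [hv]
    exact min_le_left _ _
  have hvq : v ≤ v2 q := by
    rw [hv]
    exact min_le_right _ _
  have hdp : 2 ^ v ∣ p - 1 := by
    obtain ⟨t, -, ht⟩ := v2_spec hp.two_le
    rw [ht]
    exact (pow_dvd_pow 2 hvp).trans (dvd_mul_right _ _)
  have hdq : 2 ^ v ∣ q - 1 := by
    obtain ⟨t, -, ht⟩ := v2_spec hq.two_le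
    rw [ht]
    exact (pow_dvd_pow 2 hvq).trans (dvd_mul_right _ _)
  -- `n - 1 = 2 ^ j d`
  obtain ⟨j, d, hd, hjd⟩ := Nat.exists_eq_two_pow_mul_odd (n := n - 1) (by omega)
  have hvj : 2 ^ v * d ∣ n - 1 := by
    have h1 : 2 ^ v ∣ n - 1 := by
      have e1 : p ≡ 1 [MOD 2 ^ v] := ((Nat.modEq_iff_dvd' (by omega)).2 hdp).symm
      have e2 : q ≡ 1 [MOD 2 ^ v] := ((Nat.modEq_iff_dvd' (by omega)).2 hdq).symm
      have e3 : n ≡ 1 [MOD 2 ^ v] := by
        rw [hn]
        have := (e1.pow a).mul (e2.pow b)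
        simpa using this
      exact (Nat.modEq_iff_dvd' (by omega)).1 e3.symm
    have hcop : Nat.Coprime (2 ^ v) d := Nat.Coprime.pow_left _ ((Nat.coprime_two_left).2 hd)
    refine hcop.mul_dvd_of_dvd_of_dvd h1 ?_
    rw [hjd]
    exact dvd_mul_left _ _
  obtain ⟨m, hm⟩ : ∃ m, m = 2 ^ (v - 1) * d := ⟨_, rfl⟩
  -- the liars
  have hL : ∀ c : ℕ, Passes n c → (c : ZMod n) ^ m = 1 ∨ (c : ZMod n) ^ m = -1 := by
    rintro c ⟨j', d', h1, h2, h3⟩
    have h4 : 2 ^ j' * d' = 2 ^ j * d := by rw [← h1, ← hjd]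
    obtain ⟨rfl, rfl⟩ := unique_split h2 hd h4
    rcases h3 with h3 | ⟨i, hi, h3⟩
    · left
      rw [hm, mul_comm, pow_mul, h3, one_pow]
    · have e1 := congrArg (ZMod.castHom hpn (ZMod p)) h3
      rw [map_pow, map_natCast, map_neg, map_one] at e1
      have e2 := congrArg (ZMod.castHom hqn (ZMod q)) h3
      rw [map_pow, map_natCast, map_neg, map_one] at e2
      have f1 := (legendre_level hp hp2 hd e1).1
      have f2 := (legendre_level hq hq2 hd e2).1
      have hiv : i + 1 ≤ v := by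
        rw [hv]
        exact le_min f1 f2
      rcases Nat.lt_or_ge (i + 1) v with h5 | h5
      · left
        have e3 : m = 2 ^ i * d' * 2 ^ (v - 1 - i) := by
          rw [hm]
          have : v - 1 = i + (v - 1 - i) := by omega
          conv_lhs => rw [this, pow_add]
          ring
        have heven : Even (2 ^ (v - 1 - i)) := Nat.even_pow.mpr ⟨even_two, by omega⟩
        rw [e3, pow_mul, h3, heven.neg_one_pow]
      · right
        have : i = v - 1 := by omega
        rw [hm, ← this]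
        exact h3
  have h1 : LL n ≤ {u : (ZMod n)ˣ | u ^ m = 1 ∨ u ^ m = -1}.ncard := by
    refine LL_le (by omega) _ fun c hc u hu => ?_
    rcases hL c hc with h | h
    · left
      apply Units.ext
      rw [Units.val_pow_eq_pow_val, hu, h, Units.val_one]
    · right
      apply Units.ext
      rw [Units.val_pow_eq_pow_val, hu, h, Units.val_neg, Units.val_one]
  have : NeZero n := ⟨by omega⟩
  have h2 := card_two (G := (ZMod n)ˣ) m (-1)
  have h3 : {u : (ZMod n)ˣ | u ^ m = 1}.ncard ≤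
      Nat.gcd (Nat.totient (p ^ a)) m * Nat.gcd (Nat.totient (q ^ b)) m := by
    subst hn
    refine (card_prod hcopAB m).trans ?_
    rw [card_cyclic, card_cyclic, Nat.card_eq_fintype_card, ZMod.card_units_eq_totient,
      Nat.card_eq_fintype_card, ZMod.card_units_eq_totient]
  have hφA : 0 < Nat.totient (p ^ a) := Nat.totient_pos.2 (by omega)
  have hφB : 0 < Nat.totient (q ^ b) := Nat.totient_pos.2 (by omega)
  have hφA' : Nat.totient (p ^ a) = p ^ (a - 1) * (p - 1) := Nat.totient_prime_pow hp (by omega)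
  have hφB' : Nat.totient (q ^ b) = q ^ (b - 1) * (q - 1) := Nat.totient_prime_pow hq (by omega)
  obtain ⟨α, hα1, hα2, hα3⟩ := half hd hv1
    (by rw [hφA']; exact hdp.trans (dvd_mul_left _ _)) hφA
  obtain ⟨β, hβ1, hβ2, hβ3⟩ := half hd hv1
    (by rw [hφB']; exact hdq.trans (dvd_mul_left _ _)) hφB
  rw [← hm] at hα2 hβ2
  obtain ⟨gA, hgA⟩ : ∃ g, g = Nat.gcd (Nat.totient (p ^ a)) m := ⟨_, rfl⟩
  obtain ⟨gB, hgB⟩ : ∃ g, g = Nat.gcd (Nat.totient (q ^ b)) m := ⟨_, rfl⟩
  rw [← hgA] at hα2 h3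
  rw [← hgB] at hβ2 h3
  have h4 : 2 ≤ α * β := by
    by_contra hlt
    have hαβ : α * β < 2 := by omega
    have hα : α = 1 := by nlinarith
    have hβ : β = 1 := by nlinarith
    have hdA := (hα3 hα).trans hvj
    have hdB := (hβ3 hβ).trans hvj
    have hndp : ¬ p ∣ n - 1 := by
      intro h
      have h4 := Nat.dvd_sub hpn h
      rw [show n - (n - 1) = 1 by omega] at h4
      exact hp.one_lt.ne' (Nat.dvd_one.mp h4)
    have hndq : ¬ q ∣ n - 1 := by
      intro h
      have h4 := Nat.dvd_sub hqn h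
      rw [show n - (n - 1) = 1 by omega] at h4
      exact hq.one_lt.ne' (Nat.dvd_one.mp h4)
    have ha1 : a = 1 := by
      by_contra hne
      apply hndp
      refine dvd_trans ?_ hdA
      rw [hφA']
      exact (dvd_pow_self p (by omega)).trans (dvd_mul_right _ _)
    have hb1 : b = 1 := by
      by_contra hne
      apply hndq
      refine dvd_trans ?_ hdB
      rw [hφB']
      exact (dvd_pow_self q (by omega)).trans (dvd_mul_right _ _)
    subst ha1
    subst hb1
    rw [hφA', Nat.sub_self, pow_zero, one_mul] at hdA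
    rw [hφB', Nat.sub_self, pow_zero, one_mul] at hdB
    rw [pow_one, pow_one] at hn
    obtain ⟨p', rfl⟩ : ∃ p', p = p' + 1 := ⟨p - 1, by omega⟩
    obtain ⟨q', rfl⟩ : ∃ q', q = q' + 1 := ⟨q - 1, by omega⟩
    rw [Nat.add_sub_cancel] at hdA hdB
    have e1 : n - 1 = p' * (q' + 1) + q' := by
      rw [hn]
      have : (p' + 1) * (q' + 1) = p' * (q' + 1) + q' + 1 := by ring
      omega
    have e2 : n - 1 = q' * (p' + 1) + p' := by
      rw [hn]
      have : (p' + 1) * (q' + 1) = q' * (p' + 1) + p' + 1 := by ring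
      omega
    have f1 : p' ∣ q' := by
      rw [e1] at hdA
      exact (Nat.dvd_add_right (dvd_mul_right _ _)).1 hdA
    have f2 : q' ∣ p' := by
      rw [e2] at hdB
      exact (Nat.dvd_add_right (dvd_mul_right _ _)).1 hdB
    exact hpq (by rw [Nat.dvd_antisymm f1 f2])
  rw [← hn]
  have h5 : Nat.totient n = Nat.totient (p ^ a) * Nat.totient (q ^ b) := by
    rw [hn]
    exact Nat.totient_mul hcopAB
  have h6 : Nat.totient n = 4 * (gA * gB) * (α * β) := by
    rw [h5, hα2, hβ2]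
    ring
  rw [h6]
  have h7 : LL n ≤ 2 * (gA * gB) := h1.trans (h2.trans (Nat.mul_le_mul_left 2 h3))
  have h8 : 4 * (gA * gB) * 2 ≤ 4 * (gA * gB) * (α * β) := Nat.mul_le_mul_left _ h4
  omega

end RMA

open RMA in
theorem rma : S_RMA := by
  intro n hn hodd hnp h9 hcard
  have hn0 : n ≠ 0 := by omega
  have h2n : ¬ 2 ∣ n := by
    obtain ⟨k, hk⟩ := hodd
    omega
  have hprod : n.factorization.prod (fun p k => p ^ k) = n := Nat.prod_factorization_pow_eq_self hn0
  rw [Finsupp.prod, Nat.support_factorization] at hprod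
  have hprime : ∀ p ∈ n.primeFactors, p.Prime ∧ p ≠ 2 ∧ 1 ≤ n.factorization p := by
    intro p hp
    have h1 := Nat.prime_of_mem_primeFactors hp
    have h2 := Nat.dvd_of_mem_primeFactors hp
    refine ⟨h1, ?_, ?_⟩
    · rintro rfl
      exact h2n h2
    · exact (h1.dvd_iff_one_le_factorization hn0).1 h2
  rcases Nat.lt_or_ge n.primeFactors.card 2 with hlt | hge
  · rcases Nat.lt_or_ge n.primeFactors.card 1 with h0 | h1
    · have : n.primeFactors = ∅ := Finset.card_eq_zero.1 (by omega)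
      rw [this, Finset.prod_empty] at hprod
      omega
    · obtain ⟨p, hp⟩ := Finset.card_eq_one.1 (show n.primeFactors.card = 1 by omega)
      rw [hp, Finset.prod_singleton] at hprod
      obtain ⟨hp1, hp2, hp3⟩ := hprime p (by rw [hp]; exact Finset.mem_singleton_self p)
      have ha : 2 ≤ n.factorization p := by
        by_contra hlt
        have : n.factorization p = 1 := by omega
        rw [this, pow_one] at hprod
        exact hnp (hprod ▸ hp1)
      have h := case_one hp1 hp2 ha (by rw [hprod]; exact h9)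
      rwa [hprod] at h
  · obtain ⟨p, q, hpq, hpq2⟩ := Finset.card_eq_two.1 (show n.primeFactors.card = 2 by omega)
    rw [hpq2, Finset.prod_pair hpq] at hprod
    obtain ⟨hp1, hp2, hp3⟩ := hprime p (by rw [hpq2]; simp)
    obtain ⟨hq1, hq2, hq3⟩ := hprime q (by rw [hpq2]; simp)
    have h := case_two hp1 hq1 hp2 hq2 hpq hp3 hq3
    rwa [hprod] at h

end Pool.Agent.H482.WT
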