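import Mathlib
import Pool.Agent.H482.WT.StmB

/-! WT RMK (helper618 for helper482): at most `φ(n) / 2 ^ (ω(n) - 1)` strong liars. -/

set_option autoImplicit false

namespace Pool.Agent.H482.WT

namespace Rmkx

open Finset
open Pool.Agent.H379R2.W (Passes v2 pow_of_passes v2_spec v2_pos legendre_level)

/-- the decomposition is unique -/
theorem uniq {j d j' d' : ℕ} (h : 2 ^ j * d = 2 ^ j' * d') (hd : Odd d) (hd' : Odd d') :
    j = j' ∧ d = d' := by
  have aux : ∀ {j d j' d' : ℕ}, 2 ^ j * d = 2 ^ j' * d' → Odd d → j' ≤ j → j' ≤ j → Odd d' →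
      j = j' := by
    intro j d j' d' h hd hle _ hd'
    by_contra hne
    obtain ⟨k, hk⟩ : ∃ k, j = j' + (k + 1) := ⟨j - j' - 1, by omega⟩
    rw [hk, pow_add, mul_assoc] at h
    have h2 := Nat.eq_of_mul_eq_mul_left (by positivity) h
    rw [← h2, pow_succ, mul_comm (2 ^ k) 2, mul_assoc] at hd'
    exact (Nat.not_odd_iff_even.2 (even_two_mul _)) hd'
  have hj : j = j' := by
    rcases le_total j j' with h1 | h1
    · exact (aux h.symm hd' h1 h1 hd).symm
    · exact aux h hd h1 h1 hd'
  subst hj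
  exact ⟨rfl, Nat.eq_of_mul_eq_mul_left (by positivity) h⟩

/-- solutions of `x ^ m = -1` modulo a prime -/
theorem exists_neg {p v d : ℕ} (hp : p.Prime) (hp2 : p ≠ 2) (hv : 1 ≤ v) (hvp : v ≤ v2 p)
    (hd : Odd d) : ∃ c : ℕ, (c : ZMod p) ^ (2 ^ (v - 1) * d) = -1 := by
  have : Fact p.Prime := ⟨hp⟩
  obtain ⟨t, ht, hpt⟩ := v2_spec hp.two_le
  obtain ⟨g, hg⟩ : ∃ g : ZMod p, ¬ IsSquare g := by
    apply FiniteField.exists_nonsquare
    rw [ringChar.eq_iff.2 (ZMod.charP p)]
    exact hp2
  have hg0 : g ≠ 0 := by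
    rintro rfl
    exact hg ⟨0, by ring⟩
  have hg1 : g ^ (p / 2) = -1 := by
    rcases ZMod.pow_div_two_eq_neg_one_or_one p hg0 with h | h
    · exact absurd ((ZMod.euler_criterion p hg0).2 h) hg
    · exact h
  have hhalf : p / 2 = 2 ^ (v2 p - 1) * t := by
    obtain ⟨w, hw⟩ : ∃ w, v2 p = w + 1 := ⟨v2 p - 1, by omega⟩
    rw [hw] at hpt ⊢
    rw [Nat.add_sub_cancel]
    rw [pow_succ] at hpt
    have := hp.two_le
    have e : 2 ^ w * 2 * t = 2 * (2 ^ w * t) := by ring
    omega
  refine ⟨(g ^ (t * 2 ^ (v2 p - v))).val, ?_⟩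
  rw [ZMod.natCast_val, ZMod.cast_id, ← pow_mul]
  have e : t * 2 ^ (v2 p - v) * (2 ^ (v - 1) * d) = 2 ^ (v2 p - 1) * t * d := by
    have : v2 p - 1 = (v2 p - v) + (v - 1) := by omega
    rw [this, pow_add]
    ring
  rw [e, ← hhalf, pow_mul, hg1, hd.neg_one_pow]

section

variable {n : ℕ}

/-- the reduction modulo a prime factor -/
theorem red {p a m : ℕ} (hpn : p ∣ n) {x : ZMod n} (h : (a : ZMod n) ^ m = x) :
    (a : ZMod p) ^ m = ZMod.castHom hpn (ZMod p) x := by
  rw [← h, map_pow, map_natCast]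

/-- a number with given powers modulo the prime factors -/
theorem exists_T (hn : 3 ≤ n) (m : ℕ) (hc : ∀ p ∈ n.primeFactors, ∃ c : ℕ, (c : ZMod p) ^ m = -1)
    (hm : m ≠ 0) (T : Finset ℕ) : ∃ k : ℕ, k.Coprime n ∧ ∀ p ∈ n.primeFactors,
      (k : ZMod p) ^ m = if p ∈ T then -1 else 1 := by
  classical
  choose! c hc using hc
  obtain ⟨k, hk⟩ := Nat.chineseRemainderOfFinset (fun p => if p ∈ T then c p else 1) (fun p => p)
    n.primeFactors (fun p hp => (Nat.prime_of_mem_primeFactors hp).ne_zero) (by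
      intro p hp q hq hpq
      exact (Nat.coprime_primes (Nat.prime_of_mem_primeFactors hp)
        (Nat.prime_of_mem_primeFactors hq)).2 hpq)
  have hk2 : ∀ p ∈ n.primeFactors, (k : ZMod p) ^ m = if p ∈ T then -1 else 1 := by
    intro p hp
    have h1 : (k : ZMod p) = ((if p ∈ T then c p else 1 : ℕ) : ZMod p) :=
      (ZMod.natCast_eq_natCast_iff _ _ _).2 (hk p hp)
    rw [h1]
    split_ifs with h
    · exact hc p hp
    · rw [Nat.cast_one, one_pow]
  refine ⟨k, ?_, hk2⟩
  by_contra hco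
  obtain ⟨p, hp, h1, h2⟩ := Nat.Prime.not_coprime_iff_dvd.1 hco
  have hpn : p ∈ n.primeFactors := Nat.mem_primeFactors.2 ⟨hp, h2, by omega⟩
  have h3 := hk2 p hpn
  have : Fact p.Prime := ⟨hp⟩
  rw [(ZMod.natCast_eq_zero_iff _ _).2 h1, zero_pow hm] at h3
  split_ifs at h3 with h
  · have := congrArg (fun z => -z) h3
    simp at this
  · exact zero_ne_one h3

/-- the image of the power map is large -/
theorem large (hn : 3 ≤ n) (ho : Odd n) (m : ℕ) (hm : m ≠ 0)
    (hc : ∀ p ∈ n.primeFactors, ∃ c : ℕ, (c : ZMod p) ^ m = -1) :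
    2 ^ n.primeFactors.card ≤ Nat.card (powMonoidHom m : (ZMod n)ˣ →* (ZMod n)ˣ).range := by
  classical
  have : NeZero n := ⟨by omega⟩
  choose k hk1 hk2 using exists_T hn m hc hm
  let F : n.primeFactors.powerset → (powMonoidHom m : (ZMod n)ˣ →* (ZMod n)ˣ).range :=
    fun T => ⟨powMonoidHom m (ZMod.unitOfCoprime (k T.1) (hk1 T.1)), ⟨_, rfl⟩⟩
  have hF : Function.Injective F := by
    intro T T' h
    have h1 : (ZMod.unitOfCoprime (k T.1) (hk1 T.1)) ^ m =
        (ZMod.unitOfCoprime (k T'.1) (hk1 T'.1)) ^ m := congrArg Subtype.val h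
    have h2 : ((k T.1 : ℕ) : ZMod n) ^ m = ((k T'.1 : ℕ) : ZMod n) ^ m := by
      have := congrArg Units.val h1
      simpa only [Units.val_pow_eq_pow_val, ZMod.coe_unitOfCoprime] using this
    have key : ∀ p ∈ n.primeFactors, (p ∈ T.1 ↔ p ∈ T'.1) := by
      intro p hp
      have hpn := Nat.dvd_of_mem_primeFactors hp
      have hpp := Nat.prime_of_mem_primeFactors hp
      have h3 := red (p := p) hpn h2
      rw [map_pow, map_natCast, hk2 T.1 p hp, hk2 T'.1 p hp] at h3
      have : Fact (2 < p) := ⟨by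
        have h4 := hpp.two_le
        have h5 : p ≠ 2 := by
          rintro rfl
          exact (Nat.not_odd_iff_even.2 (even_iff_two_dvd.2 hpn)) ho
        omega⟩
      have hne : (-1 : ZMod p) ≠ 1 := ZMod.neg_one_ne_one
      by_cases a1 : p ∈ T.1 <;> by_cases a2 : p ∈ T'.1 <;>
        simp only [a1, a2, if_true, if_false] at h3 ⊢
      · exact absurd h3 hne
      · exact absurd h3.symm hne
    apply Subtype.ext
    ext p
    constructor
    · intro hp
      exact (key p (Finset.mem_powerset.1 T.2 hp)).1 hp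
    · intro hp
      exact (key p (Finset.mem_powerset.1 T'.2 hp)).2 hp
  have h1 := Nat.card_le_card_of_injective F hF
  rw [Nat.card_eq_fintype_card, Fintype.card_coe, Finset.card_powerset] at h1
  exact h1

/-- the liars are in two cosets of the kernel -/
theorem two_cosets (hn : 3 ≤ n) (m : ℕ)
    (h : ∀ b, Passes n b → (b : ZMod n) ^ m = 1 ∨ (b : ZMod n) ^ m = -1) :
    LL n ≤ 2 * Nat.card (powMonoidHom m : (ZMod n)ˣ →* (ZMod n)ˣ).ker := by
  classical
  have : NeZero n := ⟨by omega⟩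
  have hco : ∀ b, Passes n b → b.Coprime n := by
    intro b hb
    have h1 := pow_of_passes hb
    have h2 : IsUnit (b : ZMod n) := by
      have h3 : (b : ZMod n) * (b : ZMod n) ^ (n - 2) = 1 := by
        rw [← pow_succ']
        have : n - 2 + 1 = n - 1 := by omega
        rw [this, h1]
      exact IsUnit.of_mul_eq_one _ h3
    exact (ZMod.isUnit_iff_coprime b n).1 h2
  set K := (powMonoidHom m : (ZMod n)ˣ →* (ZMod n)ˣ).ker with hK
  let P : Finset (ZMod n)ˣ := univ.filter fun u => u ^ m = 1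
  let N : Finset (ZMod n)ˣ := univ.filter fun u => u ^ m = -1
  have hP : P.card = Nat.card K := by
    rw [Nat.card_eq_fintype_card, Fintype.card_subtype]
    congr 1
    ext u
    simp only [P, Finset.mem_filter, Finset.mem_univ, true_and, hK, MonoidHom.mem_ker,
      powMonoidHom_apply]
  have hN : N.card ≤ Nat.card K := by
    rcases N.eq_empty_or_nonempty with h0 | ⟨u₀, hu₀⟩
    · rw [h0, Finset.card_empty]
      exact Nat.zero_le _
    · rw [← hP]
      have hu : u₀ ^ m = -1 := (Finset.mem_filter.1 hu₀).2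
      apply Finset.card_le_card_of_injOn (fun u => u * u₀⁻¹)
      · intro u hu'
        have hu2 : u ^ m = -1 := (Finset.mem_filter.1 (Finset.mem_coe.1 hu')).2
        apply Finset.mem_coe.2
        apply Finset.mem_filter.2
        refine ⟨Finset.mem_univ _, ?_⟩
        rw [mul_pow, inv_pow, hu, hu2, mul_inv_cancel]
      · intro a _ b _ hab
        exact mul_right_cancel hab
  have hLL : LL n ≤ (P ∪ N).card := by
    unfold LL
    apply Finset.card_le_card_of_injOn
      (fun b => if hb : b.Coprime n then ZMod.unitOfCoprime b hb else 1)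
    · intro b hb
      have hb' := Finset.mem_filter.1 (Finset.mem_coe.1 hb)
      have hbc := hco b hb'.2
      simp only [dif_pos hbc]
      apply Finset.mem_coe.2
      rw [Finset.mem_union]
      rcases h b hb'.2 with h1 | h1
      · left
        apply Finset.mem_filter.2
        refine ⟨Finset.mem_univ _, ?_⟩
        apply Units.ext
        rw [Units.val_pow_eq_pow_val, ZMod.coe_unitOfCoprime, h1, Units.val_one]
      · right
        apply Finset.mem_filter.2
        refine ⟨Finset.mem_univ _, ?_⟩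
        apply Units.ext
        rw [Units.val_pow_eq_pow_val, ZMod.coe_unitOfCoprime, h1, Units.val_neg, Units.val_one]
    · intro a ha b hb hab
      have ha' := Finset.mem_filter.1 (Finset.mem_coe.1 ha)
      have hb' := Finset.mem_filter.1 (Finset.mem_coe.1 hb)
      have hac := hco a ha'.2
      have hbc := hco b hb'.2
      simp only [dif_pos hac, dif_pos hbc] at hab
      have h1 := congrArg Units.val hab
      rw [ZMod.coe_unitOfCoprime, ZMod.coe_unitOfCoprime] at h1
      have h2 := (ZMod.natCast_eq_natCast_iff _ _ _).1 h1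
      exact Nat.ModEq.eq_of_lt_of_lt h2 (Finset.mem_range.1 ha'.1) (Finset.mem_range.1 hb'.1)
  have h4 := Finset.card_union_le P N
  omega

end

end Rmkx

open Rmkx
open Pool.Agent.H379R2.W (Passes v2 pow_of_passes v2_spec v2_pos legendre_level)

theorem rmk : S_RMK := by
  classical
  intro n hn ho
  have : NeZero n := ⟨by omega⟩
  have hne : n.primeFactors.Nonempty := Nat.nonempty_primeFactors.2 (by omega)
  -- the decomposition of `n - 1`
  obtain ⟨j, d, hjd, hd⟩ : ∃ j d, n - 1 = 2 ^ j * d ∧ Odd d := by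
    refine ⟨(n - 1).factorization 2, (n - 1) / 2 ^ (n - 1).factorization 2,
      (Nat.ordProj_mul_ordCompl_eq_self (n - 1) 2).symm, ?_⟩
    rw [← Nat.not_even_iff_odd, even_iff_two_dvd]
    exact Nat.not_dvd_ordCompl Nat.prime_two (by omega)
  obtain ⟨p₀, hp₀, hmin⟩ := n.primeFactors.exists_min_image v2 hne
  have hp2 : ∀ p ∈ n.primeFactors, p ≠ 2 := by
    rintro p hp rfl
    exact (Nat.not_odd_iff_even.2 (even_iff_two_dvd.2 (Nat.dvd_of_mem_primeFactors hp))) ho
  have hv : 1 ≤ v2 p₀ := v2_pos (Nat.prime_of_mem_primeFactors hp₀) (hp2 p₀ hp₀)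
  set v := v2 p₀ with hvdef
  set m := 2 ^ (v - 1) * d with hmdef
  have hm : m ≠ 0 := mul_ne_zero (by positivity) hd.pos.ne'
  have h1 : ∀ b, Passes n b → (b : ZMod n) ^ m = 1 ∨ (b : ZMod n) ^ m = -1 := by
    rintro b ⟨j', d', e1, e2, e3⟩
    obtain ⟨rfl, rfl⟩ := uniq (hjd.symm.trans e1) hd e2
    rcases e3 with e3 | ⟨i, -, e3⟩
    · left
      rw [hmdef, mul_comm, pow_mul, e3, one_pow]
    · have hi : i + 1 ≤ v := by
        have hpn := Nat.dvd_of_mem_primeFactors hp₀
        have e4 := red (p := p₀) hpn e3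
        rw [map_neg, map_one] at e4
        exact (legendre_level (Nat.prime_of_mem_primeFactors hp₀) (hp2 p₀ hp₀) hd e4).1
      obtain ⟨k, hk⟩ : ∃ k, v - 1 = i + k := ⟨v - 1 - i, by omega⟩
      have e5 : (b : ZMod n) ^ m = (-1) ^ 2 ^ k := by
        rw [← e3, ← pow_mul, hmdef, hk]
        congr 1
        rw [pow_add]
        ring
      rcases Nat.eq_zero_or_pos k with h0 | h0
      · right
        rw [e5, h0, pow_zero, pow_one]
      · left
        rw [e5]
        exact Even.neg_one_pow (Nat.even_pow.2 ⟨even_two, h0.ne'⟩)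
  have h2 := two_cosets hn m h1
  have h3 := large hn ho m hm (fun p hp =>
    exists_neg (Nat.prime_of_mem_primeFactors hp) (hp2 p hp) hv (hmin p hp) hd)
  have h4 : Nat.card (powMonoidHom m : (ZMod n)ˣ →* (ZMod n)ˣ).ker *
      Nat.card (powMonoidHom m : (ZMod n)ˣ →* (ZMod n)ˣ).range = n.totient := by
    rw [← Subgroup.index_ker, Subgroup.card_mul_index, Nat.card_eq_fintype_card,
      ZMod.card_units_eq_totient]
  have h5 : 0 < n.primeFactors.card := Finset.card_pos.2 hne
  have h6 : 2 ^ n.primeFactors.card = 2 ^ (n.primeFactors.card - 1) * 2 := by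
    rw [← pow_succ]
    congr 1
    omega
  calc 2 ^ (n.primeFactors.card - 1) * LL n
      ≤ 2 ^ (n.primeFactors.card - 1) *
        (2 * Nat.card (powMonoidHom m : (ZMod n)ˣ →* (ZMod n)ˣ).ker) := Nat.mul_le_mul_left _ h2
    _ = Nat.card (powMonoidHom m : (ZMod n)ˣ →* (ZMod n)ˣ).ker * 2 ^ n.primeFactors.card := by
        rw [h6]; ring
    _ ≤ _ := Nat.mul_le_mul_left _ h3
    _ = n.totient := h4

end Pool.Agent.H482.WT
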