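import Mathlib
import Pool.Agent.H482.WT.Rmk
import Pool.Agent.H482.WT.Rma

/-! The theorem of Rabin and Monier. -/

set_option autoImplicit false

namespace Pool.Agent.H482.WT

theorem rabin (hA : S_RMA) (hK : S_RMK) (n : ℕ) (hn : 3 ≤ n) (ho : Odd n) (hnp : ¬ n.Prime)
    (h9 : n ≠ 9) : 4 * LL n ≤ Nat.totient n := by
  by_cases h : n.primeFactors.card ≤ 2
  · exact hA n hn ho hnp h9 h
  · push Not at h
    refine le_trans ?_ (hK n hn ho)
    apply Nat.mul_le_mul_right
    calc 4 = 2 ^ 2 := by norm_num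
      _ ≤ 2 ^ (n.primeFactors.card - 1) := Nat.pow_le_pow_right (by norm_num) (by omega)

end Pool.Agent.H482.WT
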