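import Pool.Agent.H482.WT.Stm

set_option autoImplicit false

/-!
# Task REP of project WT (helper974)
-/

namespace Pool.Agent.H482.WT

open Finset

theorem rep : S_REP := by
  classical
  intro z y k n
  rcases ((Fintype.piFinset (fun _ : Fin k => PR z y)).filter
    (fun w => ∏ i, w i = n)).eq_empty_or_nonempty with h | ⟨w0, hw0⟩
  · rw [h, card_empty]
    exact Nat.zero_le _
  · rw [mem_filter, Fintype.mem_piFinset] at hw0
    have hpr : ∀ (w : Fin k → ℕ), (∀ i, w i ∈ PR z y) → ∀ i, (w i).Prime := fun w hw i =>
      (mem_filter.mp (hw i)).2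
    have hn : n ≠ 0 := by
      rw [← hw0.2, Finset.prod_ne_zero_iff]
      exact fun i _ => (hpr w0 hw0.1 i).ne_zero
    have hsub : n.primeFactors ⊆ univ.image w0 := by
      intro p hp
      have hpp := Nat.prime_of_mem_primeFactors hp
      have hpn := Nat.dvd_of_mem_primeFactors hp
      rw [← hw0.2] at hpn
      obtain ⟨i, _, hi⟩ := (Nat.Prime.prime hpp).exists_mem_finset_dvd hpn
      have := (Nat.prime_dvd_prime_iff_eq hpp (hpr w0 hw0.1 i)).mp hi
      exact mem_image.mpr ⟨i, mem_univ _, this.symm⟩
    have hcard : n.primeFactors.card ≤ k := by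
      refine le_trans (card_le_card hsub) (le_trans card_image_le ?_)
      rw [card_univ, Fintype.card_fin]
    have hss : (Fintype.piFinset (fun _ : Fin k => PR z y)).filter (fun w => ∏ i, w i = n) ⊆
        Fintype.piFinset (fun _ : Fin k => n.primeFactors) := by
      intro w hw
      rw [mem_filter, Fintype.mem_piFinset] at hw
      rw [Fintype.mem_piFinset]
      intro i
      rw [Nat.mem_primeFactors]
      refine ⟨hpr w hw.1 i, ?_, hn⟩
      rw [← hw.2]
      exact Finset.dvd_prod_of_mem _ (mem_univ i)
    refine le_trans (card_le_card hss) ?_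
    rw [Fintype.card_piFinset, prod_const, card_univ, Fintype.card_fin]
    exact Nat.pow_le_pow_left hcard k

end Pool.Agent.H482.WT
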