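import Mathlib
import Pool.Agent.H482.WT.Stm
import Pool.Graph.R_seed8.Helper923.HMertens

/-!
Task Tup of project WT (helper482).
-/

set_option autoImplicit false

namespace Pool.Agent.H482.WT

open Finset

namespace TupL

/-- primes in a short interval -/
theorem inner : ∃ C : ℝ, 0 < C ∧ ∀ z y M j : ℕ, 2 ≤ z → 0 < M →
    ∑ p ∈ (PR z y).filter (fun p => 2 ^ j ≤ p * M ∧ p * M < 2 ^ (j + 1)), 1 / (p : ℝ) ≤
      C / Real.log z := by
  obtain ⟨C, hC⟩ := Pool.Agent.Helper923.HMertens.mertens_log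
  have hC0 : 0 ≤ C := le_trans (abs_nonneg _) (hC 1 le_rfl)
  refine ⟨2 * C + 2, by linarith, fun z y M j hz hM => ?_⟩
  have hz' : (2 : ℝ) ≤ z := by exact_mod_cast hz
  have hlz : 0 < Real.log z := Real.log_pos (by linarith)
  set A := (PR z y).filter (fun p => 2 ^ j ≤ p * M ∧ p * M < 2 ^ (j + 1)) with hA
  have hAp : ∀ p ∈ A, p.Prime ∧ z < p ∧ 2 ^ j ≤ p * M ∧ p * M < 2 ^ (j + 1) := by
    intro p hp
    rw [hA, mem_filter, PR, mem_filter, mem_Ioc] at hp
    exact ⟨hp.1.2, hp.1.1.1, hp.2⟩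
  have h1 : ∑ p ∈ A, 1 / (p : ℝ) ≤ (∑ p ∈ A, Real.log p / p) / Real.log z := by
    rw [sum_div]
    refine sum_le_sum fun p hp => ?_
    obtain ⟨hpp, hzp, -⟩ := hAp p hp
    have hp0 : (0 : ℝ) < p := by exact_mod_cast hpp.pos
    have hle : Real.log z ≤ Real.log p :=
      Real.log_le_log (by linarith) (by exact_mod_cast hzp.le)
    rw [div_div, div_le_div_iff₀ hp0 (mul_pos hp0 hlz)]
    nlinarith
  refine h1.trans (div_le_div_of_nonneg_right ?_ hlz.le)
  -- the interval
  set N₁ := (2 ^ j - 1) / M with hN₁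
  set N₂ := (2 ^ (j + 1) - 1) / M with hN₂
  have hsub : A ⊆ ((Icc 1 N₂).filter Nat.Prime) \ ((Icc 1 N₁).filter Nat.Prime) := by
    intro p hp
    obtain ⟨hpp, -, h2, h3⟩ := hAp p hp
    rw [mem_sdiff, mem_filter, mem_filter, mem_Icc, mem_Icc]
    refine ⟨⟨⟨hpp.one_lt.le, ?_⟩, hpp⟩, fun h => ?_⟩
    · rw [hN₂, Nat.le_div_iff_mul_le hM]
      omega
    · have h4 := h.1.2
      rw [hN₁, Nat.le_div_iff_mul_le hM] at h4
      have : 0 < 2 ^ j := by positivity
      omega
  have h21 : N₂ ≤ 2 * N₁ + 1 := by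
    have h5 : 2 ^ j - 1 < M * (N₁ + 1) := by
      rw [hN₁]
      exact Nat.lt_mul_div_succ _ hM
    have h6 : 2 ^ (j + 1) - 1 < M * (2 * N₁ + 2) := by
      have h7 : 2 ^ (j + 1) = 2 * 2 ^ j := by ring
      have h8 : 0 < 2 ^ j := by positivity
      have h9 : M * (2 * N₁ + 2) = 2 * (M * (N₁ + 1)) := by ring
      omega
    have h10 : N₂ < 2 * N₁ + 2 := by
      rw [hN₂, Nat.div_lt_iff_lt_mul hM, mul_comm]
      exact h6
    omega
  have hle12 : N₁ ≤ N₂ := by
    rw [hN₁, hN₂]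
    apply Nat.div_le_div_right
    have h7 : 2 ^ (j + 1) = 2 * 2 ^ j := by ring
    omega
  rcases Nat.eq_zero_or_pos N₁ with h0 | hpos
  · have hAe : A = ∅ := by
      rw [eq_empty_iff_forall_notMem]
      intro p hp
      have h2 := hsub hp
      rw [mem_sdiff, mem_filter, mem_Icc] at h2
      have := h2.1.2.two_le
      have := h2.1.1.2
      omega
    rw [hAe, sum_empty]
    linarith
  · have hmono : ((Icc 1 N₁).filter Nat.Prime) ⊆ ((Icc 1 N₂).filter Nat.Prime) :=
      filter_subset_filter _ (Icc_subset_Icc_right hle12)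
    have h2 : ∑ p ∈ A, Real.log p / p ≤
        ∑ p ∈ ((Icc 1 N₂).filter Nat.Prime) \ ((Icc 1 N₁).filter Nat.Prime),
          Real.log p / (p : ℝ) :=
      sum_le_sum_of_subset_of_nonneg hsub fun p _ _ =>
        div_nonneg (Real.log_natCast_nonneg p) (Nat.cast_nonneg p)
    have h3 := sum_sdiff hmono (f := fun p : ℕ => Real.log p / (p : ℝ))
    have h4 := (abs_le.1 (hC N₂ (hpos.trans_le hle12))).2
    have h5 := (abs_le.1 (hC N₁ hpos)).1
    have h6 : Real.log N₂ ≤ Real.log N₁ + 2 := by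
      have hN1 : (0 : ℝ) < N₁ := by exact_mod_cast hpos
      have hN2 : (0 : ℝ) < N₂ := by exact_mod_cast hpos.trans_le hle12
      have h7 : (N₂ : ℝ) ≤ 3 * N₁ := by
        have : N₂ ≤ 3 * N₁ := by omega
        exact_mod_cast this
      calc Real.log N₂ ≤ Real.log (3 * N₁) := Real.log_le_log hN2 h7
        _ = Real.log 3 + Real.log N₁ := Real.log_mul (by norm_num) hN1.ne'
        _ ≤ 2 + Real.log N₁ := by
            have := Real.log_le_sub_one_of_pos (show (0:ℝ) < 3 by norm_num)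
            linarith
        _ = _ := by ring
    linarith

end TupL

open Classical in
theorem tup : S_TUP := by
  obtain ⟨C, hC0, hC⟩ := TupL.inner
  refine ⟨C, hC0, fun z y k j hz => ?_⟩
  have hz' : (2 : ℝ) ≤ z := by exact_mod_cast hz
  have hlz : 0 < Real.log z := Real.log_pos (by linarith)
  rw [sum_filter]
  have h1 : ∑ w ∈ Fintype.piFinset (fun _ : Fin (k + 1) => PR z y),
      (if 2 ^ j ≤ ∏ i, w i ∧ ∏ i, w i < 2 ^ (j + 1) then ∏ i, (1 / (w i : ℝ)) else 0) =
      ∑ q ∈ Fintype.piFinset (fun _ : Fin k => PR z y), ∑ p ∈ PR z y,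
        (if 2 ^ j ≤ p * ∏ i, q i ∧ p * ∏ i, q i < 2 ^ (j + 1) then
          1 / (p : ℝ) * ∏ i, (1 / (q i : ℝ)) else 0) := by
    rw [← sum_product']
    refine sum_bij' (fun w _ => (fun i : Fin k => w i.succ, w 0))
      (fun r _ => Fin.cons r.2 r.1) ?_ ?_ ?_ ?_ ?_
    · intro w hw
      rw [Fintype.mem_piFinset] at hw
      exact mem_product.2 ⟨Fintype.mem_piFinset.2 fun i => hw _, hw 0⟩
    · intro r hr
      rw [mem_product, Fintype.mem_piFinset] at hr
      rw [Fintype.mem_piFinset]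
      intro i
      refine Fin.cases ?_ (fun i => ?_) i
      · rw [Fin.cons_zero]; exact hr.2
      · rw [Fin.cons_succ]; exact hr.1 i
    · intro w _
      funext i
      refine Fin.cases ?_ (fun i => ?_) i <;> simp
    · intro r _
      simp
    · intro w _
      simp only [Fin.prod_univ_succ]
  rw [h1]
  have h2 : ∀ q ∈ Fintype.piFinset (fun _ : Fin k => PR z y), ∑ p ∈ PR z y,
        (if 2 ^ j ≤ p * ∏ i, q i ∧ p * ∏ i, q i < 2 ^ (j + 1) then
          1 / (p : ℝ) * ∏ i, (1 / (q i : ℝ)) else 0) ≤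
      C / Real.log z * ∏ i, (1 / (q i : ℝ)) := by
    intro q hq
    rw [Fintype.mem_piFinset] at hq
    have hM : 0 < ∏ i, q i := prod_pos fun i _ => by
      have := hq i
      rw [PR, mem_filter] at this
      exact this.2.pos
    rw [← sum_filter, ← sum_mul]
    exact mul_le_mul_of_nonneg_right (hC z y _ j hz hM)
      (prod_nonneg fun i _ => by positivity)
  refine (sum_le_sum h2).trans (le_of_eq ?_)
  rw [← mul_sum]
  have h3 := prod_univ_sum (fun _ : Fin k => PR z y) (fun _ p => 1 / (p : ℝ))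
  rw [prod_const, card_univ, Fintype.card_fin] at h3
  rw [← h3]
  ring

end Pool.Agent.H482.WT
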