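import Mathlib
import Pool.Agent.H482.WT.Cnt
import Pool.Agent.H482.WT.UniC
import Pool.Agent.H482.WT.Few

/-! Few composite integers have no prime witness below a given bound, uniformly. -/

set_option autoImplicit false

namespace Pool.Agent.H482.WT

open Finset Real

open Pool.Agent.H379R2.W (Passes v2 not_dvd_of_passes)
theorem uniP (hP : S_PSI) (hPr : S_PROD) (hPm : S_PRM) (hPd : S_PRD) : ∃ C : ℝ, 0 < C ∧
    ∀ x y : ℕ, 2 ≤ y → y ≤ x →
    ∀ W : Finset ℕ, (∀ n ∈ W, 2 ≤ n ∧ n ≤ x ∧ ¬ n.Prime ∧ ∀ b : ℕ, b.Prime → b ≤ y → Passes n b) →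
      (W.card : ℝ) ≤ BD C x y := by
  classical
  obtain ⟨K, hK8, hK1⟩ := bad_count
  unfold BD
  have hl2 : (0.69 : ℝ) < log 2 := by have := Real.log_two_gt_d9; linarith
  have hlK : 0 ≤ log K := Real.log_nonneg (by linarith)
  set K' := log K / log 2 + 6 with hK'
  have hK'0 : 0 < K' := by
    have : 0 ≤ log K / log 2 := by positivity
    linarith
  refine ⟨14 + 9 * K', by positivity, fun x y hy hyx W hW => ?_⟩
  have hy1 : (1 : ℝ) < y := by exact_mod_cast (by omega : 1 < y)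
  have hx0 : (0 : ℝ) < x := by exact_mod_cast (by omega : 0 < x)
  have hly : 0 < log y := Real.log_pos hy1
  have hlyx : log y ≤ log x := Real.log_le_log (by linarith) (by exact_mod_cast hyx)
  set u := log x / log y with hu
  have hu1 : 1 ≤ u := by rw [hu, le_div_iff₀ hly]; linarith
  have hxu : log x = u * log y := by rw [hu]; field_simp
  set ℓ := log (u + 1) with hℓ
  have hℓ2 : log 2 ≤ ℓ := Real.log_le_log (by norm_num) (by linarith)
  have hℓ0 : 0 < ℓ := by linarith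
  set j := ⌈2 * u⌉₊ with hj
  have hj1 : 2 * u ≤ j := Nat.le_ceil _
  have hj2 : (j : ℝ) < 2 * u + 1 := Nat.ceil_lt_add_one (by linarith)
  have hj3 : (j : ℝ) ≤ 3 * u := by linarith
  have hj2' : (2 : ℝ) ≤ j := by linarith
  have hj2n : 2 ≤ j := by exact_mod_cast hj2'
  have hxy : x ^ 2 ≤ y ^ j := by
    have h1 : ((x : ℝ)) ^ 2 ≤ (y : ℝ) ^ j := by
      have h2 : log ((x : ℝ) ^ 2) ≤ log ((y : ℝ) ^ j) := by
        rw [Real.log_pow, Real.log_pow, hxu]
        push_cast
        nlinarith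
      exact (Real.log_le_log_iff (by positivity) (by positivity)).1 h2
    exact_mod_cast h1
  have hKj1 : 32 ≤ K * (j : ℝ) ^ 2 := by nlinarith
  have hM : log (K * (j : ℝ) ^ 2) ≤ K' * ℓ := by
    rw [Real.log_mul (by linarith) (by positivity), Real.log_pow]
    have h1 : log (j : ℝ) ≤ log 3 + ℓ := by
      calc log (j : ℝ) ≤ log (3 * u) := Real.log_le_log (by linarith) hj3
        _ = log 3 + log u := Real.log_mul (by norm_num) (by linarith)
        _ ≤ log 3 + ℓ := by
            have : log u ≤ ℓ := Real.log_le_log (by linarith) (by linarith)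
            linarith
    have h3 : log 3 ≤ 1.11 := by
      have h4 : Real.log 3 = Real.log 2 + Real.log (3 / 2) := by
        rw [← Real.log_mul (by norm_num) (by norm_num)]; norm_num
      have h5 : Real.log (3 / 2) ≤ 0.41 := by
        rw [Real.log_le_iff_le_exp (by norm_num)]
        have := Real.quadratic_le_exp_of_nonneg (x := 0.41) (by norm_num)
        norm_num at this ⊢
        have h6 := Real.exp_one_gt_d9
        have h7 := Real.add_one_le_exp (0.41 / 4 : ℝ)
        have h8 : Real.exp (41 / 100 : ℝ) = Real.exp (0.41 / 4) ^ 4 := by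
          rw [← Real.exp_nat_mul]; norm_num
        rw [h8]
        calc (3 / 2 : ℝ) ≤ (1 + 0.41 / 4 + (0.41 / 4) ^ 2 / 2) ^ 4 := by norm_num
          _ ≤ Real.exp (0.41 / 4) ^ 4 := by
              apply pow_le_pow_left₀ (by norm_num)
              exact Real.quadratic_le_exp_of_nonneg (by norm_num)
      have := Real.log_two_lt_d9
      linarith
    have h2 : log K ≤ log K / log 2 * ℓ := by
      calc log K = log K / log 2 * log 2 := by field_simp
        _ ≤ log K / log 2 * ℓ := mul_le_mul_of_nonneg_left hℓ2 (by positivity)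
    rw [hK']
    push_cast
    nlinarith
  have huℓ : 0.69 ≤ u * ℓ := by nlinarith
  by_cases hcase : (K * (j : ℝ) ^ 2) ^ 8 ≤ y
  · -- the main case
    have hyb : 256 ≤ y := by
      have h1 : (256 : ℝ) ≤ y := by
        refine le_trans ?_ hcase
        calc (256 : ℝ) ≤ 32 ^ 8 := by norm_num
          _ ≤ _ := pow_le_pow_left₀ (by norm_num) hKj1 8
      exact_mod_cast h1
    have hjy : j ^ 4 ≤ y := by
      have h1 : ((j : ℝ)) ^ 4 ≤ y := by
        refine le_trans ?_ hcase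
        have h2 : (j : ℝ) ^ 2 ≤ K * (j : ℝ) ^ 2 := by nlinarith [sq_nonneg (j : ℝ)]
        calc (j : ℝ) ^ 4 = ((j : ℝ) ^ 2) ^ 2 := by ring
          _ ≤ (K * (j : ℝ) ^ 2) ^ 2 := pow_le_pow_left₀ (by positivity) h2 2
          _ ≤ (K * (j : ℝ) ^ 2) ^ 8 := pow_le_pow_right₀ (by linarith) (by norm_num)
      exact_mod_cast h1
    set B := (Icc 1 x).filter (fun f => BadC y f) with hB
    have hBc := hK1 x y j (by omega) hyb hjy hxy B (fun f hf => by
      rw [hB, mem_filter, mem_Icc] at hf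
      exact ⟨hf.1.1, hf.1.2, hf.2⟩)
    have h1 := count_struct B W (by
      intro n hn
      obtain ⟨hn2, hnx, hnp, hpass⟩ := hW n hn
      refine exc_struct hP hPr hPm hPd n hn2 hnp B ?_
      intro m χ hmn hχ hone
      have hm0 : 0 < m := Nat.pos_of_dvd_of_pos hmn (by omega)
      rw [hB, mem_filter, mem_Icc]
      exact ⟨⟨hm0, (Nat.le_of_dvd (by omega) hmn).trans hnx⟩, χ, hχ,
        fun l hl hly => hone l (hpass l hl hly)⟩)
    set M : ℝ := 12 * (K * (j : ℝ) ^ 2) ^ j with hMd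
    have hM1 : 1 ≤ M := by
      have h2 : (1 : ℝ) ≤ (K * (j : ℝ) ^ 2) ^ j := one_le_pow₀ (by linarith)
      linarith
    have h2 : (W.card : ℝ) ≤ 3 * M ^ 3 := by
      have h4 : (W.card : ℝ) ≤ (B.card : ℝ) + (B.card : ℝ) ^ 2 + (B.card : ℝ) ^ 3 := by
        exact_mod_cast h1
      have h0 : (0 : ℝ) ≤ B.card := Nat.cast_nonneg _
      have h5 : (B.card : ℝ) ≤ M ^ 3 := hBc.trans (le_self_pow₀ hM1 (by norm_num))
      have h6 : (B.card : ℝ) ^ 2 ≤ M ^ 3 :=
        (pow_le_pow_left₀ h0 hBc 2).trans (pow_le_pow_right₀ hM1 (by norm_num))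
      have h7 : (B.card : ℝ) ^ 3 ≤ M ^ 3 := pow_le_pow_left₀ h0 hBc 3
      linarith
    refine h2.trans ?_
    have hpos : 0 < 3 * M ^ 3 := by positivity
    rw [← Real.log_le_iff_le_exp hpos, Real.log_mul (by norm_num) (by positivity), Real.log_pow,
      hMd, Real.log_mul (by norm_num) (by positivity), Real.log_pow]
    have h12 : log 12 ≤ 2.6 := by
      have h4 : Real.log 12 ≤ Real.log 16 - 0.28 + 0.05 := by
        have h5 : Real.log 12 = Real.log 16 + Real.log (3 / 4) := by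
          rw [← Real.log_mul (by norm_num) (by norm_num)]; norm_num
        have h6 := Real.log_le_sub_one_of_pos (show (0 : ℝ) < 3 / 4 by norm_num)
        linarith
      have h7 : Real.log 16 = 4 * Real.log 2 := by
        rw [show (16 : ℝ) = 2 ^ 4 by norm_num, Real.log_pow]; norm_num
      have := Real.log_two_lt_d9
      linarith
    have h3' : log 3 ≤ 1.14 := by
      have h4 : Real.log 3 ≤ Real.log 4 - 1 / 4 := by
        have h5 : Real.log 3 = Real.log 4 + Real.log (3 / 4) := by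
          rw [← Real.log_mul (by norm_num) (by norm_num)]; norm_num
        have h6 := Real.log_le_sub_one_of_pos (show (0 : ℝ) < 3 / 4 by norm_num)
        linarith
      have h7 : Real.log 4 = 2 * Real.log 2 := by
        rw [show (4 : ℝ) = 2 ^ 2 by norm_num, Real.log_pow]; norm_num
      have := Real.log_two_lt_d9
      linarith
    have h3 : (j : ℝ) * log (K * (j : ℝ) ^ 2) ≤ 3 * u * (K' * ℓ) := by
      apply mul_le_mul hj3 hM _ (by linarith)
      exact Real.log_nonneg (by linarith)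
    have h4 : 0 ≤ u * (K' * ℓ) := by positivity
    push_cast
    nlinarith
  · push Not at hcase
    have h1 : (W.card : ℝ) ≤ x := by
      have h2 : W ⊆ Icc 1 x := fun n hn => by
        obtain ⟨hn2, hnx, -⟩ := hW n hn
        rw [mem_Icc]; omega
      have h3 := card_le_card h2
      rw [Nat.card_Icc, Nat.add_sub_cancel] at h3
      exact_mod_cast h3
    refine h1.trans ?_
    rw [← Real.log_le_iff_le_exp hx0, hxu]
    have h2 : log y ≤ 8 * (K' * ℓ) := by
      have h3 := Real.log_le_log (by linarith) hcase.le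
      rw [Real.log_pow] at h3
      push_cast at h3
      linarith
    have h4 : u * log y ≤ u * (8 * (K' * ℓ)) := mul_le_mul_of_nonneg_left h2 (by linarith)
    nlinarith

/-- no small prime witness relative to `n` -/
def NWP (δ : ℝ) (n : ℕ) : Prop :=
  2 ≤ n ∧ ¬ n.Prime ∧ ∀ b : ℕ, b.Prime → (b : ℝ) ≤ (n : ℝ) ^ δ → Passes n b

theorem NWP_mono {δ δ' : ℝ} (h : δ' ≤ δ) {n : ℕ} (hn : NWP δ n) : NWP δ' n := by
  obtain ⟨h1, h2, h3⟩ := hn
  refine ⟨h1, h2, fun b hb hbn => h3 b hb (hbn.trans ?_)⟩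
  exact Real.rpow_le_rpow_of_exponent_le (by exact_mod_cast (by omega : 1 ≤ n)) h

theorem blockP (hP : S_PSI) (hPr : S_PROD) (hPm : S_PRM) (hPd : S_PRD) (δ : ℝ) (hδ : 0 < δ) (hδ1 : δ ≤ 1) : ∃ C x0 : ℕ,
    ∀ x : ℕ, x0 ≤ x → ∀ W : Finset ℕ, (∀ n ∈ W, x < n ∧ n ≤ x ^ 2 ∧ NWP δ n) → W.card ≤ C := by
  obtain ⟨C, hC, hC1⟩ := uniP hP hPr hPm hPd
  obtain ⟨x0, hx0⟩ := scale δ hδ
  refine ⟨⌈exp (C * (4 / δ) * log (4 / δ + 1))⌉₊, x0, fun x hx W hW => ?_⟩
  obtain ⟨hy2, hyx, hx2⟩ := hx0 x hx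
  set y := ⌊(x : ℝ) ^ δ⌋₊ with hy
  have hx1 : (1 : ℝ) < x := by exact_mod_cast (by omega : 1 < x)
  have hlx : 0 < log (x : ℝ) := Real.log_pos hx1
  have hyxx : (y : ℝ) ≤ (x : ℝ) ^ δ := Nat.floor_le (by positivity)
  have hyle : y ≤ x ^ 2 := by
    have h1 : (y : ℝ) ≤ x := by
      calc (y : ℝ) ≤ (x : ℝ) ^ δ := hyxx
        _ ≤ (x : ℝ) ^ (1 : ℝ) := Real.rpow_le_rpow_of_exponent_le hx1.le hδ1
        _ = x := Real.rpow_one _
    have h2 : y ≤ x := by exact_mod_cast h1
    exact h2.trans (Nat.le_self_pow (by norm_num) x)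
  have h1 := hC1 (x ^ 2) y hy2 hyle W (by
    intro n hn
    obtain ⟨a1, a2, a3, a4, a5⟩ := hW n hn
    refine ⟨a3, a2, a4, fun b hb hby => a5 b hb ?_⟩
    have h2 : (b : ℝ) ≤ y := by exact_mod_cast hby
    calc (b : ℝ) ≤ y := h2
      _ ≤ (x : ℝ) ^ δ := hyxx
      _ ≤ (n : ℝ) ^ δ := Real.rpow_le_rpow (by linarith) (by exact_mod_cast a1.le) hδ.le)
  have hlog : log (((x ^ 2 : ℕ) : ℝ)) = 2 * log x := by
    push_cast
    rw [Real.log_pow]
    norm_num
  have hy1 : (1 : ℝ) < y := by exact_mod_cast (by omega : 1 < y)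
  have hly : 0 < log (y : ℝ) := Real.log_pos hy1
  have hly2 : δ / 2 * log x ≤ log (y : ℝ) := by
    have h2 := Real.log_le_log (by positivity) hyx
    rwa [Real.log_rpow (by linarith)] at h2
  have hu : log (((x ^ 2 : ℕ) : ℝ)) / log y ≤ 4 / δ := by
    rw [hlog, div_le_iff₀ hly]
    calc 2 * log x = 4 / δ * (δ / 2 * log x) := by field_simp; ring
      _ ≤ 4 / δ * log y := mul_le_mul_of_nonneg_left hly2 (by positivity)
  have hu0 : 0 ≤ log (((x ^ 2 : ℕ) : ℝ)) / log y := by rw [hlog]; positivity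
  have h3 : (W.card : ℝ) ≤ exp (C * (4 / δ) * log (4 / δ + 1)) := by
    refine h1.trans (Real.exp_le_exp.2 ?_)
    apply mul_le_mul _ _ (Real.log_nonneg (by linarith)) (by positivity)
    · exact mul_le_mul_of_nonneg_left hu hC.le
    · exact Real.log_le_log (by linarith) (by linarith)
  exact_mod_cast h3.trans (Nat.le_ceil _)

theorem towerP (hP : S_PSI) (hPr : S_PROD) (hPm : S_PRM) (hPd : S_PRD) (δ : ℝ) (hδ : 0 < δ) (hδ1 : δ ≤ 1) : ∃ C : ℕ,
    ∀ k : ℕ, ∀ W : Finset ℕ, (∀ n ∈ W, n ≤ 2 ^ 2 ^ k ∧ NWP δ n) → W.card ≤ C * (k + 1) := by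
  classical
  obtain ⟨C, x0, hC⟩ := blockP hP hPr hPm hPd δ hδ hδ1
  refine ⟨C + (x0 + 2) ^ 2, fun k => ?_⟩
  induction k with
  | zero =>
    intro W hW
    have h1 : W ⊆ Icc 1 2 := by
      intro n hn
      obtain ⟨h1, h2, -⟩ := hW n hn
      rw [mem_Icc]
      norm_num at h1
      omega
    have h2 := card_le_card h1
    rw [Nat.card_Icc] at h2
    have h3 : 2 ≤ (x0 + 2) ^ 2 :=
      calc 2 ≤ 2 ^ 2 := by norm_num
        _ ≤ (x0 + 2) ^ 2 := Nat.pow_le_pow_left (by omega) 2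
    omega
  | succ k ih =>
    intro W hW
    have hsq : 2 ^ 2 ^ (k + 1) = (2 ^ 2 ^ k) ^ 2 := by rw [← pow_mul, pow_succ]
    rcases lt_or_ge (2 ^ 2 ^ k) x0 with h | h
    · have h1 : W ⊆ Icc 1 ((x0 + 2) ^ 2) := by
        intro n hn
        obtain ⟨h1, h2, -⟩ := hW n hn
        rw [mem_Icc]
        rw [hsq] at h1
        refine ⟨by omega, h1.trans (Nat.pow_le_pow_left (by omega) 2)⟩
      have h2 := card_le_card h1
      rw [Nat.card_Icc, Nat.add_sub_cancel] at h2
      calc W.card ≤ (x0 + 2) ^ 2 := h2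
        _ ≤ C + (x0 + 2) ^ 2 := Nat.le_add_left _ _
        _ ≤ _ := Nat.le_mul_of_pos_right _ (by omega)
    · set W1 := W.filter (fun n => n ≤ 2 ^ 2 ^ k) with hW1
      set W2 := W.filter (fun n => ¬ n ≤ 2 ^ 2 ^ k) with hW2
      have h1 : W1.card ≤ (C + (x0 + 2) ^ 2) * (k + 1) := ih W1 (by
        intro n hn
        rw [hW1, mem_filter] at hn
        exact ⟨hn.2, (hW n hn.1).2⟩)
      have h2 : W2.card ≤ C := hC (2 ^ 2 ^ k) h W2 (by
        intro n hn
        rw [hW2, mem_filter] at hn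
        obtain ⟨a1, a2⟩ := hW n hn.1
        rw [hsq] at a1
        exact ⟨by omega, a1, a2⟩)
      have h3 : W1.card + W2.card = W.card := card_filter_add_card_filter_not _
      calc W.card = W1.card + W2.card := h3.symm
        _ ≤ (C + (x0 + 2) ^ 2) * (k + 1) + C := by omega
        _ ≤ (C + (x0 + 2) ^ 2) * (k + 1 + 1) := by nlinarith

theorem llogP (hP : S_PSI) (hPr : S_PROD) (hPm : S_PRM) (hPd : S_PRD) (δ : ℝ) (hδ : 0 < δ) : ∃ C : ℝ, 0 < C ∧ ∀ X : ℕ, 16 ≤ X →
    ∀ W : Finset ℕ, (∀ n ∈ W, n ≤ X ∧ NWP δ n) → (W.card : ℝ) ≤ C * log (log X) := by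
  obtain ⟨C, hC⟩ := towerP hP hPr hPm hPd (min δ 1) (lt_min hδ one_pos) (min_le_right _ _)
  refine ⟨5 * (C + 1), by positivity, fun X hX W hW => ?_⟩
  set k := Nat.log 2 (Nat.log 2 X) + 1 with hk
  have hX0 : X ≠ 0 := by omega
  have hL4 : 4 ≤ Nat.log 2 X := by
    apply Nat.le_log_of_pow_le (by norm_num)
    norm_num
    exact hX
  have hXk : X ≤ 2 ^ 2 ^ k := by
    have h1 : X < 2 ^ (Nat.log 2 X + 1) := Nat.lt_pow_succ_log_self (by norm_num) X
    have h2 : Nat.log 2 X < 2 ^ k := Nat.lt_pow_succ_log_self (by norm_num) _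
    exact h1.le.trans (Nat.pow_le_pow_right (by norm_num) (by omega))
  have h1 := hC k W (fun n hn => ⟨((hW n hn).1).trans hXk, NWP_mono (min_le_left _ _) (hW n hn).2⟩)
  have hlogX : (Nat.log 2 X : ℝ) * log 2 ≤ log X := by
    have h2 : (2 : ℝ) ^ (Nat.log 2 X) ≤ X := by exact_mod_cast Nat.pow_log_le_self 2 hX0
    have h3 := Real.log_le_log (by positivity) h2
    rwa [Real.log_pow] at h3
  have hkk : ((Nat.log 2 (Nat.log 2 X) : ℕ) : ℝ) * log 2 ≤ log (Nat.log 2 X) := by
    have h2 : (2 : ℝ) ^ (Nat.log 2 (Nat.log 2 X)) ≤ (Nat.log 2 X : ℕ) := by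
      exact_mod_cast Nat.pow_log_le_self 2 (by omega)
    have h3 := Real.log_le_log (by positivity) h2
    rwa [Real.log_pow] at h3
  have hl2 : (0.69 : ℝ) < log 2 := by have := Real.log_two_gt_d9; linarith
  have hl2' : log 2 < (0.7 : ℝ) := by have := Real.log_two_lt_d9; linarith
  have hX16 : 4 * log 2 ≤ log X := by
    have h2 : Real.log 16 = 4 * Real.log 2 := by
      rw [show (16 : ℝ) = 2 ^ 4 by norm_num, Real.log_pow]; norm_num
    rw [← h2]
    exact Real.log_le_log (by norm_num) (by exact_mod_cast hX)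
  have hlogX0 : 0 < log X := by linarith
  -- `log log X ≥ 1`
  have hll1 : 1 ≤ log (log X) := by
    rw [Real.le_log_iff_exp_le hlogX0]
    have := Real.exp_one_lt_d9
    linarith
  have h4 : log (Nat.log 2 X : ℝ) ≤ log (log X) + 0.4 := by
    have h5 : (Nat.log 2 X : ℝ) ≤ log X / log 2 := by rw [le_div_iff₀ (by linarith)]; exact hlogX
    have h6 : (0 : ℝ) < (Nat.log 2 X : ℝ) := by exact_mod_cast (by omega : 0 < Nat.log 2 X)
    have h7 := Real.log_le_log h6 h5
    rw [Real.log_div hlogX0.ne' (by linarith)] at h7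
    have h8 : -0.4 ≤ log (log 2) := by
      rw [Real.le_log_iff_exp_le (by linarith)]
      have h9 : Real.exp (-0.4) ≤ 0.69 := by
        rw [Real.exp_neg, inv_le_comm₀ (Real.exp_pos _) (by norm_num)]
        have := Real.quadratic_le_exp_of_nonneg (x := 0.4) (by norm_num)
        norm_num at this ⊢
        linarith
      linarith
    linarith
  have h5 : ((Nat.log 2 (Nat.log 2 X) : ℕ) : ℝ) ≤ 3 * log (log X) := by
    by_contra hcon
    push Not at hcon
    nlinarith
  have h6 : (W.card : ℝ) ≤ C * (k + 1) := by exact_mod_cast h1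
  have h7 : ((k : ℕ) : ℝ) + 1 ≤ 5 * log (log X) := by
    rw [hk]
    push_cast
    linarith
  calc (W.card : ℝ) ≤ C * (k + 1) := h6
    _ ≤ (C + 1) * (5 * log (log X)) := by
        apply mul_le_mul (by linarith) h7 (by positivity) (by positivity)
    _ = _ := by ring

end Pool.Agent.H482.WT
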